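import Pool.Agent.DC.C.MulOp

/-!
# Project DC: smoothness of the coefficients of the path of operators; StT (C15)
-/

set_option autoImplicit false

open MeasureTheory Set
open scoped ContDiff BigOperators Matrix Topology

namespace Pool.Agent.DC

theorem op_zero_smul {n : ℕ} (x : Op n) : (0 : ℝ) • x = 0 := zero_smul ℝ x

section Sm

variable {X : Type} [NormedAddCommGroup X] [NormedSpace ℝ X] {n : ℕ}

theorem contDiff_mdet {m : Type} [Fintype m] [DecidableEq m] (S : X → Matrix m m ℝ)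
    (hS : ∀ i j, ContDiff ℝ ∞ fun x => S x i j) : ContDiff ℝ ∞ fun x => (S x).det := by
  have : (fun x => (S x).det) = fun x => ∑ σ : Equiv.Perm m,
      ((Equiv.Perm.sign σ : ℤ) : ℝ) * ∏ i, S x (σ i) i := by
    funext x
    rw [Matrix.det_apply']
  rw [this]
  refine ContDiff.sum fun σ _ => contDiff_const.mul ?_
  exact contDiff_prod fun i _ => hS _ _

theorem contDiff_minv (S : X → Matrix (Fin n) (Fin n) ℝ)
    (hS : ∀ i j, ContDiff ℝ ∞ fun x => S x i j) (hd : ∀ x, (S x).det ≠ 0) (i j : Fin n) :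
    ContDiff ℝ ∞ fun x => (S x)⁻¹ i j := by
  have : (fun x => (S x)⁻¹ i j) = fun x => ((S x).det)⁻¹ *
      ((S x).updateRow j (Pi.single i 1)).det := by
    funext x
    rw [Matrix.inv_def, Ring.inverse_eq_inv', Matrix.smul_apply, Matrix.adjugate_apply, smul_eq_mul]
  rw [this]
  refine ((contDiff_mdet S hS).inv hd).mul (contDiff_mdet _ fun k l => ?_)
  by_cases h : k = j
  · subst h
    simp only [Matrix.updateRow_self]
    exact contDiff_const
  · simp only [Matrix.updateRow_ne h]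
    exact hS k l

theorem contDiff_mmul (A B : X → Matrix (Fin n) (Fin n) ℝ)
    (hA : ∀ i j, ContDiff ℝ ∞ fun x => A x i j) (hB : ∀ i j, ContDiff ℝ ∞ fun x => B x i j)
    (i j : Fin n) : ContDiff ℝ ∞ fun x => (A x * B x) i j := by
  simp only [Matrix.mul_apply]
  exact ContDiff.sum fun k _ => (hA i k).mul (hB k j)

theorem contDiff_spin (W : X → Matrix (Fin n) (Fin n) ℝ)
    (hW : ∀ i j, ContDiff ℝ ∞ fun x => W x i j) : ContDiff ℝ ∞ fun x => spin (W x) := by
  unfold spin
  have h : ContDiff ℝ ∞ fun x => ∑ b, ∑ c, W x c b • (gm b * gm c : Op n) :=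
    ContDiff.sum fun b _ => ContDiff.sum fun c _ => (hW c b).smul contDiff_const
  exact h.const_smul (1 / 4 : ℝ)

/-- joint smoothness of the partial derivative -/
theorem contDiff_pd2 (F : ℝ → E n → ℝ) (hF : ContDiff ℝ ∞ fun p : ℝ × E n => F p.1 p.2)
    (i : Fin n) : ContDiff ℝ ∞ fun p : ℝ × E n => pd i (F p.1) p.2 := by
  have h : ContDiff ℝ ∞ fun p : ℝ × E n => fderiv ℝ (F p.1) p.2 := by
    refine ContDiff.fderiv (𝕜 := ℝ) (m := ∞) (n := ∞) (f := fun p : ℝ × E n => F p.1)
      (g := fun p : ℝ × E n => p.2) ?_ contDiff_snd (by simp)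
    have : (Function.uncurry fun p : ℝ × E n => F p.1) =
        (fun p : ℝ × E n => F p.1 p.2) ∘ fun q : (ℝ × E n) × E n => (q.1.1, q.2) := rfl
    rw [this]
    exact hF.comp ((contDiff_fst.comp contDiff_fst).prodMk contDiff_snd)
  exact h.clm_apply contDiff_const

end Sm

namespace Dat

variable {n : ℕ} (D : Dat n)

theorem chr2 (k i j : Fin n) : ContDiff ℝ ∞ fun p : ℝ × E n => chr (D.g p.1) k i j p.2 := by
  obtain ⟨hg, hf, hp, -⟩ := st_pa n D
  have hinv := contDiff_minv (fun p : ℝ × E n => D.g p.1 p.2) hg (fun p => (hp p.1 p.2).det_pos.ne')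
  have hpd : ∀ i j l : Fin n, ContDiff ℝ ∞ fun p : ℝ × E n => pd i (fun y => D.g p.1 y j l) p.2 :=
    fun i j l => contDiff_pd2 (fun t y => D.g t y j l) (hg j l) i
  unfold chr
  exact contDiff_const.mul (ContDiff.sum fun l _ => (hinv k l).mul
    (((hpd i j l).add (hpd j i l)).sub (hpd l i j)))

theorem conM2 (i k j : Fin n) :
    ContDiff ℝ ∞ fun p : ℝ × E n => conM (D.g p.1) (D.f p.1) i p.2 k j := by
  obtain ⟨hg, hf, hp, hfr, -⟩ := st_pa n D
  have hdet : ∀ p : ℝ × E n, (D.f p.1 p.2).det ≠ 0 := by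
    intro p h
    have := (hfr p.1).on p.2
    have h2 := congrArg Matrix.det this
    rw [Matrix.det_mul, h, mul_zero, Matrix.det_one] at h2
    exact zero_ne_one h2
  unfold conM
  refine contDiff_mmul (fun p : ℝ × E n => (D.f p.1 p.2)⁻¹)
    (fun p : ℝ × E n => chM (D.g p.1) i p.2 * D.f p.1 p.2 + pdM i (D.f p.1) p.2)
    (contDiff_minv _ hf hdet) ?_ k j
  intro a b
  simp only [Matrix.add_apply]
  refine ContDiff.add ?_ ?_
  · exact contDiff_mmul (fun p : ℝ × E n => chM (D.g p.1) i p.2) (fun p : ℝ × E n => D.f p.1 p.2)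
      (fun k j => D.chr2 k i j) hf a b
  · exact contDiff_pd2 (fun t y => D.f t y a b) (hf a b) i

theorem gi2 (i : Fin n) : ContDiff ℝ ∞ fun p : ℝ × E n => gi (D.f p.1) i p.2 := by
  obtain ⟨hg, hf, hp, hfr, -⟩ := st_pa n D
  unfold gi
  exact ContDiff.sum fun a _ => (hf i a).smul contDiff_const

theorem spin2 (i : Fin n) :
    ContDiff ℝ ∞ fun p : ℝ × E n => spin (conM (D.g p.1) (D.f p.1) i p.2) :=
  contDiff_spin (fun p : ℝ × E n => conM (D.g p.1) (D.f p.1) i p.2) (fun k j => D.conM2 i k j)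

theorem pd_zero_of_flat {F : Type} [NormedAddCommGroup F] [NormedSpace ℝ F] (h : E n → F) (c : F)
    (R : ℝ) (hc : ∀ x, R ≤ ‖x‖ → h x = c) (x : E n) (hx : R < ‖x‖) (i : Fin n) :
    pd i h x = 0 := by
  have : h =ᶠ[𝓝 x] fun _ => c := by
    have ho : {y : E n | R < ‖y‖} ∈ 𝓝 x := (isOpen_lt continuous_const continuous_norm).mem_nhds hx
    filter_upwards [ho] with y hy
    exact hc y (le_of_lt hy)
  unfold pd
  rw [this.fderiv_eq]
  simp

theorem chr_zero (t : ℝ) (k i j : Fin n) (x : E n) (hx : D.R < ‖x‖) : chr (D.g t) k i j x = 0 := by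
  obtain ⟨hg, hf, hp, hfr, hfl, -⟩ := st_pa n D
  have h : ∀ i j l : Fin n, pd i (fun y => D.g t y j l) x = 0 := fun i j l =>
    pd_zero_of_flat (fun y => D.g t y j l) ((D.C • (1 : Matrix (Fin n) (Fin n) ℝ)) j l) D.R
      (fun y hy => by rw [(hfl t y hy).1]) x hx i
  unfold chr
  simp [h]

theorem conM_zero (t : ℝ) (i : Fin n) (x : E n) (hx : D.R < ‖x‖) :
    conM (D.g t) (D.f t) i x = 0 := by
  obtain ⟨hg, hf, hp, hfr, hfl, -⟩ := st_pa n D
  have h1 : chM (D.g t) i x = 0 := by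
    ext k j
    exact D.chr_zero t k i j x hx
  have h2 : pdM i (D.f t) x = 0 := by
    ext k j
    exact pd_zero_of_flat (fun y => D.f t y k j)
      (((Real.sqrt D.C)⁻¹ • (1 : Matrix (Fin n) (Fin n) ℝ)) k j) D.R
      (fun y hy => by rw [(hfl t y hy).2]) x hx i
  unfold conM
  rw [h1, h2]
  simp

theorem spin_zero' : spin (0 : Matrix (Fin n) (Fin n) ℝ) = 0 := by
  simp [spin, op_zero_smul]

theorem gi_flat (t : ℝ) (i : Fin n) (x : E n) (hx : D.R ≤ ‖x‖) :
    gi (D.f t) i x = (Real.sqrt D.C)⁻¹ • gm i := by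
  obtain ⟨hg, hf, hp, hfr, hfl, -⟩ := st_pa n D
  unfold gi
  rw [(hfl t x hx).2]
  rw [Finset.sum_eq_single i]
  · simp
  · intro b _ hb
    simp [Ne.symm hb, op_zero_smul]
  · simp

/-- the coefficients of the operators -/
noncomputable def co : Option (Fin n ⊕ Fin n) → ℝ → E n → Op n
  | none => fun t x => (∑ i, gi (D.f t) i x * spin (conM (D.g t) (D.f t) i x)) +
      Real.smoothTransition t • ∑ a, D.β x a • Gm a
  | some (Sum.inl i) => fun t x => gi (D.f t) i x
  | some (Sum.inr i) => fun _ _ => (Real.sqrt D.C)⁻¹ • Gm i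

theorem B_eq (t : ℝ) (u : E n → Sp n) (x : E n) :
    D.B t u x = ∑ o, D.co o t x (jf u o x) := by
  unfold B dB dir nab pot φ
  rw [Fintype.sum_option, Fintype.sum_sum_type]
  simp only [co, jf]
  simp only [map_add, Finset.sum_add_distrib, add_apply, sum_apply, smul_apply,
    PiLp.add_apply, PiLp.smul_apply, smul_eq_mul, add_smul,
    map_smul, Finset.smul_sum, ← smul_smul]
  have h : ∀ a : Fin n, (Real.sqrt D.C)⁻¹ • x a • (Gm a) (u x) =
      x a • (Real.sqrt D.C)⁻¹ • (Gm a) (u x) := fun a => smul_comm _ _ _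
  have h' : ∀ a : Fin n, (gi (D.f t) a x * spin (conM (D.g t) (D.f t) a x)) (u x) =
      (gi (D.f t) a x) ((spin (conM (D.g t) (D.f t) a x)) (u x)) := fun a => rfl
  simp only [h, h']
  abel

theorem adm_none : Adm (D.co none) := by
  refine Adm.add ?_ ?_
  · refine Adm.of_const_at_infinity (c := fun t x =>
      ∑ i, gi (D.f t) i x * spin (conM (D.g t) (D.f t) i x)) ?_ (D.R + 1) 0 ?_
    · refine continuous_finsetSum _ fun i _ => ?_
      exact (D.gi2 i).continuous.mul (D.spin2 i).continuous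
    · intro t x hx
      have : D.R < ‖x‖ := by linarith
      refine Finset.sum_eq_zero fun i _ => ?_
      rw [D.conM_zero t i x this, spin_zero', mul_zero]
  · refine Adm.smul (s := Real.smoothTransition) Real.smoothTransition.continuous
      (q := fun x => ∑ a, D.β x a • Gm a) ?_ (∑ a : Fin n, D.K * ‖(Gm a : Op n)‖) ?_
    · refine continuous_finsetSum _ fun a _ => ?_
      have h1 : Continuous fun x => D.β x a :=
        (EuclideanSpace.proj a : E n →L[ℝ] ℝ).continuous.comp D.smooth.continuous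
      exact h1.smul continuous_const
    · intro x
      refine (norm_sum_le _ _).trans (Finset.sum_le_sum fun a _ => ?_)
      rw [norm_smul]
      refine mul_le_mul_of_nonneg_right ?_ (norm_nonneg _)
      exact (PiLp.norm_apply_le (D.β x) a).trans (D.bd x)

theorem adm_co (o : Option (Fin n ⊕ Fin n)) : Adm (D.co o) := by
  rcases o with _ | i | i
  · exact D.adm_none
  · refine Adm.of_const_at_infinity (c := D.co (some (Sum.inl i))) (D.gi2 i).continuous D.R
      ((Real.sqrt D.C)⁻¹ • gm i) ?_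
    intro t x hx
    exact D.gi_flat t i x hx
  · refine Adm.of_const_at_infinity (c := D.co (some (Sum.inr i))) continuous_const 0
      ((Real.sqrt D.C)⁻¹ • Gm i) ?_
    intro t x hx
    rfl

end Dat

theorem exists_T_jet {n : ℕ} (D : Dat n) : ∃ T : ℝ → HH n →L[ℝ] L2 n, Continuous T ∧
    (∀ t (X : HH n), (T t X : E n → Sp n) =ᵐ[volume] fun x => ∑ o, D.co o t x ((X.1 o : L2 n) x)) :=
  exists_jet_path D.co D.adm_co

theorem st_t : StT := by
  intro n D
  obtain ⟨T, hT, h⟩ := exists_T_jet D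
  refine ⟨T, hT, fun t u X hu hX => ?_⟩
  have hX' : ∀ᵐ x : E n, ∀ o, (X.1 o : E n → Sp n) x = jf u o x := by
    rw [ae_all_iff]
    exact hX
  filter_upwards [h t X, hX'] with x h1 h2
  rw [h1, D.B_eq t u x]
  exact Finset.sum_congr rfl fun o _ => by rw [h2 o]

end Pool.Agent.DC
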