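import Mathlib

/-!
# Project DC (MP_b05a29): scalar curvature of metrics on Euclidean space, and the box theorem

Definitions for block C.
-/

set_option autoImplicit false

open MeasureTheory Set
open scoped ContDiff BigOperators Matrix

namespace Pool.Agent.DC

/-- Euclidean space -/
abbrev E (n : ℕ) : Type := EuclideanSpace ℝ (Fin n)

/-- basis vectors -/
noncomputable def ev {n : ℕ} (i : Fin n) : E n := EuclideanSpace.single i (1 : ℝ)

/-- partial derivatives -/
noncomputable def pd {n : ℕ} {F : Type} [NormedAddCommGroup F] [NormedSpace ℝ F] (i : Fin n)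
    (f : E n → F) (x : E n) : F := fderiv ℝ f x (ev i)

/-- the type of matrix valued functions which may be Riemannian metrics -/
abbrev MF (n : ℕ) : Type := E n → Matrix (Fin n) (Fin n) ℝ

/-- a smooth Riemannian metric on the Euclidean space -/
structure Metric (n : ℕ) where
  /-- the matrix of the metric in the standard coordinates -/
  m : MF n
  smooth : ∀ i j, ContDiff ℝ ∞ fun x => m x i j
  pos : ∀ x, (m x).PosDef

/-- the Christoffel symbols `Γ^k_{ij}` -/
noncomputable def chr {n : ℕ} (g : MF n) (k i j : Fin n) (x : E n) : ℝ :=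
  1 / 2 * ∑ l, (g x)⁻¹ k l * (pd i (fun y => g y j l) x + pd j (fun y => g y i l) x -
    pd l (fun y => g y i j) x)

/-- the curvature `R_{ij}^k_l` -/
noncomputable def riem {n : ℕ} (g : MF n) (i j k l : Fin n) (x : E n) : ℝ :=
  pd i (chr g k j l) x - pd j (chr g k i l) x +
    ∑ p, (chr g k i p x * chr g p j l x - chr g k j p x * chr g p i l x)

/-- the Ricci curvature -/
noncomputable def ric {n : ℕ} (g : MF n) (j l : Fin n) (x : E n) : ℝ := ∑ i, riem g i j i l x

/-- the scalar curvature -/
noncomputable def scal {n : ℕ} (g : MF n) (x : E n) : ℝ := ∑ j, ∑ l, (g x)⁻¹ j l * ric g j l x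

/-- the length of the path `γ`, parametrised by the unit interval -/
noncomputable def len {n : ℕ} (g : MF n) (γ : ℝ → E n) : ℝ :=
  ∫ t in (0 : ℝ)..1, Real.sqrt (∑ i, ∑ j, g (γ t) i j * deriv γ t i * deriv γ t j)

/-- the unit cube -/
def cube (n : ℕ) : Set (E n) := {x | ∀ i, x i ∈ Icc (0 : ℝ) 1}

/-- The box theorem: a metric on the cube with scalar curvature at least `c > 0` has two opposite
faces with distance less than `L`, where `L` depends only on `c` and the dimension. -/
def BoxTheorem : Prop := ∀ n : ℕ, 1 ≤ n → ∀ c : ℝ, 0 < c → ∃ L : ℝ, 0 < L ∧ ∀ g : Metric n,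
  (∀ x ∈ cube n, c ≤ scal g.m x) → ∃ (i : Fin n) (γ : ℝ → E n), ContDiff ℝ ∞ γ ∧
    (∀ t ∈ Icc (0 : ℝ) 1, γ t ∈ cube n) ∧ γ 0 i = 0 ∧ γ 1 i = 1 ∧ len g.m γ < L

/-! ### Spinors -/

/-- the real spinors (exterior forms), `2 ^ n` dimensional -/
abbrev Sp (n : ℕ) : Type := EuclideanSpace ℝ (Finset (Fin n))

/-- endomorphisms of the spinors -/
abbrev Op (n : ℕ) : Type := Sp n →L[ℝ] Sp n

/-- creation matrices -/
def crM {n : ℕ} (a : Fin n) : Matrix (Finset (Fin n)) (Finset (Fin n)) ℝ :=
  fun A B => if a ∉ B ∧ A = insert a B then (-1) ^ (B.filter (· < a)).card else 0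

/-- creation operators -/
noncomputable def cr {n : ℕ} (a : Fin n) : Op n := Matrix.toEuclideanCLM (𝕜 := ℝ) (crM a)

/-- annihilation operators -/
noncomputable def an {n : ℕ} (a : Fin n) : Op n := Matrix.toEuclideanCLM (𝕜 := ℝ) (crM a)ᵀ

/-- skew Clifford generators, square `-1` -/
noncomputable def gm {n : ℕ} (a : Fin n) : Op n := cr a - an a

/-- symmetric Clifford generators, square `1` -/
noncomputable def Gm {n : ℕ} (a : Fin n) : Op n := cr a + an a

/-- the parity of the degree -/
noncomputable def par (n : ℕ) : Op n :=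
  Matrix.toEuclideanCLM (𝕜 := ℝ) (Matrix.diagonal fun A : Finset (Fin n) => (-1) ^ A.card)

/-- the vacuum -/
noncomputable def vac (n : ℕ) : Sp n := EuclideanSpace.single (∅ : Finset (Fin n)) (1 : ℝ)

/-- the spin representation of a (skew) matrix -/
noncomputable def spin {n : ℕ} (W : Matrix (Fin n) (Fin n) ℝ) : Op n :=
  (1 / 4 : ℝ) • ∑ b, ∑ c, W c b • (gm b * gm c)

/-! ### Frames, connection, Dirac operator -/

/-- the matrix `(Γ_i)^k_j` -/
noncomputable def chM {n : ℕ} (g : MF n) (i : Fin n) (x : E n) : Matrix (Fin n) (Fin n) ℝ :=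
  fun k j => chr g k i j x

/-- a smooth orthonormal frame (columns of `f`) for the metric -/
structure IsFrame {n : ℕ} (g f : MF n) : Prop where
  smooth : ∀ i j, ContDiff ℝ ∞ fun x => f x i j
  on : ∀ x, (f x)ᵀ * g x * f x = 1

/-- partial derivatives of a matrix valued function -/
noncomputable def pdM {n : ℕ} (i : Fin n) (f : MF n) (x : E n) : Matrix (Fin n) (Fin n) ℝ :=
  fun k j => pd i (fun y => f y k j) x

/-- the connection matrix in the frame -/
noncomputable def conM {n : ℕ} (g f : MF n) (i : Fin n) (x : E n) : Matrix (Fin n) (Fin n) ℝ :=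
  (f x)⁻¹ * (chM g i x * f x + pdM i f x)

/-- Clifford multiplication by the coordinate differential `dx^i` -/
noncomputable def gi {n : ℕ} (f : MF n) (i : Fin n) (x : E n) : Op n := ∑ a, f x i a • gm a

/-- covariant derivative of a spinor -/
noncomputable def nab {n : ℕ} (g f : MF n) (i : Fin n) (u : E n → Sp n) (x : E n) : Sp n :=
  pd i u x + spin (conM g f i x) (u x)

/-- the Dirac operator -/
noncomputable def dir {n : ℕ} (g f : MF n) (u : E n → Sp n) (x : E n) : Sp n :=
  ∑ i, gi f i x (nab g f i u x)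

/-- the potential -/
noncomputable def pot {n : ℕ} (φ : E n → E n) (x : E n) : Op n := ∑ a, φ x a • Gm a

/-- the Dirac operator with potential -/
noncomputable def dB {n : ℕ} (g f : MF n) (φ : E n → E n) (u : E n → Sp n) (x : E n) : Sp n :=
  dir g f u x + pot φ x (u x)

/-- the volume density -/
noncomputable def vol {n : ℕ} (g : MF n) (x : E n) : ℝ := Real.sqrt (g x).det

/-- the square norm of a spinor valued one-form -/
noncomputable def nsq {n : ℕ} (g : MF n) (x : E n) (v : Fin n → Sp n) : ℝ :=
  ∑ i, ∑ j, (g x)⁻¹ i j * inner ℝ (v i) (v j)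

/-- the norm of the differential of a function -/
noncomputable def dnm {n : ℕ} (g : MF n) (h : E n → ℝ) (x : E n) : ℝ :=
  Real.sqrt (∑ i, ∑ j, (g x)⁻¹ i j * pd i h x * pd j h x)

/-- test spinors -/
structure Tst {n : ℕ} (u : E n → Sp n) : Prop where
  smooth : ContDiff ℝ ∞ u
  supp : HasCompactSupport u

end Pool.Agent.DC
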