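import Mathlib

/-!
Abstract index lemma for project DC: along a norm-continuous path of bounded operators between
real Hilbert spaces with closed range, finite-dimensional kernel and finite-dimensional cokernel,
the index is constant.  Also: closed range and finite-dimensional kernel from a compact estimate.
-/

open Set Filter Topology

namespace Pool.Agent.DC

section Algebra

variable {k X Y : Type*} [Field k] [AddCommGroup X] [Module k X] [AddCommGroup Y] [Module k Y]

/-- The algebraic index lemma. -/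
theorem index_alg (T : X →ₗ[k] Y) (K E : Submodule k X) (F : Submodule k Y)
    (hKE : IsCompl K E) [FiniteDimensional k K] [FiniteDimensional k F]
    (hbij : Function.Bijective (((T.comp E.subtype).coprod F.subtype : E × F →ₗ[k] Y))) :
    FiniteDimensional k (LinearMap.ker T) ∧ FiniteDimensional k (Y ⧸ LinearMap.range T) ∧
    Module.finrank k (LinearMap.ker T) + Module.finrank k F
      = Module.finrank k K + Module.finrank k (Y ⧸ LinearMap.range T) := by
  classical
  set S : (E × F) ≃ₗ[k] Y := LinearEquiv.ofBijective _ hbij with hS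
  have hSapp : ∀ (x : E) (y : F), S (x, y) = T x + y := by
    intro x y
    simp [hS]
  set g : K →ₗ[k] F := (LinearMap.snd k E F).comp
    ((S.symm : Y →ₗ[k] E × F).comp (T.comp K.subtype)) with hg
  have hgk : ∀ a : K, T a = T ((S.symm (T a)).1 : X) + (g a : Y) := by
    intro a
    have h := S.apply_symm_apply (T a)
    have h2 : S (S.symm (T a)) = T ((S.symm (T a)).1 : X) + ((S.symm (T a)).2 : Y) :=
      hSapp _ _
    rw [h] at h2
    simpa [hg] using h2
  have hgeq : ∀ (a : K) (x : E) (y : F), T a = T x + y → g a = y := by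
    intro a x y h
    have h1 : S.symm (T a) = (x, y) := by
      rw [LinearEquiv.symm_apply_eq, hSapp, h]
    simp [hg, h1]
  have hTE : ∀ x : E, T x = 0 → x = 0 := by
    intro x hx
    have h1 : S (x, 0) = S 0 := by
      rw [hSapp]; simp [hx]
    have h2 := S.injective h1
    simpa using congrArg Prod.fst h2
  -- every vector splits
  have hsplit : ∀ z : X, ∃ a : K, ∃ x : E, z = (a : X) + x := by
    intro z
    have hz : z ∈ K ⊔ E := by rw [hKE.sup_eq_top]; trivial
    obtain ⟨a, ha, x, hx, h⟩ := Submodule.mem_sup.1 hz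
    exact ⟨⟨a, ha⟩, ⟨x, hx⟩, h.symm⟩
  -- the projection on K along E
  set P : X →ₗ[k] K := K.projectionOnto E hKE with hP
  have hPK : ∀ a : K, P a = a := fun a => by
    simp [hP]
  have hPE : ∀ x : E, P x = 0 := fun x => by
    simp [hP]
  set φ : LinearMap.ker T →ₗ[k] K := P.comp (LinearMap.ker T).subtype with hφ
  have hφinj : Function.Injective φ := by
    rw [← LinearMap.ker_eq_bot, LinearMap.ker_eq_bot']
    rintro ⟨z, hz⟩ h
    obtain ⟨a, x, rfl⟩ := hsplit z
    have h1 : a = 0 := by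
      have : φ ⟨(a : X) + x, hz⟩ = a := by
        simp [hφ, hPK, hPE]
      rw [← this, h]
    subst h1
    have h2 : T x = 0 := by simpa using hz
    have h3 := hTE x h2
    subst h3
    simp
  have hφrange : LinearMap.range φ = LinearMap.ker g := by
    ext a
    constructor
    · rintro ⟨⟨z, hz⟩, rfl⟩
      obtain ⟨b, x, rfl⟩ := hsplit z
      have h1 : φ ⟨(b : X) + x, hz⟩ = b := by
        simp [hφ, hPK, hPE]
      rw [h1, LinearMap.mem_ker]
      have h2 : T b + T x = 0 := by simpa using hz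
      apply hgeq b (-x) 0
      have : T b = - T x := eq_neg_of_add_eq_zero_left h2
      simp [this]
    · intro ha
      rw [LinearMap.mem_ker] at ha
      have h1 := hgk a
      rw [ha] at h1
      refine ⟨⟨(a : X) - ((S.symm (T a)).1 : X), ?_⟩, ?_⟩
      · rw [LinearMap.mem_ker, map_sub]
        simp at h1
        rw [← h1, sub_self]
      · simp [hφ, hPK, hPE]
  have hfin1 : FiniteDimensional k (LinearMap.ker T) :=
    FiniteDimensional.of_injective φ hφinj
  have hdim1 : Module.finrank k (LinearMap.ker T) = Module.finrank k (LinearMap.ker g) := by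
    rw [← hφrange, LinearMap.finrank_range_of_inj hφinj]
  have hdim2 := LinearMap.finrank_range_add_finrank_ker g
  set ψ : F →ₗ[k] (Y ⧸ LinearMap.range T) := (LinearMap.range T).mkQ.comp F.subtype with hψ
  have hψsurj : Function.Surjective ψ := by
    intro q
    obtain ⟨y, rfl⟩ := Submodule.mkQ_surjective _ q
    refine ⟨(S.symm y).2, ?_⟩
    have h1 : y = T ((S.symm y).1 : X) + ((S.symm y).2 : Y) := by
      rw [← hSapp]; simp
    have h2 : (LinearMap.range T).mkQ (T ((S.symm y).1 : X)) = 0 := by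
      rw [Submodule.mkQ_apply, Submodule.Quotient.mk_eq_zero]
      exact ⟨_, rfl⟩
    calc ψ (S.symm y).2 = (LinearMap.range T).mkQ ((S.symm y).2 : Y) := rfl
      _ = (LinearMap.range T).mkQ (T ((S.symm y).1 : X))
          + (LinearMap.range T).mkQ ((S.symm y).2 : Y) := by rw [h2, zero_add]
      _ = (LinearMap.range T).mkQ y := by rw [← map_add, ← h1]
  have hψker : LinearMap.ker ψ = LinearMap.range g := by
    ext y
    constructor
    · intro hy
      rw [LinearMap.mem_ker] at hy
      have h1 : (y : Y) ∈ LinearMap.range T := by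
        have : (LinearMap.range T).mkQ (y : Y) = 0 := hy
        rwa [Submodule.mkQ_apply, Submodule.Quotient.mk_eq_zero] at this
      obtain ⟨z, hz⟩ := h1
      obtain ⟨a, x, rfl⟩ := hsplit z
      refine ⟨a, hgeq a (-x) y ?_⟩
      rw [← hz]
      simp
    · rintro ⟨a, rfl⟩
      rw [LinearMap.mem_ker]
      change (LinearMap.range T).mkQ (g a : Y) = 0
      rw [Submodule.mkQ_apply, Submodule.Quotient.mk_eq_zero]
      refine ⟨(a : X) - ((S.symm (T a)).1 : X), ?_⟩
      rw [map_sub, sub_eq_iff_eq_add, add_comm]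
      exact hgk a
  have hfin2 : FiniteDimensional k (Y ⧸ LinearMap.range T) :=
    Module.Finite.of_surjective ψ hψsurj
  have hdim3 := LinearMap.finrank_range_add_finrank_ker ψ
  rw [hψker, LinearMap.range_eq_top.2 hψsurj, finrank_top] at hdim3
  refine ⟨hfin1, hfin2, ?_⟩
  omega

end Algebra

section Index

variable {X Y : Type*} [NormedAddCommGroup X] [InnerProductSpace ℝ X] [CompleteSpace X]
  [NormedAddCommGroup Y] [InnerProductSpace ℝ Y] [CompleteSpace Y]

/-- The cokernel and the orthogonal complement of a closed range have the same dimension. -/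
theorem finrank_orthogonal_eq_quot (R : Submodule ℝ Y) (hR : IsClosed (R : Set Y)) :
    Module.finrank ℝ Rᗮ = Module.finrank ℝ (Y ⧸ R) := by
  have : CompleteSpace R := hR.completeSpace_coe
  exact (Submodule.quotientEquivOfIsCompl R Rᗮ
    (Submodule.isCompl_orthogonal _)).finrank_eq.symm

/-- Local constancy of the index. -/
theorem index_local (T₀ : X →L[ℝ] Y) (hcl : IsClosed (T₀.range : Set Y))
    (hker : FiniteDimensional ℝ T₀.ker) (hcok : FiniteDimensional ℝ (T₀.range)ᗮ) :
    ∀ᶠ T : X →L[ℝ] Y in 𝓝 T₀, FiniteDimensional ℝ T.ker ∧ FiniteDimensional ℝ (Y ⧸ T.range) ∧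
      Module.finrank ℝ T.ker + Module.finrank ℝ (T₀.range)ᗮ
        = Module.finrank ℝ T₀.ker + Module.finrank ℝ (Y ⧸ T.range) := by
  have : CompleteSpace T₀.range := hcl.completeSpace_coe
  have : CompleteSpace T₀.ker := T₀.isClosed_ker.completeSpace_coe
  set E : Submodule ℝ X := (T₀.ker)ᗮ with hE
  set F : Submodule ℝ Y := (T₀.range)ᗮ with hF
  have hKE : IsCompl T₀.ker E := Submodule.isCompl_orthogonal _
  have hRF : IsCompl T₀.range F := Submodule.isCompl_orthogonal _
  set Φ : (X →L[ℝ] Y) → (E × F →L[ℝ] Y) := fun T =>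
    T.comp (E.subtypeL.comp (ContinuousLinearMap.fst ℝ E F))
      + F.subtypeL.comp (ContinuousLinearMap.snd ℝ E F) with hΦ
  have hΦapp : ∀ (T : X →L[ℝ] Y) (x : E) (y : F), Φ T (x, y) = T x + y := by
    intro T x y; simp [hΦ]
  have hΦc : Continuous Φ := by
    have h1 : Continuous (fun T : X →L[ℝ] Y =>
        T.comp (E.subtypeL.comp (ContinuousLinearMap.fst ℝ E F))) :=
      continuous_id.clm_comp continuous_const
    exact h1.add continuous_const
  have hinj : Function.Injective (Φ T₀) := by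
    rw [injective_iff_map_eq_zero]
    rintro ⟨x, y⟩ h
    rw [hΦapp] at h
    have hy : (y : Y) ∈ T₀.range := by
      have : (y : Y) = T₀ (-(x : X)) := by
        rw [map_neg]; exact eq_neg_of_add_eq_zero_right h
      rw [this]
      exact ⟨_, rfl⟩
    have hy0 : (y : Y) = 0 := by
      have := hRF.disjoint
      rw [Submodule.disjoint_def] at this
      exact this _ hy y.2
    have hx : T₀ (x : X) = 0 := by rw [hy0, add_zero] at h; exact h
    have hx0 : (x : X) = 0 := by
      have := hKE.disjoint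
      rw [Submodule.disjoint_def] at this
      exact this _ hx x.2
    have e1 : x = 0 := Subtype.ext hx0
    have e2 : y = 0 := Subtype.ext hy0
    rw [e1, e2]; rfl
  have hsurj : Function.Surjective (Φ T₀) := by
    intro w
    have hw : w ∈ T₀.range ⊔ F := by rw [hRF.sup_eq_top]; trivial
    obtain ⟨u, ⟨z, rfl⟩, v, hv, rfl⟩ := Submodule.mem_sup.1 hw
    have hz : z ∈ T₀.ker ⊔ E := by rw [hKE.sup_eq_top]; trivial
    obtain ⟨a, ha, x, hx, rfl⟩ := Submodule.mem_sup.1 hz
    refine ⟨(⟨x, hx⟩, ⟨v, hv⟩), ?_⟩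
    rw [hΦapp]
    have ha' : T₀ a = 0 := ha
    simp [ha']
  have hmem : Φ T₀ ∈ Set.range ((↑) : ((E × F) ≃L[ℝ] Y) → (E × F →L[ℝ] Y)) :=
    ⟨ContinuousLinearEquiv.ofBijective (Φ T₀) (LinearMap.ker_eq_bot.2 hinj)
      (LinearMap.range_eq_top.2 hsurj), by ext <;> simp⟩
  have hev : ∀ᶠ T : X →L[ℝ] Y in 𝓝 T₀,
      Φ T ∈ Set.range ((↑) : ((E × F) ≃L[ℝ] Y) → (E × F →L[ℝ] Y)) :=
    hΦc.continuousAt.eventually (ContinuousLinearEquiv.isOpen.mem_nhds hmem)
  filter_upwards [hev] with T hT
  obtain ⟨e, he⟩ := hT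
  have hbij : Function.Bijective
      ((((T : X →ₗ[ℝ] Y).comp E.subtype).coprod F.subtype : E × F →ₗ[ℝ] Y)) := by
    have h1 : ((((T : X →ₗ[ℝ] Y).comp E.subtype).coprod F.subtype : E × F →ₗ[ℝ] Y) : E × F → Y)
        = e := by
      funext p
      obtain ⟨x, y⟩ := p
      have : (e : E × F →L[ℝ] Y) (x, y) = Φ T (x, y) := by rw [he]
      rw [hΦapp] at this
      simpa using this.symm
    rw [h1]
    exact e.bijective
  exact index_alg (T : X →ₗ[ℝ] Y) T₀.ker E F hKE hbij

/-- **Abstract index lemma.**  The index is constant along a norm-continuous path. -/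
theorem index_const (T : ℝ → X →L[ℝ] Y) (hT : ContinuousOn T (Icc 0 1))
    (hcl : ∀ t ∈ Icc (0 : ℝ) 1, IsClosed ((T t).range : Set Y))
    (hker : ∀ t ∈ Icc (0 : ℝ) 1, FiniteDimensional ℝ (T t).ker)
    (hcok : ∀ t ∈ Icc (0 : ℝ) 1, FiniteDimensional ℝ ((T t).range)ᗮ) :
    (Module.finrank ℝ (T 0).ker : ℤ) - Module.finrank ℝ ((T 0).range)ᗮ
      = (Module.finrank ℝ (T 1).ker : ℤ) - Module.finrank ℝ ((T 1).range)ᗮ := by
  set f : ℝ → ℤ := fun t => (Module.finrank ℝ (T t).ker : ℤ) - Module.finrank ℝ ((T t).range)ᗮ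
    with hf
  have hfc : ContinuousOn f (Icc 0 1) := by
    intro t ht
    have h1 : ∀ᶠ s in 𝓝[Icc 0 1] t, f s = f t := by
      have h2 := (hT t ht).eventually (index_local (T t) (hcl t ht) (hker t ht) (hcok t ht))
      filter_upwards [h2, self_mem_nhdsWithin] with s hs hs1
      obtain ⟨-, -, h3⟩ := hs
      have h4 := finrank_orthogonal_eq_quot (T s).range (hcl s hs1)
      simp only [hf]
      rw [h4]
      have h5 : ((Module.finrank ℝ (T s).ker + Module.finrank ℝ ((T t).range)ᗮ : ℕ) : ℤ)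
        = ((Module.finrank ℝ (T t).ker + Module.finrank ℝ (Y ⧸ (T s).range) : ℕ) : ℤ) := by
        exact_mod_cast h3
      push_cast at h5
      linarith
    exact (tendsto_const_nhds.congr' (h1.mono fun s hs => hs.symm))
  have h0 : (0 : ℝ) ∈ Icc (0 : ℝ) 1 := ⟨le_refl _, zero_le_one⟩
  have h1 : (1 : ℝ) ∈ Icc (0 : ℝ) 1 := ⟨zero_le_one, le_refl _⟩
  exact isPreconnected_Icc.constant hfc h0 h1

end Index

section Compact

variable {X Y Z : Type*} [NormedAddCommGroup X] [InnerProductSpace ℝ X] [CompleteSpace X]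
  [NormedAddCommGroup Y] [InnerProductSpace ℝ Y]
  [NormedAddCommGroup Z] [NormedSpace ℝ Z]

/-- From a compact estimate: a bounded sequence with `T x n` convergent has a convergent
subsequence. -/
theorem subseq_of_estimate (T : X →L[ℝ] Y) (K : X →L[ℝ] Z) (hK : IsCompactOperator K) (C : ℝ)
    (hest : ∀ x, ‖x‖ ≤ C * (‖T x‖ + ‖K x‖)) (x : ℕ → X) (M : ℝ) (hx : ∀ n, ‖x n‖ ≤ M)
    (y : Y) (hy : Tendsto (fun n => T (x n)) atTop (𝓝 y)) :
    ∃ (z : X) (φ : ℕ → ℕ), StrictMono φ ∧ Tendsto (x ∘ φ) atTop (𝓝 z) := by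
  obtain ⟨A, hA, hAK⟩ := hK.image_closedBall_subset_compact M
  obtain ⟨w, -, φ, hφ, hw⟩ := hA.tendsto_subseq (x := fun n => K (x n))
    (fun n => hAK ⟨x n, by simpa using hx n, rfl⟩)
  have hc : CauchySeq (x ∘ φ) := by
    have h1 : CauchySeq (fun n => T (x (φ n))) := (hy.comp hφ.tendsto_atTop).cauchySeq
    have h2 : CauchySeq (fun n => K (x (φ n))) := hw.cauchySeq
    rw [Metric.cauchySeq_iff] at h1 h2 ⊢
    intro ε hε
    have hC : 0 < |C| + 1 := by positivity
    obtain ⟨N1, hN1⟩ := h1 (ε / (2 * (|C| + 1))) (by positivity)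
    obtain ⟨N2, hN2⟩ := h2 (ε / (2 * (|C| + 1))) (by positivity)
    refine ⟨max N1 N2, fun m hm n hn => ?_⟩
    have e1 := hN1 m (le_trans (le_max_left _ _) hm) n (le_trans (le_max_left _ _) hn)
    have e2 := hN2 m (le_trans (le_max_right _ _) hm) n (le_trans (le_max_right _ _) hn)
    rw [dist_eq_norm, ← map_sub] at e1 e2
    rw [dist_eq_norm]
    calc ‖(x ∘ φ) m - (x ∘ φ) n‖
        ≤ C * (‖T (x (φ m) - x (φ n))‖ + ‖K (x (φ m) - x (φ n))‖) := hest _
      _ ≤ (|C| + 1) * (‖T (x (φ m) - x (φ n))‖ + ‖K (x (φ m) - x (φ n))‖) := by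
          apply mul_le_mul_of_nonneg_right _ (by positivity)
          linarith [le_abs_self C]
      _ < (|C| + 1) * (ε / (2 * (|C| + 1)) + ε / (2 * (|C| + 1))) := by
          apply mul_lt_mul_of_pos_left _ hC
          linarith
      _ = ε := by field_simp; ring
  obtain ⟨z, hz⟩ := cauchySeq_tendsto_of_complete hc
  exact ⟨z, φ, hφ, hz⟩

/-- A compact estimate gives a finite-dimensional kernel. -/
theorem finiteDimensional_ker_of_estimate (T : X →L[ℝ] Y) (K : X →L[ℝ] Z)
    (hK : IsCompactOperator K) (C : ℝ) (hest : ∀ x, ‖x‖ ≤ C * (‖T x‖ + ‖K x‖)) :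
    FiniteDimensional ℝ T.ker := by
  apply FiniteDimensional.of_isCompact_closedBall₀ ℝ (r := 1) zero_lt_one
  rw [isCompact_iff_isSeqCompact]
  intro x hx
  have hb : ∀ n, ‖((x n : T.ker) : X)‖ ≤ 1 := fun n => by simpa using hx n
  have hT0 : Tendsto (fun n => T ((x n : T.ker) : X)) atTop (𝓝 0) := by
    have : (fun n => T ((x n : T.ker) : X)) = fun _ => (0 : Y) := by
      funext n
      exact (x n).2
    rw [this]
    exact tendsto_const_nhds
  obtain ⟨z, φ, hφ, hz⟩ := subseq_of_estimate T K hK C hest (fun n => (x n : X)) 1 hb 0 hT0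
  have hzk : z ∈ T.ker := by
    apply T.isClosed_ker.mem_of_tendsto hz
    exact Eventually.of_forall fun n => (x (φ n)).2
  refine ⟨⟨z, hzk⟩, ?_, φ, hφ, ?_⟩
  · have : ‖z‖ ≤ 1 := le_of_tendsto hz.norm (Eventually.of_forall fun n => hb _)
    simpa using this
  · rw [tendsto_subtype_rng]
    exact hz

/-- A compact estimate gives a bound from below on the orthogonal complement of the kernel. -/
theorem bound_below_of_estimate (T : X →L[ℝ] Y) (K : X →L[ℝ] Z)
    (hK : IsCompactOperator K) (C : ℝ) (hest : ∀ x, ‖x‖ ≤ C * (‖T x‖ + ‖K x‖)) :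
    ∃ c : ℝ, 0 < c ∧ ∀ x ∈ (T.ker)ᗮ, ‖x‖ ≤ c * ‖T x‖ := by
  by_contra hcon
  push Not at hcon
  have hch : ∀ n : ℕ, ∃ x ∈ (T.ker)ᗮ, ‖x‖ = 1 ∧ ‖T x‖ < 1 / ((n : ℝ) + 1) := by
    intro n
    obtain ⟨x, hx, hlt⟩ := hcon ((n : ℝ) + 1) (by positivity)
    have hx0 : 0 < ‖x‖ := lt_of_le_of_lt (by positivity) hlt
    refine ⟨‖x‖⁻¹ • x, Submodule.smul_mem _ _ hx, ?_, ?_⟩
    · rw [norm_smul, norm_inv, norm_norm, inv_mul_cancel₀ hx0.ne']
    · rw [map_smul, norm_smul, norm_inv, norm_norm, lt_div_iff₀ (by positivity)]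
      rw [mul_assoc, inv_mul_lt_iff₀ hx0, mul_one]
      linarith [mul_comm ‖T x‖ ((n : ℝ) + 1)]
  choose x hx hx1 hxT using hch
  have hT0 : Tendsto (fun n => T (x n)) atTop (𝓝 0) := by
    apply squeeze_zero_norm (fun n => (hxT n).le)
    exact tendsto_one_div_add_atTop_nhds_zero_nat
  obtain ⟨z, φ, hφ, hz⟩ := subseq_of_estimate T K hK C hest x 1 (fun n => (hx1 n).le) 0 hT0
  have hz1 : ‖z‖ = 1 := by
    have h1 : Tendsto (fun n => ‖(x ∘ φ) n‖) atTop (𝓝 ‖z‖) := hz.norm
    have h2 : (fun n => ‖(x ∘ φ) n‖) = fun _ => (1 : ℝ) := by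
      funext n; exact hx1 _
    rw [h2] at h1
    exact tendsto_nhds_unique h1 tendsto_const_nhds |>.trans rfl
  have hzT : T z = 0 := by
    have h1 : Tendsto (fun n => T ((x ∘ φ) n)) atTop (𝓝 (T z)) :=
      (T.continuous.tendsto z).comp hz
    exact tendsto_nhds_unique h1 (hT0.comp hφ.tendsto_atTop)
  have hzo : z ∈ (T.ker)ᗮ := by
    apply (Submodule.isClosed_orthogonal _).mem_of_tendsto hz
    exact Eventually.of_forall fun n => hx _
  have hzk : z ∈ T.ker := hzT
  have h0 : inner ℝ z z = 0 := (Submodule.mem_orthogonal _ _).1 hzo z hzk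
  rw [inner_self_eq_zero] at h0
  rw [h0, norm_zero] at hz1
  exact zero_ne_one hz1

/-- A compact estimate gives closed range. -/
theorem isClosed_range_of_estimate (T : X →L[ℝ] Y) (K : X →L[ℝ] Z)
    (hK : IsCompactOperator K) (C : ℝ) (hest : ∀ x, ‖x‖ ≤ C * (‖T x‖ + ‖K x‖)) :
    IsClosed (T.range : Set Y) := by
  obtain ⟨c, hc, hb⟩ := bound_below_of_estimate T K hK C hest
  have : CompleteSpace T.ker := T.isClosed_ker.completeSpace_coe
  have hKE : IsCompl T.ker (T.ker)ᗮ := Submodule.isCompl_orthogonal _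
  set S : (T.ker)ᗮ →L[ℝ] Y := T.comp (T.ker)ᗮ.subtypeL with hS
  have hanti : AntilipschitzWith ⟨c, hc.le⟩ S := by
    apply AddMonoidHomClass.antilipschitz_of_bound
    intro x
    exact hb x x.2
  have hcl : IsClosed (Set.range S) :=
    hanti.isClosed_range S.uniformContinuous
  have heq : (T.range : Set Y) = Set.range S := by
    ext y
    constructor
    · rintro ⟨z, rfl⟩
      have hz : z ∈ T.ker ⊔ (T.ker)ᗮ := by rw [hKE.sup_eq_top]; trivial
      obtain ⟨a, ha, x, hx, rfl⟩ := Submodule.mem_sup.1 hz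
      refine ⟨⟨x, hx⟩, ?_⟩
      have ha' : T a = 0 := ha
      simp [hS, ha']
    · rintro ⟨x, rfl⟩
      exact ⟨x, rfl⟩
  rw [heq]
  exact hcl

end Compact

section Graded

variable {X Y : Type*} [NormedAddCommGroup X] [InnerProductSpace ℝ X] [CompleteSpace X]
  [NormedAddCommGroup Y] [InnerProductSpace ℝ Y] [CompleteSpace Y]

/-- **Abstract index lemma**, general parameter space. -/
theorem index_const' {P : Type*} [TopologicalSpace P] [PreconnectedSpace P]
    (T : P → X →L[ℝ] Y) (hT : Continuous T)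
    (hcl : ∀ t, IsClosed ((T t).range : Set Y))
    (hker : ∀ t, FiniteDimensional ℝ (T t).ker)
    (hcok : ∀ t, FiniteDimensional ℝ ((T t).range)ᗮ) (p q : P) :
    (Module.finrank ℝ (T p).ker : ℤ) - Module.finrank ℝ ((T p).range)ᗮ
      = (Module.finrank ℝ (T q).ker : ℤ) - Module.finrank ℝ ((T q).range)ᗮ := by
  set f : P → ℤ := fun t => (Module.finrank ℝ (T t).ker : ℤ) - Module.finrank ℝ ((T t).range)ᗮ
    with hf
  have hfc : Continuous f := by
    rw [continuous_iff_continuousAt]
    intro t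
    have h1 : ∀ᶠ s in 𝓝 t, f s = f t := by
      have h2 := (hT.tendsto t).eventually (index_local (T t) (hcl t) (hker t) (hcok t))
      filter_upwards [h2] with s hs
      obtain ⟨-, -, h3⟩ := hs
      have h4 := finrank_orthogonal_eq_quot (T s).range (hcl s)
      simp only [hf]
      rw [h4]
      have h5 : ((Module.finrank ℝ (T s).ker + Module.finrank ℝ ((T t).range)ᗮ : ℕ) : ℤ)
        = ((Module.finrank ℝ (T t).ker + Module.finrank ℝ (Y ⧸ (T s).range) : ℕ) : ℤ) := by
        exact_mod_cast h3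
      push_cast at h5
      linarith
    exact (tendsto_const_nhds.congr' (h1.mono fun s hs => hs.symm))
  exact isPreconnected_univ.constant hfc.continuousOn (mem_univ p) (mem_univ q)

/-- Even part of the kernel. -/
def kerP (T : X →L[ℝ] Y) (e : X →L[ℝ] X) : Submodule ℝ X :=
  T.ker ⊓ (e - ContinuousLinearMap.id ℝ X).ker

/-- Odd part of the kernel. -/
def kerM (T : X →L[ℝ] Y) (e : X →L[ℝ] X) : Submodule ℝ X :=
  T.ker ⊓ (e + ContinuousLinearMap.id ℝ X).ker

omit [CompleteSpace X] [CompleteSpace Y] in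
theorem mem_kerP (T : X →L[ℝ] Y) (e : X →L[ℝ] X) (x : X) :
    x ∈ kerP T e ↔ T x = 0 ∧ e x = x := by
  unfold kerP
  rw [Submodule.mem_inf]
  constructor
  · rintro ⟨h1, h2⟩
    refine ⟨h1, ?_⟩
    have : e x - x = 0 := by simpa using h2
    exact sub_eq_zero.1 this
  · rintro ⟨h1, h2⟩
    refine ⟨h1, ?_⟩
    simp [h2]

omit [CompleteSpace X] [CompleteSpace Y] in
theorem mem_kerM (T : X →L[ℝ] Y) (e : X →L[ℝ] X) (x : X) :
    x ∈ kerM T e ↔ T x = 0 ∧ e x = -x := by
  unfold kerM
  rw [Submodule.mem_inf]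
  constructor
  · rintro ⟨h1, h2⟩
    refine ⟨h1, ?_⟩
    have : e x + x = 0 := by simpa using h2
    exact eq_neg_of_add_eq_zero_left this
  · rintro ⟨h1, h2⟩
    refine ⟨h1, ?_⟩
    simp [h2]

/-- **Graded index lemma.** -/
theorem index_graded {P : Type*} [TopologicalSpace P] [PreconnectedSpace P]
    (T : P → X →L[ℝ] Y) (hT : Continuous T) (eX : X →L[ℝ] X) (eY : Y →L[ℝ] Y)
    (heX : ∀ x, eX (eX x) = x) (heY : ∀ y, eY (eY y) = y) (hiso : ∀ y, ‖eY y‖ = ‖y‖)
    (hTe : ∀ p x, T p (eX x) = - eY (T p x))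
    (J : X →L[ℝ] Y) (hJ : IsCompactOperator J) (hJi : Function.Injective J)
    (hJe : ∀ x, J (eX x) = eY (J x))
    (hest : ∀ p, ∃ C : ℝ, ∀ x, ‖x‖ ≤ C * (‖T p x‖ + ‖J x‖))
    (G : P → Y →L[ℝ] Y) (hG : ∀ p, Function.Bijective (G p))
    (hGe : ∀ p y, eY (G p y) = G p (eY y))
    (hadj : ∀ p y, (∀ x, inner ℝ (G p y) (T p x) = 0) ↔ ∃ x, T p x = 0 ∧ J x = y)
    (p q : P) :
    (Module.finrank ℝ (kerP (T p) eX) : ℤ) - Module.finrank ℝ (kerM (T p) eX)
      = (Module.finrank ℝ (kerP (T q) eX) : ℤ) - Module.finrank ℝ (kerM (T q) eX) := by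
  classical
  -- polarized isometry
  have hinner : ∀ y z, inner ℝ (eY y) (eY z) = inner ℝ y z := by
    intro y z
    rw [real_inner_eq_norm_add_mul_self_sub_norm_mul_self_sub_norm_mul_self_div_two,
      real_inner_eq_norm_add_mul_self_sub_norm_mul_self_sub_norm_mul_self_div_two y z,
      ← map_add, hiso, hiso, hiso]
  have horth : ∀ y z, eY y = -y → eY z = z → inner ℝ y z = 0 := by
    intro y z hy hz
    have h := hinner y z
    rw [hy, hz, inner_neg_left] at h
    linarith
  set Xp : Submodule ℝ X := (eX - ContinuousLinearMap.id ℝ X).ker with hXp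
  set Ym : Submodule ℝ Y := (eY + ContinuousLinearMap.id ℝ Y).ker with hYm
  have memXp : ∀ x, x ∈ Xp ↔ eX x = x := by
    intro x
    rw [hXp]
    constructor
    · intro h
      have : eX x - x = 0 := by simpa using h
      exact sub_eq_zero.1 this
    · intro h
      simp [h]
  have memYm : ∀ y, y ∈ Ym ↔ eY y = -y := by
    intro y
    rw [hYm]
    constructor
    · intro h
      have : eY y + y = 0 := by simpa using h
      exact eq_neg_of_add_eq_zero_left this
    · intro h
      simp [h]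
  have : CompleteSpace Xp :=
    ((eX - ContinuousLinearMap.id ℝ X).isClosed_ker).completeSpace_coe
  have : CompleteSpace Ym :=
    ((eY + ContinuousLinearMap.id ℝ Y).isClosed_ker).completeSpace_coe
  have hTm : ∀ p (x : Xp), T p x ∈ Ym := by
    intro p x
    rw [memYm]
    have h1 := hTe p x
    rw [(memXp x).1 x.2] at h1
    exact (neg_eq_iff_eq_neg.2 h1).symm
  -- the projection on Ym as a continuous linear map
  set π : Y →L[ℝ] Ym := (((1 / 2 : ℝ) • (ContinuousLinearMap.id ℝ Y - eY)).codRestrict Ym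
    (by
      intro y
      rw [memYm]
      have h0 : ((1 / 2 : ℝ) • (ContinuousLinearMap.id ℝ Y - eY)) y
        = (1 / 2 : ℝ) • (y - eY y) := rfl
      rw [h0, map_smul, map_sub, heY, ← smul_neg, neg_sub])) with hπ
  have hπm : ∀ y ∈ Ym, ((π y : Ym) : Y) = y := by
    intro y hy
    have h1 := (memYm y).1 hy
    have h0 : ((π y : Ym) : Y) = (1 / 2 : ℝ) • (y - eY y) := rfl
    rw [h0, h1, sub_neg_eq_add, ← two_smul ℝ y, smul_smul]
    norm_num
  set S : P → Xp →L[ℝ] Ym := fun p => π.comp ((T p).comp Xp.subtypeL) with hS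
  have hSapp : ∀ p (x : Xp), ((S p x : Ym) : Y) = T p x := by
    intro p x
    exact hπm _ (hTm p x)
  have hSc : Continuous S :=
    continuous_const.clm_comp (hT.clm_comp continuous_const)
  have hestS : ∀ p, ∃ C : ℝ, ∀ x : Xp, ‖x‖ ≤ C * (‖S p x‖ + ‖(J.comp Xp.subtypeL) x‖) := by
    intro p
    obtain ⟨C, hC⟩ := hest p
    refine ⟨C, fun x => ?_⟩
    have h1 := hC x
    have h2 : ‖S p x‖ = ‖T p x‖ := by
      rw [← hSapp p x]; rfl
    rw [h2]
    exact h1
  have hJS : IsCompactOperator (J.comp Xp.subtypeL) := hJ.comp_clm Xp.subtypeL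
  have hcl : ∀ p, IsClosed ((S p).range : Set Ym) := by
    intro p
    obtain ⟨C, hC⟩ := hestS p
    exact isClosed_range_of_estimate (S p) (J.comp Xp.subtypeL) hJS C hC
  have hker : ∀ p, FiniteDimensional ℝ (S p).ker := by
    intro p
    obtain ⟨C, hC⟩ := hestS p
    exact finiteDimensional_ker_of_estimate (S p) (J.comp Xp.subtypeL) hJS C hC
  have hkerT : ∀ p, FiniteDimensional ℝ (T p).ker := by
    intro p
    obtain ⟨C, hC⟩ := hest p
    exact finiteDimensional_ker_of_estimate (T p) J hJ C hC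
  -- identification of the kernel
  have hk1 : ∀ p, Module.finrank ℝ (S p).ker = Module.finrank ℝ (kerP (T p) eX) := by
    intro p
    have hmap : (S p).ker.map Xp.subtype = kerP (T p) eX := by
      ext x
      rw [mem_kerP]
      constructor
      · rintro ⟨z, hz, rfl⟩
        have hz' : S p z = 0 := hz
        refine ⟨?_, (memXp _).1 z.2⟩
        have := hSapp p z
        rw [hz'] at this
        exact this.symm
      · rintro ⟨h1, h2⟩
        refine ⟨⟨x, (memXp x).2 h2⟩, ?_, rfl⟩
        change S p ⟨x, (memXp x).2 h2⟩ = 0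
        apply Subtype.ext
        rw [hSapp]
        exact h1
    rw [← hmap]
    exact (Submodule.equivMapOfInjective Xp.subtype Xp.injective_subtype (S p).ker).finrank_eq
  -- identification of the cokernel
  have hk2 : ∀ p, ∃ L : kerM (T p) eX →ₗ[ℝ] Ym, Function.Injective L ∧
      LinearMap.range L = ((S p).range)ᗮ := by
    intro p
    have hmem : ∀ x : kerM (T p) eX, (G p (J x)) ∈ Ym := by
      intro x
      rw [memYm, hGe, ← hJe, ((mem_kerM _ _ _).1 x.2).2, map_neg, map_neg]
    set L0 : kerM (T p) eX →ₗ[ℝ] Y :=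
      ((G p : Y →ₗ[ℝ] Y).comp (J : X →ₗ[ℝ] Y)).comp (kerM (T p) eX).subtype with hL0
    set L : kerM (T p) eX →ₗ[ℝ] Ym := L0.codRestrict Ym hmem with hL
    have hLapp : ∀ x, ((L x : Ym) : Y) = G p (J x) := fun x => rfl
    refine ⟨L, ?_, ?_⟩
    · intro a b hab
      have h1 : G p (J a) = G p (J b) := by
        rw [← hLapp, ← hLapp, hab]
      exact Subtype.ext (hJi ((hG p).1 h1))
    · ext z
      rw [Submodule.mem_orthogonal']
      constructor
      · rintro ⟨x, rfl⟩
        rintro _ ⟨w, rfl⟩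
        have hx := (mem_kerM _ _ _).1 x.2
        have h1 := (hadj p (J x)).2 ⟨x, hx.1, rfl⟩ w
        have h2 : inner ℝ ((L x : Ym) : Y) ((S p w : Ym) : Y) = 0 := by
          rw [hLapp, hSapp]; exact h1
        exact h2
      · intro hz
        obtain ⟨y, hy⟩ := (hG p).2 (z : Y)
        have hzm := (memYm _).1 z.2
        have hall : ∀ x, inner ℝ (G p y) (T p x) = 0 := by
          intro x
          rw [hy]
          -- split x
          have hsplit : x = (1 / 2 : ℝ) • (x + eX x) + (1 / 2 : ℝ) • (x - eX x) := by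
            rw [← smul_add, add_add_sub_cancel, ← two_smul ℝ x, smul_smul]
            norm_num
          rw [hsplit, map_add, inner_add_right, map_smul, map_smul, inner_smul_right,
            inner_smul_right]
          have e1 : inner ℝ (z : Y) (T p (x + eX x)) = 0 := by
            have hxp : x + eX x ∈ Xp := by
              rw [memXp, map_add, heX, add_comm]
            have h3 := hz (S p ⟨x + eX x, hxp⟩) ⟨_, rfl⟩
            have h4 : inner ℝ (z : Y) ((S p ⟨x + eX x, hxp⟩ : Ym) : Y) = 0 := h3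
            rw [hSapp] at h4
            exact h4
          have e2 : inner ℝ (z : Y) (T p (x - eX x)) = 0 := by
            apply horth _ _ hzm
            have h5 := hTe p (x - eX x)
            have h6 : eX (x - eX x) = -(x - eX x) := by
              rw [map_sub, heX]; abel
            rw [h6, map_neg] at h5
            exact (neg_injective h5).symm
          rw [e1, e2, mul_zero, add_zero]
        obtain ⟨x, hx, hJx⟩ := (hadj p y).1 hall
        have hym : eY y = -y := by
          apply (hG p).1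
          rw [← hGe, hy, hzm, map_neg, hy]
        have hxm : eX x = -x := by
          apply hJi
          rw [hJe, hJx, hym, map_neg, hJx]
        refine ⟨⟨x, (mem_kerM _ _ _).2 ⟨hx, hxm⟩⟩, ?_⟩
        apply Subtype.ext
        rw [hLapp]
        change G p (J x) = z
        rw [hJx, hy]
  have hkerMfin : ∀ p, FiniteDimensional ℝ (kerM (T p) eX) := by
    intro p
    have := hkerT p
    exact Submodule.finiteDimensional_of_le (show kerM (T p) eX ≤ (T p).ker from inf_le_left)
  have hcok : ∀ p, FiniteDimensional ℝ ((S p).range)ᗮ := by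
    intro p
    obtain ⟨L, -, hL⟩ := hk2 p
    rw [← hL]
    have := hkerMfin p
    infer_instance
  have hk3 : ∀ p, Module.finrank ℝ ((S p).range)ᗮ = Module.finrank ℝ (kerM (T p) eX) := by
    intro p
    obtain ⟨L, hLi, hL⟩ := hk2 p
    rw [← hL]
    exact LinearMap.finrank_range_of_inj hLi
  have h := index_const' S hSc hcl hker hcok p q
  rw [hk1, hk1, hk3, hk3] at h
  exact h

end Graded

end Pool.Agent.DC
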