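import Pool.Agent.DC.C.Stmt

/-!
# Project DC, row C0 (helper89): basic facts about the weighted Sobolev space
-/

set_option autoImplicit false

open MeasureTheory Set
open scoped ContDiff BigOperators Matrix

namespace Pool.Agent.DC

namespace Je

variable {n : ℕ}

/-! ### Test functions -/

theorem tst_add {u v : E n → Sp n} (hu : Tst u) (hv : Tst v) : Tst (fun x => u x + v x) :=
  ⟨hu.smooth.add hv.smooth, hu.supp.add hv.supp⟩

theorem tst_smul {u : E n → Sp n} (c : ℝ) (hu : Tst u) : Tst (fun x => c • u x) :=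
  ⟨hu.smooth.const_smul c, hu.supp.smul_left (f := fun _ => c)⟩

theorem tst_zero : Tst (fun _ => 0 : E n → Sp n) := ⟨contDiff_const, HasCompactSupport.zero⟩

theorem tst_diff {u : E n → Sp n} (hu : Tst u) : Differentiable ℝ u :=
  hu.smooth.differentiable (by simp)

theorem tst_pd {u : E n → Sp n} (i : Fin n) (hu : Tst u) : Tst (pd i u) := by
  refine ⟨?_, ?_⟩
  · exact (hu.smooth.fderiv_right (m := ∞) (by simp)).clm_apply contDiff_const
  · exact hu.supp.fderiv_apply (𝕜 := ℝ) (ev i)

theorem smooth_coord (i : Fin n) : ContDiff ℝ ∞ (fun x : E n => x i) :=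
  (EuclideanSpace.proj (𝕜 := ℝ) i).contDiff

theorem tst_mul {u : E n → Sp n} (i : Fin n) (hu : Tst u) : Tst (fun x => x i • u x) :=
  ⟨(smooth_coord i).smul hu.smooth, hu.supp.smul_left (f := fun x : E n => x i)⟩

theorem tst_jf {u : E n → Sp n} (hu : Tst u) (o : Option (Fin n ⊕ Fin n)) : Tst (jf u o) := by
  rcases o with _ | (i | i)
  · exact hu
  · exact tst_pd i hu
  · exact tst_mul i hu

theorem tst_memLp {u : E n → Sp n} (hu : Tst u) : MemLp u 2 (volume : Measure (E n)) :=
  hu.smooth.continuous.memLp_of_hasCompactSupport hu.supp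

theorem jf_add {u v : E n → Sp n} (hu : Tst u) (hv : Tst v) (o : Option (Fin n ⊕ Fin n)) :
    jf (fun x => u x + v x) o = fun x => jf u o x + jf v o x := by
  funext x
  rcases o with _ | (i | i)
  · rfl
  · simp only [jf, pd]
    rw [fderiv_fun_add (tst_diff hu x) (tst_diff hv x)]
    rfl
  · simp only [jf, smul_add]

theorem jf_smul {u : E n → Sp n} (c : ℝ) (hu : Tst u) (o : Option (Fin n ⊕ Fin n)) :
    jf (fun x => c • u x) o = fun x => c • jf u o x := by
  funext x
  rcases o with _ | (i | i)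
  · rfl
  · simp only [jf, pd]
    rw [fderiv_fun_const_smul (tst_diff hu x)]
    rfl
  · simp only [jf]
    rw [smul_comm]

theorem jf_zero (o : Option (Fin n ⊕ Fin n)) : jf (fun _ => 0 : E n → Sp n) o = fun _ => 0 := by
  funext x
  rcases o with _ | (i | i)
  · rfl
  · simp [jf, pd]
  · simp [jf]

/-! ### Jets of test functions -/

/-- the jets of test functions are a submodule -/
def SS (n : ℕ) : Submodule ℝ (XX n) where
  carrier := {X | ∃ u : E n → Sp n, Tst u ∧ IsJet u X}
  add_mem' := by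
    rintro X Y ⟨u, hu, hX⟩ ⟨v, hv, hY⟩
    refine ⟨fun x => u x + v x, tst_add hu hv, fun o => ?_⟩
    rw [jf_add hu hv o]
    have h1 : (X + Y) o = X o + Y o := rfl
    rw [h1]
    filter_upwards [Lp.coeFn_add (X o) (Y o), hX o, hY o] with x h2 h3 h4
    rw [h2, Pi.add_apply, h3, h4]
  zero_mem' := by
    refine ⟨fun _ => 0, tst_zero, fun o => ?_⟩
    rw [jf_zero o]
    have h1 : (0 : XX n) o = 0 := rfl
    rw [h1]
    exact Lp.coeFn_zero (Sp n) 2 (volume : Measure (E n))
  smul_mem' := by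
    rintro c X ⟨u, hu, hX⟩
    refine ⟨fun x => c • u x, tst_smul c hu, fun o => ?_⟩
    rw [jf_smul c hu o]
    have h1 : (c • X) o = c • X o := rfl
    rw [h1]
    filter_upwards [Lp.coeFn_smul c (X o), hX o] with x h2 h3
    rw [h2, Pi.smul_apply, h3]

theorem HH_eq (n : ℕ) : HH n = (SS n).topologicalClosure := by
  have h1 : Submodule.span ℝ {X : XX n | ∃ u : E n → Sp n, Tst u ∧ IsJet u X} = SS n :=
    Submodule.span_eq (SS n)
  unfold HH
  rw [h1]

theorem SS_le {X : XX n} (hX : X ∈ SS n) : X ∈ HH n := by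
  rw [HH_eq]
  exact (SS n).le_topologicalClosure hX

theorem exists_jet {u : E n → Sp n} (hu : Tst u) : ∃ X : HH n, IsJet u X.1 := by
  let X : XX n := WithLp.toLp 2 fun o => (tst_memLp (tst_jf hu o)).toLp (jf u o)
  have hX : IsJet u X := fun o => (tst_memLp (tst_jf hu o)).coeFn_toLp
  exact ⟨⟨X, SS_le ⟨u, hu, hX⟩⟩, hX⟩

theorem jet_unique {u : E n → Sp n} {X Y : HH n} (hX : IsJet u X.1) (hY : IsJet u Y.1) :
    X = Y := by
  apply Subtype.ext
  apply PiLp.ext
  intro o
  exact Lp.ext ((hX o).trans (hY o).symm)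

theorem dense (P : HH n → Prop) (hP : IsClosed {X | P X})
    (h : ∀ (u : E n → Sp n) (X : HH n), Tst u → IsJet u X.1 → P X) (X : HH n) : P X := by
  have h1 : X.1 ∈ closure (SS n : Set (XX n)) := (HH_eq n).le X.2
  obtain ⟨s, hs, hlim⟩ := mem_closure_iff_seq_limit.1 h1
  have h3 : Filter.Tendsto (fun k => (⟨s k, SS_le (hs k)⟩ : HH n)) Filter.atTop (nhds X) :=
    tendsto_subtype_rng.2 hlim
  have h4 : ∀ k, (⟨s k, SS_le (hs k)⟩ : HH n) ∈ {X | P X} := by
    intro k
    obtain ⟨u, hu, hX⟩ := hs k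
    exact h u _ hu hX
  exact hP.mem_of_tendsto h3 (Filter.Eventually.of_forall h4)

theorem JJ_eq (X : HH n) : JJ n X = X.1 none := rfl

/-! ### Continuity of pairings -/

theorem cont_comp (o : Option (Fin n ⊕ Fin n)) : Continuous fun X : HH n => (X.1 o : L2 n) :=
  ((PiLp.proj 2 (fun _ : Option (Fin n ⊕ Fin n) => L2 n) o : XX n →L[ℝ] L2 n).continuous).comp
    continuous_subtype_val

theorem inner_toLp (A : L2 n) {w : E n → Sp n} (hw : MemLp w 2 (volume : Measure (E n))) :
    ∫ x, inner ℝ ((A : E n → Sp n) x) (w x) = inner ℝ A (hw.toLp w) := by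
  rw [L2.inner_def]
  refine integral_congr_ae ?_
  filter_upwards [hw.coeFn_toLp] with x hx
  rw [hx]

theorem cont_pair (o : Option (Fin n ⊕ Fin n)) {w : E n → Sp n} (hw : Tst w) :
    Continuous fun X : HH n => ∫ x, inner ℝ ((X.1 o : E n → Sp n) x) (w x) := by
  have h1 : (fun X : HH n => ∫ x, inner ℝ ((X.1 o : E n → Sp n) x) (w x)) =
      fun X : HH n => inner ℝ (X.1 o : L2 n) ((tst_memLp hw).toLp w) := by
    funext X
    exact inner_toLp _ _
  rw [h1]
  exact (cont_comp o).inner continuous_const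

theorem pair_jet {u : E n → Sp n} {X : HH n} (hX : IsJet u X.1) (o : Option (Fin n ⊕ Fin n))
    (w : E n → Sp n) : ∫ x, inner ℝ ((X.1 o : E n → Sp n) x) (w x) =
      ∫ x, inner ℝ (jf u o x) (w x) := by
  refine integral_congr_ae ?_
  filter_upwards [hX o] with x hx
  rw [hx]

/-! ### Integration by parts -/

theorem cont_pd {u : E n → Sp n} (i : Fin n) (hu : Tst u) : Continuous (pd i u) :=
  (tst_pd i hu).smooth.continuous

theorem ibp {u w : E n → Sp n} (i : Fin n) (hu : Tst u) (hw : Tst w) :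
    ∫ x, inner ℝ (pd i u x) (w x) = -∫ x, inner ℝ (u x) (pd i w x) := by
  have key : ∀ a b : E n → Sp n, Tst a → Tst b → Integrable fun x => innerSL ℝ (a x) (b x) := by
    intro a b ha hb
    refine Continuous.integrable_of_hasCompactSupport ?_ ?_
    · exact ha.smooth.continuous.inner hb.smooth.continuous
    · refine ha.supp.mono fun x hx => ?_
      rw [Function.mem_support] at hx ⊢
      intro h
      apply hx
      rw [h, map_zero]
      rfl
  have h1 := integral_bilinear_fderiv_right_eq_neg_left_of_integrable (μ := (volume : Measure (E n)))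
    (f := u) (g := w) (v := ev i) (B := innerSL ℝ) (key _ _ (tst_pd i hu) hw)
    (key _ _ hu (tst_pd i hw)) (key _ _ hu hw) (fun x _ => tst_diff hu x) (fun x _ => tst_diff hw x)
  have h2 : ∫ x, inner ℝ (u x) (pd i w x) = -∫ x, inner ℝ (pd i u x) (w x) := h1
  rw [h2, neg_neg]

theorem weak (X : HH n) (i : Fin n) (w : E n → Sp n) (hw : Tst w) :
    ∫ x, inner ℝ ((X.1 (some (Sum.inl i)) : E n → Sp n) x) (w x) =
      -∫ x, inner ℝ ((JJ n X : E n → Sp n) x) (pd i w x) := by
  refine dense (fun X => ∫ x, inner ℝ ((X.1 (some (Sum.inl i)) : E n → Sp n) x) (w x) =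
      -∫ x, inner ℝ ((JJ n X : E n → Sp n) x) (pd i w x)) ?_ ?_ X
  · exact isClosed_eq (cont_pair _ hw) (cont_pair none (tst_pd i hw)).neg
  · intro u X hu hX
    have h1 := pair_jet hX (some (Sum.inl i)) w
    have h2 := pair_jet hX none (pd i w)
    rw [h1]
    change _ = -∫ x, inner ℝ ((X.1 none : E n → Sp n) x) (pd i w x)
    rw [h2]
    exact ibp i hu hw

/-! ### Multiplication by the coordinates -/

theorem mul_pair (X : HH n) (i : Fin n) (w : E n → Sp n) (hw : Tst w) :
    ∫ x, inner ℝ ((X.1 (some (Sum.inr i)) : E n → Sp n) x) (w x) =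
      ∫ x, inner ℝ ((JJ n X : E n → Sp n) x) (x i • w x) := by
  refine dense (fun X => ∫ x, inner ℝ ((X.1 (some (Sum.inr i)) : E n → Sp n) x) (w x) =
      ∫ x, inner ℝ ((JJ n X : E n → Sp n) x) (x i • w x)) ?_ ?_ X
  · exact isClosed_eq (cont_pair _ hw) (cont_pair none (tst_mul i hw))
  · intro u X hu hX
    have h1 := pair_jet hX (some (Sum.inr i)) w
    have h2 := pair_jet hX none (fun x => x i • w x)
    rw [h1]
    change _ = ∫ x, inner ℝ ((X.1 none : E n → Sp n) x) (x i • w x)
    rw [h2]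
    refine integral_congr_ae (Filter.Eventually.of_forall fun x => ?_)
    change inner ℝ (x i • u x) (w x) = inner ℝ (u x) (x i • w x)
    rw [real_inner_smul_left, real_inner_smul_right]

theorem L2_loc (A : L2 n) : LocallyIntegrable (A : E n → Sp n) (volume : Measure (E n)) :=
  (Lp.memLp A).locallyIntegrable (by norm_num)

theorem mul_ae (X : HH n) (i : Fin n) : (X.1 (some (Sum.inr i)) : E n → Sp n) =ᵐ[volume]
    fun x => x i • (JJ n X : E n → Sp n) x := by
  have hA := L2_loc (X.1 (some (Sum.inr i)))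
  have hB : LocallyIntegrable (fun x => x i • (JJ n X : E n → Sp n) x)
      (volume : Measure (E n)) :=
    (L2_loc (JJ n X)).continuous_smul (smooth_coord i).continuous
  refine ae_eq_of_integral_contDiff_smul_eq hA hB fun g hg hg2 => ?_
  refine ext_inner_left ℝ fun c => ?_
  rw [← integral_inner (hA.integrable_smul_left_of_hasCompactSupport hg.continuous hg2),
    ← integral_inner (hB.integrable_smul_left_of_hasCompactSupport hg.continuous hg2)]
  have hw : Tst (fun x => g x • c : E n → Sp n) :=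
    ⟨hg.smul contDiff_const, hg2.smul_right (f' := fun _ => c)⟩
  have h1 := mul_pair X i _ hw
  have h2 : ∀ x, inner ℝ c (g x • (X.1 (some (Sum.inr i)) : E n → Sp n) x) =
      inner ℝ ((X.1 (some (Sum.inr i)) : E n → Sp n) x) (g x • c) := by
    intro x
    rw [real_inner_smul_right, real_inner_smul_right, real_inner_comm]
  have h3 : ∀ x : E n, inner ℝ c (g x • x i • (JJ n X : E n → Sp n) x) =
      inner ℝ ((JJ n X : E n → Sp n) x) (x i • g x • c) := by
    intro x
    rw [real_inner_smul_right, real_inner_smul_right, real_inner_smul_right,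
      real_inner_smul_right, real_inner_comm]
    ring
  simp only [h2, h3]
  exact h1

/-! ### The norm -/

theorem norm_L2 (A : L2 n) : ‖A‖ ^ 2 = ∫ x, ‖(A : E n → Sp n) x‖ ^ 2 := by
  rw [← real_inner_self_eq_norm_sq, L2.inner_def]
  simp only [real_inner_self_eq_norm_sq]

theorem norm_eq (X : HH n) : ‖X‖ ^ 2 = ∑ o, ∫ x, ‖(X.1 o : E n → Sp n) x‖ ^ 2 := by
  have h1 : ‖X‖ = ‖X.1‖ := rfl
  rw [h1, PiLp.norm_sq_eq_of_L2]
  exact Finset.sum_congr rfl fun o _ => norm_L2 _

end Je

theorem stJe : StJe := fun _ =>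
  ⟨fun _ hu => Je.exists_jet hu, fun _ _ _ hX hY => Je.jet_unique hX hY,
    fun P hP h X => Je.dense P hP h X, fun X i w hw => Je.weak X i w hw,
    fun X i => Je.mul_ae X i, fun X => Je.norm_eq X, fun X => Je.JJ_eq X⟩

end Pool.Agent.DC
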