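import Mathlib

/-!
Clifford algebra for the Lichnerowicz formula (project DC): commutators of quadratic elements
and the contraction of a curvature tensor with four Clifford generators.
-/

namespace Pool.Agent.DC.Lich

open Finset

variable {A : Type*} [Ring A] [Algebra ℝ A] {ι : Type*} [Fintype ι] [DecidableEq ι]

/-- The relations of Clifford generators with square -1. -/
def Rel (c : ι → A) : Prop :=
  ∀ a b, c a * c b = -(c b * c a) - (if a = b then (2 : ℝ) else 0) • (1 : A)

/-- The quadratic element of a coefficient matrix. -/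
noncomputable def qd (c : ι → A) (w : Matrix ι ι ℝ) : A :=
  (1 / 4 : ℝ) • ∑ b, ∑ d, w b d • (c b * c d)

theorem qd_add (c : ι → A) (w w' : Matrix ι ι ℝ) : qd c (w + w') = qd c w + qd c w' := by
  simp [qd, add_smul, Finset.sum_add_distrib]

theorem qd_neg (c : ι → A) (w : Matrix ι ι ℝ) : qd c (-w) = - qd c w := by
  simp [qd, neg_smul, Finset.sum_neg_distrib]

theorem qd_sub (c : ι → A) (w w' : Matrix ι ι ℝ) : qd c (w - w') = qd c w - qd c w' := by
  rw [sub_eq_add_neg, qd_add, qd_neg, sub_eq_add_neg]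

theorem qd_smul (c : ι → A) (t : ℝ) (w : Matrix ι ι ℝ) : qd c (t • w) = t • qd c w := by
  simp only [qd, Matrix.smul_apply, smul_eq_mul, mul_smul, Finset.smul_sum]
  refine Finset.sum_congr rfl fun b _ => Finset.sum_congr rfl fun d _ => ?_
  rw [smul_comm]

theorem comm3 {c : ι → A} (hc : Rel c) (a b d : ι) :
    c b * c d * c a - c a * (c b * c d)
      = (if a = b then (2 : ℝ) else 0) • c d - (if a = d then (2 : ℝ) else 0) • c b := by
  have h1 : c b * c d * c a = c b * (-(c a * c d) - (if d = a then (2 : ℝ) else 0) • (1 : A)) := by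
    rw [mul_assoc, hc d a]
  have h2 : c a * (c b * c d)
      = (-(c b * c a) - (if a = b then (2 : ℝ) else 0) • (1 : A)) * c d := by
    rw [← mul_assoc, hc a b]
  rw [h1, h2]
  have h3 : (if d = a then (2 : ℝ) else 0) = (if a = d then (2 : ℝ) else 0) := by
    by_cases h : a = d
    · subst h; simp
    · rw [if_neg h, if_neg (fun h' => h h'.symm)]
  rw [h3]
  simp only [mul_sub, sub_mul, mul_neg, neg_mul, mul_smul_comm, smul_mul_assoc, mul_one, one_mul,
    mul_assoc]
  abel

theorem qd_comm {c : ι → A} (hc : Rel c) (w : Matrix ι ι ℝ) (hw : ∀ b d, w d b = - w b d)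
    (a : ι) : qd c w * c a - c a * qd c w = ∑ d, w a d • c d := by
  have h1 : qd c w * c a - c a * qd c w
      = (1 / 4 : ℝ) • ∑ b, ∑ d, w b d • (c b * c d * c a - c a * (c b * c d)) := by
    simp only [qd, smul_mul_assoc, mul_smul_comm, Finset.sum_mul, Finset.mul_sum, smul_sub,
      Finset.sum_sub_distrib]
  rw [h1]
  simp only [comm3 hc, smul_sub, Finset.sum_sub_distrib]
  have h2 : ∑ b, ∑ d, w b d • ((if a = b then (2 : ℝ) else 0) • c d)
      = (2 : ℝ) • ∑ d, w a d • c d := by
    rw [Finset.sum_eq_single a]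
    · simp only [if_true, Finset.smul_sum]
      exact Finset.sum_congr rfl fun d _ => smul_comm _ _ _
    · intro b _ hb
      simp [Ne.symm hb]
    · intro h; exact absurd (Finset.mem_univ a) h
  have h3 : ∑ b, ∑ d, w b d • ((if a = d then (2 : ℝ) else 0) • c b)
      = -((2 : ℝ) • ∑ d, w a d • c d) := by
    have : ∀ b, ∑ d, w b d • ((if a = d then (2 : ℝ) else 0) • c b)
        = -((2 : ℝ) • (w a b • c b)) := by
      intro b
      rw [Finset.sum_eq_single a]
      · rw [if_pos rfl, hw a b, neg_smul, smul_comm]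
      · intro d _ hd
        simp [Ne.symm hd]
      · intro h; exact absurd (Finset.mem_univ a) h
    simp only [this, Finset.sum_neg_distrib, Finset.smul_sum]
  rw [h2, h3, smul_neg, sub_neg_eq_add, smul_smul, ← add_smul]
  norm_num

theorem qd_qd {c : ι → A} (hc : Rel c) (w w' : Matrix ι ι ℝ) (hw : ∀ b d, w d b = - w b d) :
    qd c w * qd c w' - qd c w' * qd c w = - qd c (w * w' - w' * w) := by
  have h1 : ∀ b d, qd c w * (c b * c d) - (c b * c d) * qd c w
      = ∑ e, w b e • (c e * c d) + ∑ e, w d e • (c b * c e) := by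
    intro b d
    have e1 : qd c w * (c b * c d) - (c b * c d) * qd c w
        = (qd c w * c b - c b * qd c w) * c d + c b * (qd c w * c d - c d * qd c w) := by
      simp only [mul_sub, sub_mul, mul_assoc]
      abel
    rw [e1, qd_comm hc w hw, qd_comm hc w hw]
    simp only [Finset.sum_mul, Finset.mul_sum, smul_mul_assoc, mul_smul_comm]
  have h2 : qd c w * qd c w' - qd c w' * qd c w
      = (1 / 4 : ℝ) • ∑ b, ∑ d, w' b d • (qd c w * (c b * c d) - (c b * c d) * qd c w) := by
    conv_lhs => rw [show qd c w' = (1 / 4 : ℝ) • ∑ b, ∑ d, w' b d • (c b * c d) from rfl]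
    simp only [smul_mul_assoc, mul_smul_comm, Finset.sum_mul, Finset.mul_sum, smul_sub,
      Finset.sum_sub_distrib]
  have h3 : ∑ b, ∑ d, ∑ e, (w' b d * w b e) • (c e * c d)
      = - ∑ b, ∑ d, (w * w') b d • (c b * c d) := by
    have e1 : ∀ b d, (w * w') b d • (c b * c d)
        = - ∑ e, (w' e d * w e b) • (c b * c d) := by
      intro b d
      rw [Matrix.mul_apply, Finset.sum_smul, ← Finset.sum_neg_distrib]
      refine Finset.sum_congr rfl fun e _ => ?_
      rw [hw e b, ← neg_smul]
      congr 1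
      ring
    simp only [e1, Finset.sum_neg_distrib, neg_neg]
    rw [Finset.sum_comm]
    conv_lhs => enter [2, d]; rw [Finset.sum_comm]
    rw [Finset.sum_comm]
  have h4 : ∑ b, ∑ d, ∑ e, (w' b d * w d e) • (c b * c e)
      = ∑ b, ∑ d, (w' * w) b d • (c b * c d) := by
    refine Finset.sum_congr rfl fun b _ => ?_
    rw [Finset.sum_comm]
    refine Finset.sum_congr rfl fun d _ => ?_
    rw [Matrix.mul_apply, Finset.sum_smul]
  have h5 : ∑ b, ∑ d, w' b d • (qd c w * (c b * c d) - (c b * c d) * qd c w)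
      = ∑ b, ∑ d, ∑ e, (w' b d * w b e) • (c e * c d)
        + ∑ b, ∑ d, ∑ e, (w' b d * w d e) • (c b * c e) := by
    simp only [h1, smul_add, Finset.sum_add_distrib, Finset.smul_sum, smul_smul]
  rw [h2, h5, h3, h4, qd]
  simp only [Matrix.sub_apply, sub_smul, Finset.sum_sub_distrib]
  rw [← smul_neg]
  congr 1
  abel

theorem sum_del (f : ι → A) (a : ι) :
    ∑ b, (if a = b then (2 : ℝ) else 0) • f b = (2 : ℝ) • f a := by
  rw [Finset.sum_eq_single a]
  · rw [if_pos rfl]
  · intro b _ hb
    rw [if_neg (Ne.symm hb), zero_smul]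
  · intro h; exact absurd (Finset.mem_univ a) h

/-- Contraction of a curvature tensor with three Clifford generators. -/
theorem contr3 {c : ι → A} (hc : Rel c) (r : ι → ι → ι → ℝ)
    (h1 : ∀ a b d, r b a d = - r a b d) (h2 : ∀ a b d, r a b d + r b d a + r d a b = 0) :
    ∑ a, ∑ b, ∑ d, r a b d • (c a * c b * c d) = (2 : ℝ) • ∑ b, (∑ a, r a b a) • c b := by
  set T := ∑ a, ∑ b, ∑ d, r a b d • (c a * c b * c d) with hT
  set S := ∑ b, (∑ a, r a b a) • c b with hS
  have hS' : S = ∑ a, ∑ b, r a b a • c b := by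
    rw [hS, Finset.sum_comm]
    exact Finset.sum_congr rfl fun b _ => Finset.sum_smul
  have hT1 : T = ∑ a, ∑ b, ∑ d, r b d a • (c b * c d * c a) := by
    rw [hT, Finset.sum_comm]
    conv_rhs => rw [Finset.sum_comm]
    conv_rhs => enter [2, b]; rw [Finset.sum_comm]
    rw [Finset.sum_comm]
  have hT2 : T = ∑ a, ∑ b, ∑ d, r d a b • (c d * c a * c b) := by
    rw [hT]
    conv_rhs => enter [2, a]; rw [Finset.sum_comm]
    conv_rhs => rw [Finset.sum_comm]
  have e1 : ∀ a b d, c b * c d * c a = c a * c b * c d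
      + ((if a = b then (2 : ℝ) else 0) • c d - (if a = d then (2 : ℝ) else 0) • c b) := by
    intro a b d
    rw [← comm3 hc a b d, mul_assoc (c a)]
    abel
  have e2 : ∀ a b d, c d * c a * c b = c a * c b * c d
      - ((if d = a then (2 : ℝ) else 0) • c b - (if d = b then (2 : ℝ) else 0) • c a) := by
    intro a b d
    rw [← comm3 hc d a b, mul_assoc (c d)]
    abel
  have h0 : ∀ a b, r a a b = 0 := fun a b => by
    have := h1 a a b
    linarith
  have k1 : ∑ a, ∑ b, ∑ d, r b d a • ((if a = b then (2 : ℝ) else 0) • c d) = (2 : ℝ) • S := by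
    rw [hS', Finset.smul_sum]
    refine Finset.sum_congr rfl fun a _ => ?_
    have : ∀ b, ∑ d, r b d a • ((if a = b then (2 : ℝ) else 0) • c d)
        = (if a = b then (2 : ℝ) else 0) • ∑ d, r b d a • c d := by
      intro b
      rw [Finset.smul_sum]
      exact Finset.sum_congr rfl fun d _ => smul_comm _ _ _
    simp only [this]
    exact sum_del (fun b => ∑ d, r b d a • c d) a
  have k2 : ∑ a, ∑ b, ∑ d, r b d a • ((if a = d then (2 : ℝ) else 0) • c b)
      = -((2 : ℝ) • S) := by
    rw [hS', Finset.smul_sum, ← Finset.sum_neg_distrib]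
    refine Finset.sum_congr rfl fun a _ => ?_
    rw [Finset.smul_sum, ← Finset.sum_neg_distrib]
    refine Finset.sum_congr rfl fun b _ => ?_
    have : ∀ d, r b d a • ((if a = d then (2 : ℝ) else 0) • c b)
        = (if a = d then (2 : ℝ) else 0) • (r b d a • c b) := fun d => smul_comm _ _ _
    simp only [this]
    rw [sum_del (fun d => r b d a • c b) a, h1 a b a, neg_smul, smul_neg]
  have k3 : ∑ a, ∑ b, ∑ d, r d a b • ((if d = a then (2 : ℝ) else 0) • c b) = 0 := by
    refine Finset.sum_eq_zero fun a _ => Finset.sum_eq_zero fun b _ =>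
      Finset.sum_eq_zero fun d _ => ?_
    by_cases h : d = a
    · subst h
      rw [h0, zero_smul]
    · rw [if_neg h, zero_smul, smul_zero]
  have k4 : ∑ a, ∑ b, ∑ d, r d a b • ((if d = b then (2 : ℝ) else 0) • c a) = (2 : ℝ) • S := by
    rw [hS', Finset.sum_comm, Finset.smul_sum]
    refine Finset.sum_congr rfl fun b _ => ?_
    rw [Finset.smul_sum]
    refine Finset.sum_congr rfl fun a _ => ?_
    have : ∀ d, r d a b • ((if d = b then (2 : ℝ) else 0) • c a)
        = (if b = d then (2 : ℝ) else 0) • (r d a b • c a) := by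
      intro d
      rw [smul_comm]
      by_cases h : d = b
      · subst h; simp
      · rw [if_neg h, if_neg (Ne.symm h)]
    simp only [this]
    exact sum_del (fun d => r d a b • c a) b
  have hsum : T + T + T = (2 : ℝ) • S + (2 : ℝ) • S + (2 : ℝ) • S := by
    have : T + T + T = T + (∑ a, ∑ b, ∑ d, r b d a • (c b * c d * c a))
        + (∑ a, ∑ b, ∑ d, r d a b • (c d * c a * c b)) := by
      rw [← hT1, ← hT2]
    rw [this]
    have f1 : ∀ a b d, r b d a • (c b * c d * c a) = r b d a • (c a * c b * c d)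
        + (r b d a • ((if a = b then (2 : ℝ) else 0) • c d)
          - r b d a • ((if a = d then (2 : ℝ) else 0) • c b)) := by
      intro a b d
      rw [e1, smul_add, smul_sub]
    have f2 : ∀ a b d, r d a b • (c d * c a * c b) = r d a b • (c a * c b * c d)
        - (r d a b • ((if d = a then (2 : ℝ) else 0) • c b)
          - r d a b • ((if d = b then (2 : ℝ) else 0) • c a)) := by
      intro a b d
      rw [e2, smul_sub, smul_sub]
    have g1 : (∑ a, ∑ b, ∑ d, r b d a • (c b * c d * c a))
        = (∑ a, ∑ b, ∑ d, r b d a • (c a * c b * c d))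
          + ((2 : ℝ) • S - -((2 : ℝ) • S)) := by
      simp only [f1, Finset.sum_add_distrib, Finset.sum_sub_distrib]
      rw [k1, k2]
    have g2 : (∑ a, ∑ b, ∑ d, r d a b • (c d * c a * c b))
        = (∑ a, ∑ b, ∑ d, r d a b • (c a * c b * c d))
          - (0 - (2 : ℝ) • S) := by
      simp only [f2, Finset.sum_sub_distrib]
      rw [k3, k4]
    rw [g1, g2]
    have hb : T + (∑ a, ∑ b, ∑ d, r b d a • (c a * c b * c d))
        + (∑ a, ∑ b, ∑ d, r d a b • (c a * c b * c d)) = 0 := by
      rw [hT]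
      simp only [← Finset.sum_add_distrib, ← add_smul, h2, zero_smul, Finset.sum_const_zero]
    have hb' : (∑ a, ∑ b, ∑ d, r b d a • (c a * c b * c d))
        + (∑ a, ∑ b, ∑ d, r d a b • (c a * c b * c d)) = - T := by
      rw [eq_neg_iff_add_eq_zero, add_comm, ← add_assoc]
      exact hb
    have : T + (∑ a, ∑ b, ∑ d, r b d a • (c a * c b * c d)
          + ((2 : ℝ) • S - -((2 : ℝ) • S)))
        + (∑ a, ∑ b, ∑ d, r d a b • (c a * c b * c d) - (0 - (2 : ℝ) • S))
        = T + ((∑ a, ∑ b, ∑ d, r b d a • (c a * c b * c d))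
        + (∑ a, ∑ b, ∑ d, r d a b • (c a * c b * c d)))
          + ((2 : ℝ) • S + (2 : ℝ) • S + (2 : ℝ) • S) := by
      abel
    rw [this, hb']
    abel
  have h3 : (3 : ℝ) • T = (3 : ℝ) • ((2 : ℝ) • S) := by
    have e3 : ∀ X : A, (3 : ℝ) • X = X + X + X := by
      intro X
      rw [show (3 : ℝ) = 1 + 1 + 1 by norm_num, add_smul, add_smul, one_smul]
    rw [e3, e3, hsum]
  have := congrArg (fun X => (1 / 3 : ℝ) • X) h3
  simpa [smul_smul] using this

theorem pair_symm (r : ι → ι → ι → ι → ℝ)
    (h1 : ∀ a b d e, r b a d e = - r a b d e) (h3 : ∀ a b d e, r a b e d = - r a b d e)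
    (h2 : ∀ a b d e, r a b d e + r b d a e + r d a b e = 0) (a b d e : ι) :
    r a b d e = r d e a b := by
  have B1 := h2 a b d e
  have B2 := h2 b d e a
  have B3 := h2 d e a b
  have B4 := h2 e a b d
  have s1 := h3 b d a e
  have s2 := h3 d e a b
  have s3 := h3 e b a d
  have s4 := h1 b e a d
  have s5 := h3 e a b d
  have s6 := h3 a d b e
  have s7 := h1 d a b e
  have s8 := h3 a b d e
  linarith

/-- Contraction of a curvature tensor with four Clifford generators. -/
theorem contr4 {c : ι → A} (hc : Rel c) (r : ι → ι → ι → ι → ℝ)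
    (h1 : ∀ a b d e, r b a d e = - r a b d e) (h3 : ∀ a b d e, r a b e d = - r a b d e)
    (h2 : ∀ a b d e, r a b d e + r b d a e + r d a b e = 0) :
    ∑ a, ∑ b, ∑ d, ∑ e, r a b d e • (c a * c b * (c d * c e))
      = (-2 * ∑ a, ∑ b, r a b a b) • (1 : A) := by
  have e1 : ∑ a, ∑ b, ∑ d, ∑ e, r a b d e • (c a * c b * (c d * c e))
      = ∑ e, (∑ a, ∑ b, ∑ d, r a b d e • (c a * c b * c d)) * c e := by
    simp only [Finset.sum_mul, smul_mul_assoc, mul_assoc]
    symm
    rw [Finset.sum_comm]
    refine Finset.sum_congr rfl fun a _ => ?_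
    rw [Finset.sum_comm]
    refine Finset.sum_congr rfl fun b _ => ?_
    rw [Finset.sum_comm]
  have e2 : ∀ e, ∑ a, ∑ b, ∑ d, r a b d e • (c a * c b * c d)
      = (2 : ℝ) • ∑ b, (∑ a, r a b a e) • c b := fun e =>
    contr3 hc (fun a b d => r a b d e) (fun a b d => h1 a b d e) (fun a b d => h2 a b d e)
  rw [e1]
  simp only [e2, smul_mul_assoc, Finset.sum_mul]
  have hs : ∀ b e, ∑ a, r a b a e = ∑ a, r a e a b := fun b e =>
    Finset.sum_congr rfl fun a _ => pair_symm r h1 h3 h2 a b a e
  have e3 : ∑ e, (2 : ℝ) • ∑ b, (∑ a, r a b a e) • (c b * c e)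
      = ∑ e, ∑ b, (∑ a, r a b a e) • (c b * c e + c e * c b) := by
    simp only [smul_add, Finset.sum_add_distrib]
    have : ∑ e, ∑ b, (∑ a, r a b a e) • (c e * c b)
        = ∑ e, ∑ b, (∑ a, r a b a e) • (c b * c e) := by
      rw [Finset.sum_comm]
      refine Finset.sum_congr rfl fun e _ => Finset.sum_congr rfl fun b _ => ?_
      rw [hs]
    rw [this, ← Finset.smul_sum, two_smul]
  rw [e3]
  have e4 : ∀ b e, c b * c e + c e * c b = -((if b = e then (2 : ℝ) else 0) • (1 : A)) := by
    intro b e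
    rw [hc b e]
    abel
  simp only [e4, smul_neg, Finset.sum_neg_distrib]
  have e5 : ∀ e, ∑ b, (∑ a, r a b a e) • ((if b = e then (2 : ℝ) else 0) • (1 : A))
      = ((2 : ℝ) * ∑ a, r a e a e) • (1 : A) := by
    intro e
    rw [Finset.sum_eq_single e]
    · rw [if_pos rfl, smul_smul, mul_comm]
    · intro b _ hb
      rw [if_neg hb, zero_smul, smul_zero]
    · intro h; exact absurd (Finset.mem_univ e) h
  simp only [e5]
  rw [← Finset.sum_smul, ← neg_smul, ← Finset.mul_sum, Finset.sum_comm]
  congr 1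
  ring

end Pool.Agent.DC.Lich
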