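import Pool.Agent.DC.C.Stmt

/-!
# Project DC (MP_b05a29), C24: smoothing of the functions near the box
-/

set_option autoImplicit false

open MeasureTheory Set
open scoped ContDiff BigOperators Matrix

namespace Pool.Agent.DC.Mo

variable {n : ℕ}

/-- the quadratic form of the metric -/
noncomputable def qf (g : MF n) (x v : E n) : ℝ := ∑ i, ∑ j, g x i j * v i * v j

theorem qf_smul (g : MF n) (x v : E n) (h : ℝ) : qf g x (h • v) = h ^ 2 * qf g x v := by
  simp only [qf, Finset.mul_sum, PiLp.smul_apply, smul_eq_mul]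
  refine Finset.sum_congr rfl fun i _ => Finset.sum_congr rfl fun j _ => ?_
  ring

theorem cont_coord (i : Fin n) : Continuous fun v : E n => v i :=
  (EuclideanSpace.proj (𝕜 := ℝ) i : E n →L[ℝ] ℝ).continuous

theorem qf_cont (g : Metric n) : Continuous fun p : E n × E n => qf g.m p.1 p.2 := by
  unfold qf
  refine continuous_finsetSum _ fun i _ => continuous_finsetSum _ fun j _ => ?_
  exact (((g.smooth i j).continuous.comp continuous_fst).mul
    ((cont_coord i).comp continuous_snd)).mul ((cont_coord j).comp continuous_snd)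

theorem qf_eq (g : MF n) (x v : E n) : qf g x v = v.ofLp ⬝ᵥ (g x *ᵥ v.ofLp) := by
  simp only [qf, dotProduct, Matrix.mulVec, Finset.mul_sum]
  refine Finset.sum_congr rfl fun i _ => Finset.sum_congr rfl fun j _ => ?_
  ring

theorem qf_pos (g : Metric n) (x v : E n) (hv : v ≠ 0) : 0 < qf g.m x v := by
  rw [qf_eq]
  have h := (g.pos x).dotProduct_mulVec_pos (x := v.ofLp) (by
    intro h
    apply hv
    ext i
    exact congrFun h i)
  simpa using h

theorem qf_nonneg (g : Metric n) (x v : E n) : 0 ≤ qf g.m x v := by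
  by_cases hv : v = 0
  · rw [qf_eq, hv]
    simp
  · exact (qf_pos g x v hv).le

theorem seg_le (g : MF n) (x y : E n) (C : ℝ)
    (h : ∀ t ∈ Icc (0 : ℝ) 1, Real.sqrt (qf g (x + t • (y - x)) (y - x)) ≤ C) :
    seg g x y ≤ C := by
  have h1 : ‖∫ t in (0 : ℝ)..1, Real.sqrt (qf g (x + t • (y - x)) (y - x))‖ ≤ C * |1 - 0| := by
    apply intervalIntegral.norm_integral_le_of_norm_le_const
    intro t ht
    rw [uIoc_of_le zero_le_one] at ht
    rw [Real.norm_of_nonneg (Real.sqrt_nonneg _)]
    exact h t ⟨ht.1.le, ht.2⟩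
  have h2 : seg g x y = ∫ t in (0 : ℝ)..1, Real.sqrt (qf g (x + t • (y - x)) (y - x)) := rfl
  rw [h2]
  calc _ ≤ ‖∫ t in (0 : ℝ)..1, Real.sqrt (qf g (x + t • (y - x)) (y - x))‖ := Real.le_norm_self _
    _ ≤ C * |1 - 0| := h1
    _ = C := by simp

theorem box_compact (a b : Fin n → ℝ) : IsCompact (Box a b) := by
  have h1 : Box a b = (WithLp.toLp 2) '' (Set.pi univ fun i => Icc (a i) (b i)) := by
    ext x
    constructor
    · intro hx
      exact ⟨x.ofLp, fun i _ => hx i, rfl⟩
    · rintro ⟨y, hy, rfl⟩
      intro i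
      exact hy i (mem_univ i)
  rw [h1]
  exact (isCompact_univ_pi fun i => isCompact_Icc).image (PiLp.continuous_toLp 2 _)

theorem exists_unit (v : E n) (hv : v ≠ 0) : ∃ u : E n, ‖u‖ = 1 ∧ v = ‖v‖ • u := by
  refine ⟨‖v‖⁻¹ • v, ?_, ?_⟩
  · rw [norm_smul, norm_inv, norm_norm, inv_mul_cancel₀ (norm_ne_zero_iff.mpr hv)]
  · rw [smul_smul, mul_inv_cancel₀ (norm_ne_zero_iff.mpr hv), one_smul]

theorem qf_zero (g : MF n) (x : E n) : qf g x 0 = 0 := by
  rw [qf_eq]
  simp

/-- upper bound of the metric on a compact set -/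
theorem upper (g : Metric n) (K : Set (E n)) (hK : IsCompact K) :
    ∃ M : ℝ, 0 ≤ M ∧ ∀ x ∈ K, ∀ v, Real.sqrt (qf g.m x v) ≤ M * ‖v‖ := by
  have h1 : IsCompact (K ×ˢ Metric.sphere (0 : E n) 1) := hK.prod (isCompact_sphere 0 1)
  obtain ⟨C, hC⟩ := h1.exists_bound_of_continuousOn (qf_cont g).continuousOn
  refine ⟨Real.sqrt C, Real.sqrt_nonneg _, ?_⟩
  intro x hx v
  by_cases hv : v = 0
  · rw [hv, qf_zero]
    simp
  obtain ⟨u, hu, hvu⟩ := exists_unit v hv
  have h2 : qf g.m x v = ‖v‖ ^ 2 * qf g.m x u := by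
    conv_lhs => rw [hvu]
    exact qf_smul _ _ _ _
  have h3 : qf g.m x u ≤ C := (Real.le_norm_self _).trans
    (hC (x, u) ⟨hx, by simp [hu]⟩)
  rw [h2, Real.sqrt_mul (sq_nonneg _), Real.sqrt_sq (norm_nonneg _), mul_comm]
  exact mul_le_mul_of_nonneg_right (Real.sqrt_le_sqrt h3) (norm_nonneg _)

/-- the metric varies slowly -/
theorem slow (g : Metric n) (K : Set (E n)) (hK : IsCompact K) :
    ∃ η : ℝ, 0 < η ∧ ∀ x ∈ K, ∀ y, ‖y - x‖ < η → ∀ v, qf g.m y v ≤ 4 * qf g.m x v := by
  have h1 : IsCompact (K ×ˢ Metric.sphere (0 : E n) 1) := hK.prod (isCompact_sphere 0 1)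
  let ι : E n × E n → E n × E n × E n := fun p => (p.1, p.1, p.2)
  have hι : Continuous ι := by fun_prop
  have h2 := h1.image hι
  let U : Set (E n × E n × E n) := {p | qf g.m p.2.1 p.2.2 < 4 * qf g.m p.1 p.2.2}
  have hU : IsOpen U := by
    apply isOpen_lt
    · exact (qf_cont g).comp (by fun_prop : Continuous fun p : E n × E n × E n => (p.2.1, p.2.2))
    · exact ((qf_cont g).comp
        (by fun_prop : Continuous fun p : E n × E n × E n => (p.1, p.2.2))).const_mul 4 |>.congr
        fun p => rfl
  have hsub : ι '' (K ×ˢ Metric.sphere (0 : E n) 1) ⊆ U := by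
    rintro _ ⟨⟨x, v⟩, ⟨hx, hv⟩, rfl⟩
    have hv0 : v ≠ 0 := by
      intro h
      rw [h] at hv
      simp at hv
    have := qf_pos g x v hv0
    show qf g.m x v < 4 * qf g.m x v
    linarith
  obtain ⟨η, hη, hth⟩ := h2.exists_thickening_subset_open hU hsub
  refine ⟨η, hη, ?_⟩
  intro x hx y hy v
  by_cases hv : v = 0
  · rw [hv, qf_zero, qf_zero]
    simp
  obtain ⟨u, hu, hvu⟩ := exists_unit v hv
  have h3 : (x, y, u) ∈ U := by
    apply hth
    rw [Metric.mem_thickening_iff]
    refine ⟨(x, x, u), ⟨(x, u), ⟨hx, by simp [hu]⟩, rfl⟩, ?_⟩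
    rw [Prod.dist_eq, Prod.dist_eq]
    simp only [dist_self, dist_nonneg, max_eq_right, max_eq_left]
    rw [dist_eq_norm]
    exact hy
  have h4 : qf g.m y u < 4 * qf g.m x u := h3
  rw [hvu, qf_smul, qf_smul]
  nlinarith [mul_le_mul_of_nonneg_left h4.le (sq_nonneg ‖v‖)]

/-! ### the clamp -/

/-- coordinatewise projection to a box -/
noncomputable def clamp (a b : Fin n → ℝ) (x : E n) : E n :=
  WithLp.toLp 2 fun i => max (a i) (min (x i) (b i))

theorem clamp_apply (a b : Fin n → ℝ) (x : E n) (i : Fin n) :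
    clamp a b x i = max (a i) (min (x i) (b i)) := rfl

theorem clamp_mem (a b : Fin n → ℝ) (hab : ∀ i, a i ≤ b i) (x : E n) : clamp a b x ∈ Box a b := by
  intro i
  rw [clamp_apply]
  exact ⟨le_max_left _ _, max_le (hab i) (min_le_right _ _)⟩

theorem clamp_of_mem (a b : Fin n → ℝ) (x : E n) (hx : x ∈ Box a b) : clamp a b x = x := by
  ext i
  rw [clamp_apply, min_eq_left (hx i).2, max_eq_right (hx i).1]

theorem norm_le_of_abs_le (u v : E n) (h : ∀ i, |u i| ≤ |v i|) : ‖u‖ ≤ ‖v‖ := by
  rw [EuclideanSpace.norm_eq, EuclideanSpace.norm_eq]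
  apply Real.sqrt_le_sqrt
  apply Finset.sum_le_sum
  intro i _
  exact pow_le_pow_left₀ (norm_nonneg _) (h i) 2

theorem norm_le_of_abs_le' (u : E n) (r : ℝ) (h : ∀ i, |u i| ≤ r) : ‖u‖ ≤ n * r := by
  have h1 : ‖u‖ ≤ ∑ i, |u i| := by
    have h2 : u = ∑ i, EuclideanSpace.single i (u i) := by
      ext j
      simp [Finset.sum_apply]
    calc ‖u‖ = ‖∑ i, EuclideanSpace.single i (u i)‖ := by rw [← h2]
      _ ≤ ∑ i, ‖EuclideanSpace.single i (u i)‖ := norm_sum_le _ _
      _ = ∑ i, |u i| := by simp
  calc ‖u‖ ≤ ∑ i, |u i| := h1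
    _ ≤ ∑ _i : Fin n, r := Finset.sum_le_sum fun i _ => h i
    _ = n * r := by simp

theorem clamp_lip (a b : Fin n → ℝ) (x y : E n) : ‖clamp a b x - clamp a b y‖ ≤ ‖x - y‖ := by
  apply norm_le_of_abs_le
  intro i
  rw [PiLp.sub_apply, PiLp.sub_apply, clamp_apply, clamp_apply]
  calc |max (a i) (min (x i) (b i)) - max (a i) (min (y i) (b i))|
      ≤ |min (x i) (b i) - min (y i) (b i)| := by
        have := abs_max_sub_max_le_max (a i) (min (x i) (b i)) (a i) (min (y i) (b i))
        simpa using this
    _ ≤ |x i - y i| := by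
        have := abs_min_sub_min_le_max (x i) (b i) (y i) (b i)
        simpa using this

theorem box_convex (a b : Fin n → ℝ) (x y : E n) (hx : x ∈ Box a b) (hy : y ∈ Box a b) (t : ℝ)
    (ht : t ∈ Icc (0 : ℝ) 1) : x + t • (y - x) ∈ Box a b := by
  intro i
  have h1 := hx i
  have h2 := hy i
  have h3 : (x + t • (y - x)) i = x i + t * (y i - x i) := by simp
  rw [h3]
  obtain ⟨ht0, ht1⟩ := ht
  constructor
  · nlinarith [h1.1, h2.1, mul_nonneg ht0 (sub_nonneg.mpr h2.1),
      mul_nonneg (sub_nonneg.mpr ht1) (sub_nonneg.mpr h1.1)]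
  · nlinarith [h1.2, h2.2, mul_nonneg ht0 (sub_nonneg.mpr h2.2),
      mul_nonneg (sub_nonneg.mpr ht1) (sub_nonneg.mpr h1.2)]

/-! ### mollification -/

/-- the mollification of `R` -/
noncomputable def moll (φ : ContDiffBump (0 : E n)) (R : E n → ℝ) (x : E n) : ℝ :=
  ∫ t, φ.normed volume t * R (x - t)

variable (φ : ContDiffBump (0 : E n)) {R : E n → ℝ}

theorem moll_smooth (hR : Continuous R) : ContDiff ℝ ∞ (moll φ R) := by
  have h1 : moll φ R = convolution (φ.normed volume) R (ContinuousLinearMap.lsmul ℝ ℝ) volume := by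
    ext x
    rfl
  rw [h1]
  exact φ.hasCompactSupport_normed.contDiff_convolution_left _ φ.contDiff_normed
    hR.locallyIntegrable

theorem moll_int (hR : Continuous R) (x : E n) :
    Integrable fun t => φ.normed volume t * R (x - t) := by
  apply Continuous.integrable_of_hasCompactSupport
  · exact φ.continuous_normed.mul (hR.comp (continuous_const.sub continuous_id))
  · exact φ.hasCompactSupport_normed.mul_right

theorem normed_zero (t : E n) (ht : φ.rOut ≤ ‖t‖) : φ.normed volume t = 0 := by
  have h1 : t ∉ Function.support (φ.normed volume) := by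
    rw [φ.support_normed_eq]
    simpa using ht
  simpa using h1

theorem moll_sub (hR : Continuous R) (x y : E n) (C : ℝ)
    (h : ∀ t : E n, ‖t‖ < φ.rOut → |R (x - t) - R (y - t)| ≤ C) :
    |moll φ R x - moll φ R y| ≤ C := by
  unfold moll
  rw [← integral_sub (moll_int φ hR x) (moll_int φ hR y)]
  have h0 : ∫ t, φ.normed volume t * C = C := by
    rw [integral_mul_const, φ.integral_normed, one_mul]
  calc _ ≤ ∫ t, |φ.normed volume t * R (x - t) - φ.normed volume t * R (y - t)| :=
        abs_integral_le_integral_abs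
    _ ≤ ∫ t, φ.normed volume t * C := by
        apply integral_mono
        · exact ((moll_int φ hR x).sub (moll_int φ hR y)).abs
        · exact φ.integrable_normed.mul_const C
        · intro t
          show |φ.normed volume t * R (x - t) - φ.normed volume t * R (y - t)| ≤ _
          rw [← mul_sub, abs_mul, abs_of_nonneg (φ.nonneg_normed t)]
          by_cases ht : ‖t‖ < φ.rOut
          · exact mul_le_mul_of_nonneg_left (h t ht) (φ.nonneg_normed t)
          · show φ.normed volume t * _ ≤ φ.normed volume t * C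
            rw [normed_zero φ t (not_lt.mp ht), zero_mul, zero_mul]
    _ = C := h0

theorem moll_le (hR : Continuous R) (x : E n) (C : ℝ)
    (h : ∀ t : E n, ‖t‖ < φ.rOut → R (x - t) ≤ C) : moll φ R x ≤ C := by
  unfold moll
  have h0 : ∫ t, φ.normed volume t * C = C := by
    rw [integral_mul_const, φ.integral_normed, one_mul]
  rw [← h0]
  apply integral_mono (moll_int φ hR x) (φ.integrable_normed.mul_const C)
  intro t
  show φ.normed volume t * R (x - t) ≤ φ.normed volume t * C
  by_cases ht : ‖t‖ < φ.rOut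
  · exact mul_le_mul_of_nonneg_left (h t ht) (φ.nonneg_normed t)
  · rw [normed_zero φ t (not_lt.mp ht), zero_mul, zero_mul]

theorem le_moll (hR : Continuous R) (x : E n) (C : ℝ)
    (h : ∀ t : E n, ‖t‖ < φ.rOut → C ≤ R (x - t)) : C ≤ moll φ R x := by
  unfold moll
  have h0 : ∫ t, φ.normed volume t * C = C := by
    rw [integral_mul_const, φ.integral_normed, one_mul]
  rw [← h0]
  apply integral_mono (φ.integrable_normed.mul_const C) (moll_int φ hR x)
  intro t
  show φ.normed volume t * C ≤ φ.normed volume t * R (x - t)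
  by_cases ht : ‖t‖ < φ.rOut
  · exact mul_le_mul_of_nonneg_left (h t ht) (φ.nonneg_normed t)
  · rw [normed_zero φ t (not_lt.mp ht), zero_mul, zero_mul]

/-! ### the norm of the differential -/

theorem fderiv_eq_sum (h : E n → ℝ) (x v : E n) : fderiv ℝ h x v = ∑ i, v i * pd i h x := by
  have h2 : v = ∑ i, v i • ev i := by
    ext j
    simp [Finset.sum_apply, ev, Pi.single_apply]
  conv_lhs => rw [h2]
  rw [map_sum]
  refine Finset.sum_congr rfl fun i _ => ?_
  rw [map_smul, smul_eq_mul]
  rfl

theorem dnm_le (g : Metric n) (h : E n → ℝ) (x : E n) (C : ℝ) (hC : 0 ≤ C)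
    (H : ∀ v : E n, |fderiv ℝ h x v| ≤ C * Real.sqrt (qf g.m x v)) : dnm g.m h x ≤ C := by
  set w : Fin n → ℝ := fun i => pd i h x with hw
  set v : Fin n → ℝ := (g.m x)⁻¹ *ᵥ w with hv
  have h1 : ∑ i, ∑ j, (g.m x)⁻¹ i j * pd i h x * pd j h x = w ⬝ᵥ v := by
    simp only [hv, dotProduct, Matrix.mulVec, Finset.mul_sum, hw]
    refine Finset.sum_congr rfl fun i _ => Finset.sum_congr rfl fun j _ => ?_
    ring
  have h2 : fderiv ℝ h x (WithLp.toLp 2 v) = w ⬝ᵥ v := by
    rw [fderiv_eq_sum]
    simp only [dotProduct, hw]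
    refine Finset.sum_congr rfl fun i _ => ?_
    ring
  have hdet : IsUnit (g.m x).det := (g.pos x).det_pos.ne'.isUnit
  have h3 : qf g.m x (WithLp.toLp 2 v) = w ⬝ᵥ v := by
    rw [qf_eq]
    show v ⬝ᵥ (g.m x *ᵥ v) = _
    rw [hv, Matrix.mulVec_mulVec, Matrix.mul_nonsing_inv _ hdet, Matrix.one_mulVec, dotProduct_comm]
  have h4 := H (WithLp.toLp 2 v)
  have h5 := qf_nonneg g x (WithLp.toLp 2 v)
  rw [h3] at h4 h5
  rw [h2, abs_of_nonneg h5] at h4
  show Real.sqrt (∑ i, ∑ j, (g.m x)⁻¹ i j * pd i h x * pd j h x) ≤ C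
  rw [h1]
  set s := Real.sqrt (w ⬝ᵥ v) with hs
  have h6 : s * s = w ⬝ᵥ v := Real.mul_self_sqrt h5
  have h7 : 0 ≤ s := Real.sqrt_nonneg _
  by_contra hcon
  push Not at hcon
  nlinarith

end Pool.Agent.DC.Mo

namespace Pool.Agent.DC

open Mo

theorem stMo : StMo := by
  intro n g a b hab d hd W F hF hFa hFb
  -- the constants
  obtain ⟨M, hM0, hM⟩ := upper g (Box (fun i => a i - d) (fun i => b i + d)) (box_compact _ _)
  obtain ⟨η, hη, hslow⟩ := slow g (Box a b) (box_compact _ _)
  obtain ⟨r, hr, hrd, hrη, hrM⟩ : ∃ r : ℝ, 0 < r ∧ r ≤ d ∧ r ≤ η ∧ M * (n * r) ≤ 2 := by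
    have hp : 0 < M * n + 1 := by positivity
    refine ⟨min d (min η (2 / (M * n + 1))), ?_, min_le_left _ _,
      (min_le_right _ _).trans (min_le_left _ _), ?_⟩
    · exact lt_min hd (lt_min hη (by positivity))
    · have h1 : min d (min η (2 / (M * n + 1))) ≤ 2 / (M * n + 1) :=
        (min_le_right _ _).trans (min_le_right _ _)
      have h2 : 0 ≤ M * n := by positivity
      calc M * (n * min d (min η (2 / (M * n + 1)))) =
            (M * n) * min d (min η (2 / (M * n + 1))) := by ring
        _ ≤ (M * n) * (2 / (M * n + 1)) := mul_le_mul_of_nonneg_left h1 h2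
        _ = 2 * ((M * n) / (M * n + 1)) := by ring
        _ ≤ 2 * 1 := by
            apply mul_le_mul_of_nonneg_left _ (by norm_num)
            rw [div_le_one hp]
            linarith
        _ = 2 := by norm_num
  set A : Fin n → ℝ := fun i => a i - r with hA
  set B : Fin n → ℝ := fun i => b i + r with hB
  have hAB : ∀ i, A i ≤ B i := fun i => by
    have := hab i
    simp only [hA, hB]
    linarith
  have hsub : ∀ x, x ∈ Box A B → x ∈ Box (fun i => a i - d) (fun i => b i + d) := by
    intro x hx i
    have := hx i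
    simp only [hA, hB, mem_Icc] at this ⊢
    constructor <;> linarith
  have hsub' : ∀ x, x ∈ Box a b → x ∈ Box (fun i => a i - d) (fun i => b i + d) := by
    intro x hx i
    have := hx i
    simp only [mem_Icc] at this ⊢
    constructor <;> linarith
  have hFl : ∀ i, ∀ x ∈ Box (fun i => a i - d) (fun i => b i + d),
      ∀ y ∈ Box (fun i => a i - d) (fun i => b i + d), |F i x - F i y| ≤ M * ‖y - x‖ := by
    intro i x hx y hy
    refine (hF i x hx y hy).trans (seg_le _ _ _ _ ?_)
    intro t ht
    exact hM _ (box_convex _ _ x y hx hy t ht) _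
  set R : Fin n → E n → ℝ := fun i x => F i (clamp A B x) with hR
  have hRl : ∀ i x y, |R i x - R i y| ≤ M * ‖x - y‖ := by
    intro i x y
    have h1 := hFl i (clamp A B x) (hsub _ (clamp_mem _ _ hAB _)) (clamp A B y)
      (hsub _ (clamp_mem _ _ hAB _))
    refine h1.trans ?_
    apply mul_le_mul_of_nonneg_left _ hM0
    rw [norm_sub_rev x y]
    exact clamp_lip _ _ _ _
  have hRc : ∀ i, Continuous (R i) := by
    intro i
    have h1 : LipschitzWith (Real.toNNReal M) (R i) := by
      apply LipschitzWith.of_dist_le_mul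
      intro x y
      rw [Real.dist_eq, dist_eq_norm, Real.coe_toNNReal M hM0]
      exact hRl i x y
    exact h1.continuous
  let φ : ContDiffBump (0 : E n) := ⟨r / 8, r / 4, by positivity, by linarith⟩
  have hφ : φ.rOut = r / 4 := rfl
  refine ⟨r / 4, M, fun i => moll φ (R i), by positivity, fun i => moll_smooth φ (hRc i), ?_, ?_,
    ?_, ?_⟩
  · intro i x
    have h1 : LipschitzWith (Real.toNNReal M) (moll φ (R i)) := by
      apply LipschitzWith.of_dist_le_mul
      intro x y
      rw [Real.dist_eq, dist_eq_norm, Real.coe_toNNReal M hM0]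
      apply moll_sub φ (hRc i)
      intro t _
      have := hRl i (x - t) (y - t)
      rwa [sub_sub_sub_cancel_right] at this
    have h2 := norm_fderiv_le_of_lipschitz ℝ h1 (x₀ := x)
    rwa [Real.coe_toNNReal M hM0] at h2
  · intro i x hx
    apply moll_le φ (hRc i)
    intro t ht
    rw [hφ] at ht
    set c := clamp A B (x - t) with hc
    set p : E n := WithLp.toLp 2 (fun j => if j = i then a i else clamp a b c j) with hp
    have hpj : ∀ j, p j = if j = i then a i else clamp a b c j := fun j => rfl
    have hpB : p ∈ Box a b := by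
      intro j
      rw [hpj]
      split_ifs with hj
      · rw [hj]
        exact ⟨le_rfl, (hab i).le⟩
      · exact clamp_mem a b (fun i => (hab i).le) c j
    have hcB : c ∈ Box A B := clamp_mem _ _ hAB _
    have h1 := hFl i p (hsub' _ hpB) c (hsub _ hcB)
    have h2 : F i p ≤ 0 := hFa i p hpB (by rw [hpj, if_pos rfl])
    have h3 : ‖c - p‖ ≤ n * r := by
      apply norm_le_of_abs_le'
      intro j
      rw [PiLp.sub_apply, hpj]
      have hcj := hcB j
      simp only [hA, hB, mem_Icc] at hcj
      split_ifs with hj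
      · subst hj
        have h4 : |t j| ≤ ‖t‖ := by
          have := PiLp.norm_apply_le t j
          simpa using this
        have h5 := abs_le.mp h4
        rw [hc, clamp_apply] at hcj ⊢
        simp only [hA, hB] at hcj ⊢
        have h6 : (x - t) j = x j - t j := rfl
        have h7 : min ((x - t) j) (b j + r) ≤ a j + r := by
          apply (min_le_left _ _).trans
          rw [h6]
          linarith [h5.1]
        rw [abs_le]
        constructor
        · linarith [hcj.1]
        · have h8 : max (a j - r) (min ((x - t) j) (b j + r)) ≤ a j + r :=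
            max_le (by linarith) h7
          linarith
      · rw [clamp_apply a b c j, abs_le]
        have := hab j
        constructor
        · have h8 : max (a j) (min (c j) (b j)) ≤ c j + r :=
            max_le (by linarith [hcj.1]) ((min_le_left _ _).trans (by linarith))
          linarith
        · have h8 : c j - r ≤ max (a j) (min (c j) (b j)) :=
            le_max_of_le_right (le_min (by linarith) (by linarith [hcj.2]))
          linarith
    have h4 : F i c ≤ F i p + M * (n * r) := by
      have h5 := (abs_le.mp h1).1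
      have h6 := mul_le_mul_of_nonneg_left h3 hM0
      linarith
    show F i c ≤ 2
    linarith
  · intro i x hx
    apply le_moll φ (hRc i)
    intro t ht
    rw [hφ] at ht
    set c := clamp A B (x - t) with hc
    set p : E n := WithLp.toLp 2 (fun j => if j = i then b i else clamp a b c j) with hp
    have hpj : ∀ j, p j = if j = i then b i else clamp a b c j := fun j => rfl
    have hpB : p ∈ Box a b := by
      intro j
      rw [hpj]
      split_ifs with hj
      · rw [hj]
        exact ⟨(hab i).le, le_rfl⟩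
      · exact clamp_mem a b (fun i => (hab i).le) c j
    have hcB : c ∈ Box A B := clamp_mem _ _ hAB _
    have h1 := hFl i p (hsub' _ hpB) c (hsub _ hcB)
    have h2 : W ≤ F i p := hFb i p hpB (by rw [hpj, if_pos rfl])
    have h3 : ‖c - p‖ ≤ n * r := by
      apply norm_le_of_abs_le'
      intro j
      rw [PiLp.sub_apply, hpj]
      have hcj := hcB j
      simp only [hA, hB, mem_Icc] at hcj
      split_ifs with hj
      · subst hj
        have h4 : |t j| ≤ ‖t‖ := by
          have := PiLp.norm_apply_le t j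
          simpa using this
        have h5 := abs_le.mp h4
        rw [hc, clamp_apply] at hcj ⊢
        simp only [hA, hB] at hcj ⊢
        have h6 : (x - t) j = x j - t j := rfl
        have h7 : b j - r ≤ min ((x - t) j) (b j + r) := by
          apply le_min _ (by linarith)
          rw [h6]
          linarith [h5.2]
        rw [abs_le]
        constructor
        · have h8 : b j - r ≤ max (a j - r) (min ((x - t) j) (b j + r)) :=
            le_max_of_le_right h7
          linarith
        · linarith [hcj.2]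
      · rw [clamp_apply a b c j, abs_le]
        have := hab j
        constructor
        · have h8 : max (a j) (min (c j) (b j)) ≤ c j + r :=
            max_le (by linarith [hcj.1]) ((min_le_left _ _).trans (by linarith))
          linarith
        · have h8 : c j - r ≤ max (a j) (min (c j) (b j)) :=
            le_max_of_le_right (le_min (by linarith) (by linarith [hcj.2]))
          linarith
    have h4 : F i p - M * (n * r) ≤ F i c := by
      have h5 := (abs_le.mp h1).2
      have h6 := mul_le_mul_of_nonneg_left h3 hM0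
      linarith
    show W - 2 ≤ F i c
    linarith
  · intro i x hx
    apply dnm_le g _ x 2 (by norm_num)
    intro v
    have hd1 : DifferentiableAt ℝ (moll φ (R i)) x :=
      (moll_smooth φ (hRc i)).differentiable (by simp) x
    have hc1 : HasDerivAt (fun h : ℝ => x + h • v) v 0 := by
      have := ((hasDerivAt_id (0 : ℝ)).smul_const v).const_add x
      simpa using this
    have hc2 : HasDerivAt (fun h : ℝ => moll φ (R i) (x + h • v)) (fderiv ℝ (moll φ (R i)) x v)
        0 := by
      have h1 : HasFDerivAt (moll φ (R i)) (fderiv ℝ (moll φ (R i)) x) (x + (0 : ℝ) • v) := by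
        rw [zero_smul, add_zero]
        exact hd1.hasFDerivAt
      exact h1.comp_hasDerivAt (0 : ℝ) hc1
    have h3 := hc2.le_of_lip' (C := 2 * Real.sqrt (qf g.m x v)) (by positivity) ?_
    · rwa [Real.norm_eq_abs] at h3
    have h4 : ∀ᶠ h : ℝ in nhds 0, ‖h • v‖ < r / 4 := by
      have h5 : Filter.Tendsto (fun h : ℝ => ‖h • v‖) (nhds 0) (nhds ‖(0 : ℝ) • v‖) := by
        apply Continuous.tendsto
        fun_prop
      rw [zero_smul, norm_zero] at h5
      exact h5.eventually (gt_mem_nhds (by positivity))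
    filter_upwards [h4] with h hh
    rw [zero_smul, add_zero, sub_zero, Real.norm_eq_abs, Real.norm_eq_abs]
    apply moll_sub φ (hRc i)
    intro t ht
    rw [hφ] at ht
    -- both points are in the box
    have hin : ∀ z : E n, ‖z - x‖ ≤ r → z ∈ Box A B := by
      intro z hz j
      have h5 : |(z - x) j| ≤ ‖z - x‖ := by
        have := PiLp.norm_apply_le (z - x) j
        simpa using this
      have h6 := abs_le.mp (h5.trans hz)
      rw [PiLp.sub_apply] at h6
      have h7 := hx j
      simp only [hA, hB, mem_Icc] at h7 ⊢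
      constructor <;> linarith [h6.1, h6.2]
    have hz1 : ‖(x + h • v - t) - x‖ ≤ r := by
      have : (x + h • v - t) - x = h • v - t := by abel
      rw [this]
      exact (norm_sub_le _ _).trans (by linarith)
    have hz2 : ‖(x - t) - x‖ ≤ r := by
      have : (x - t) - x = -t := by abel
      rw [this, norm_neg]
      linarith
    show |F i (clamp A B (x + h • v - t)) - F i (clamp A B (x - t))| ≤ _
    rw [clamp_of_mem _ _ _ (hin _ hz1), clamp_of_mem _ _ _ (hin _ hz2), abs_sub_comm]
    refine (hF i _ (hsub _ (hin _ hz2)) _ (hsub _ (hin _ hz1))).trans (seg_le _ _ _ _ ?_)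
    intro s hs
    have h6 : x + h • v - t - (x - t) = h • v := by abel
    rw [h6, qf_smul]
    have h7 : ‖(x - t + s • (h • v)) - x‖ < η := by
      have : (x - t + s • (h • v)) - x = s • (h • v) - t := by abel
      rw [this]
      have h8 : ‖s • (h • v)‖ ≤ ‖h • v‖ := by
        rw [norm_smul, Real.norm_of_nonneg hs.1]
        exact mul_le_of_le_one_left (norm_nonneg _) hs.2
      calc ‖s • (h • v) - t‖ ≤ ‖s • (h • v)‖ + ‖t‖ := norm_sub_le _ _
        _ < η := by linarith
    have h8 := hslow x hx _ h7 v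
    calc Real.sqrt (h ^ 2 * qf g.m (x - t + s • (h • v)) v)
        ≤ Real.sqrt (h ^ 2 * (4 * qf g.m x v)) :=
          Real.sqrt_le_sqrt (mul_le_mul_of_nonneg_left h8 (sq_nonneg _))
      _ = 2 * Real.sqrt (qf g.m x v) * |h| := by
          have h9 : h ^ 2 * (4 * qf g.m x v) = (2 * |h|) ^ 2 * qf g.m x v := by
            rw [mul_pow, sq_abs]
            ring
          rw [h9, Real.sqrt_mul (sq_nonneg _), Real.sqrt_sq (by positivity)]
          ring

end Pool.Agent.DC
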