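import Pool.Agent.DC.C.Path

/-!
# Project DC: multiplication operators and the path of operators

StT (C15).
-/

set_option autoImplicit false

open MeasureTheory Set
open scoped ContDiff BigOperators Matrix

namespace Pool.Agent.DC

section Mul

variable {n : ℕ}

/-- multiplication by a bounded continuous operator valued function -/
theorem exists_mul (c : E n → Op n) (hc : Continuous c) (K : ℝ) (hK : ∀ x, ‖c x‖ ≤ K) :
    ∃ M : L2 n →L[ℝ] L2 n, ‖M‖ ≤ K ∧
      ∀ v : L2 n, (M v : E n → Sp n) =ᵐ[volume] fun x => c x (v x) := by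
  have hK0 : 0 ≤ K := (norm_nonneg _).trans (hK 0)
  have hmem : ∀ v : L2 n, MemLp (fun x => c x ((v : E n → Sp n) x)) 2 (volume : Measure (E n)) := by
    intro v
    refine (Lp.memLp v).of_le_mul (c := K) ?_ ?_
    · exact (ContinuousLinearMap.id ℝ (Sp n →L[ℝ] Sp n)).aestronglyMeasurable_comp₂
        hc.aestronglyMeasurable (Lp.aestronglyMeasurable v)
    · refine Filter.Eventually.of_forall fun x => ?_
      exact (ContinuousLinearMap.le_opNorm _ _).trans
        (mul_le_mul_of_nonneg_right (hK x) (norm_nonneg _))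
  have hspec : ∀ v : L2 n, ((hmem v).toLp : E n → Sp n) =ᵐ[volume] fun x => c x (v x) :=
    fun v => MemLp.coeFn_toLp _
  let L : L2 n →ₗ[ℝ] L2 n :=
    { toFun := fun v => (hmem v).toLp
      map_add' := by
        intro v w
        apply Lp.ext
        filter_upwards [hspec v, hspec w, hspec (v + w), Lp.coeFn_add v w,
          Lp.coeFn_add ((hmem v).toLp) ((hmem w).toLp)] with x h1 h2 h3 h4 h5
        rw [h3, h5, Pi.add_apply, h1, h2, h4, Pi.add_apply, map_add]
      map_smul' := by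
        intro r v
        apply Lp.ext
        filter_upwards [hspec v, hspec (r • v), Lp.coeFn_smul r v,
          Lp.coeFn_smul r ((hmem v).toLp)] with x h1 h2 h3 h4
        rw [h2, h3]
        simp only [RingHom.id_apply]
        rw [h4, Pi.smul_apply, Pi.smul_apply, map_smul, h1] }
  have hL : ∀ v : L2 n, (L v : E n → Sp n) =ᵐ[volume] fun x => c x (v x) := hspec
  have hbd : ∀ v, ‖L v‖ ≤ K * ‖v‖ := by
    intro v
    refine Lp.norm_le_mul_norm_of_ae_le_mul ?_
    filter_upwards [hL v] with x hx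
    rw [hx]
    exact (ContinuousLinearMap.le_opNorm _ _).trans
      (mul_le_mul_of_nonneg_right (hK x) (norm_nonneg _))
  refine ⟨L.mkContinuous K hbd, L.mkContinuous_norm_le hK0 hbd, fun v => ?_⟩
  exact hL v

/-- admissible paths of coefficients -/
structure Adm (c : ℝ → E n → Op n) : Prop where
  cont : ∀ t, Continuous (c t)
  bdd : ∀ t, ∃ K, ∀ x, ‖c t x‖ ≤ K
  unif : ∀ t₀, ∀ ε : ℝ, 0 < ε → ∃ δ : ℝ, 0 < δ ∧ ∀ t, |t - t₀| < δ → ∀ x,
    ‖c t x - c t₀ x‖ ≤ ε

theorem Adm.add {c d : ℝ → E n → Op n} (hc : Adm c) (hd : Adm d) :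
    Adm fun t x => c t x + d t x := by
  refine ⟨fun t => (hc.cont t).add (hd.cont t), fun t => ?_, fun t₀ ε hε => ?_⟩
  · obtain ⟨K, hK⟩ := hc.bdd t
    obtain ⟨K', hK'⟩ := hd.bdd t
    exact ⟨K + K', fun x => (norm_add_le _ _).trans (add_le_add (hK x) (hK' x))⟩
  · obtain ⟨δ, hδ, h⟩ := hc.unif t₀ (ε / 2) (by linarith)
    obtain ⟨δ', hδ', h'⟩ := hd.unif t₀ (ε / 2) (by linarith)
    refine ⟨min δ δ', lt_min hδ hδ', fun t ht x => ?_⟩
    have e : c t x + d t x - (c t₀ x + d t₀ x) = (c t x - c t₀ x) + (d t x - d t₀ x) := by abel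
    rw [e]
    calc _ ≤ ‖c t x - c t₀ x‖ + ‖d t x - d t₀ x‖ := norm_add_le _ _
      _ ≤ ε / 2 + ε / 2 := add_le_add (h t (ht.trans_le (min_le_left _ _)) x)
          (h' t (ht.trans_le (min_le_right _ _)) x)
      _ = ε := by ring

theorem Adm.of_const_at_infinity {c : ℝ → E n → Op n}
    (hc : Continuous fun p : ℝ × E n => c p.1 p.2) (R : ℝ) (d : Op n)
    (hd : ∀ t x, R ≤ ‖x‖ → c t x = d) : Adm c := by
  refine ⟨fun t => hc.comp (Continuous.prodMk_right t), fun t => ?_, fun t₀ ε hε => ?_⟩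
  · have hcomp : IsCompact (Metric.closedBall (0 : E n) R) := isCompact_closedBall _ _
    obtain ⟨K, hK⟩ := hcomp.exists_bound_of_continuousOn
      (f := fun x => c t x) (hc.comp (Continuous.prodMk_right t)).continuousOn
    refine ⟨max K ‖d‖, fun x => ?_⟩
    rcases le_total R ‖x‖ with h | h
    · rw [hd t x h]; exact le_max_right _ _
    · exact (hK x (by simpa using h)).trans (le_max_left _ _)
  · have hcomp : IsCompact (Icc (t₀ - 1) (t₀ + 1) ×ˢ Metric.closedBall (0 : E n) R) :=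
      isCompact_Icc.prod (isCompact_closedBall _ _)
    have huc := hcomp.uniformContinuousOn_of_continuous hc.continuousOn
    rw [Metric.uniformContinuousOn_iff] at huc
    obtain ⟨δ, hδ, h⟩ := huc ε hε
    refine ⟨min δ 1, lt_min hδ one_pos, fun t ht x => ?_⟩
    rcases le_total R ‖x‖ with hx | hx
    · rw [hd t x hx, hd t₀ x hx, sub_self, norm_zero]; exact hε.le
    · have ht1 : |t - t₀| < 1 := ht.trans_le (min_le_right _ _)
      have ht2 : |t - t₀| < δ := ht.trans_le (min_le_left _ _)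
      have h1 := abs_lt.1 ht1
      have := h (t, x) ⟨⟨by linarith [h1.1], by linarith [h1.2]⟩, by simpa using hx⟩
        (t₀, x) ⟨⟨by linarith, by linarith⟩, by simpa using hx⟩ (by
          rw [Prod.dist_eq, dist_self, Real.dist_eq]
          simpa using ht2)
      rw [dist_eq_norm] at this
      exact this.le

theorem Adm.smul {s : ℝ → ℝ} (hs : Continuous s) {q : E n → Op n} (hq : Continuous q) (K : ℝ)
    (hK : ∀ x, ‖q x‖ ≤ K) : Adm fun t x => s t • q x := by
  have hK0 : 0 ≤ K := (norm_nonneg _).trans (hK 0)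
  refine ⟨fun t => hq.const_smul (s t), fun t => ⟨|s t| * K, fun x => ?_⟩, fun t₀ ε hε => ?_⟩
  · rw [norm_smul, Real.norm_eq_abs]
    exact mul_le_mul_of_nonneg_left (hK x) (abs_nonneg _)
  · have h := Metric.continuous_iff.1 hs t₀ (ε / (K + 1)) (by positivity)
    obtain ⟨δ, hδ, h⟩ := h
    refine ⟨δ, hδ, fun t ht x => ?_⟩
    have e : s t • q x - s t₀ • q x = (s t - s t₀) • q x := (sub_smul _ _ _).symm
    rw [e, norm_smul, Real.norm_eq_abs]
    have h1 := h t (by rwa [Real.dist_eq])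
    rw [Real.dist_eq] at h1
    calc |s t - s t₀| * ‖q x‖ ≤ ε / (K + 1) * K := by
          apply mul_le_mul h1.le (hK x) (norm_nonneg _) (by positivity)
      _ ≤ ε / (K + 1) * (K + 1) := by
          apply mul_le_mul_of_nonneg_left (by linarith) (by positivity)
      _ = ε := by field_simp

theorem exists_mul_path (c : ℝ → E n → Op n) (hc : Adm c) : ∃ M : ℝ → L2 n →L[ℝ] L2 n,
    Continuous M ∧ ∀ t (v : L2 n), (M t v : E n → Sp n) =ᵐ[volume] fun x => c t x (v x) := by
  choose K hK using hc.bdd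
  choose M hM1 hM2 using fun t => exists_mul (c t) (hc.cont t) (K t) (hK t)
  refine ⟨M, ?_, hM2⟩
  rw [Metric.continuous_iff]
  intro t₀ ε hε
  obtain ⟨δ, hδ, h⟩ := hc.unif t₀ (ε / 2) (by linarith)
  refine ⟨δ, hδ, fun t ht => ?_⟩
  rw [dist_eq_norm]
  refine lt_of_le_of_lt ?_ (show ε / 2 < ε by linarith)
  apply ContinuousLinearMap.opNorm_le_bound _ (by linarith)
  intro v
  refine Lp.norm_le_mul_norm_of_ae_le_mul ?_
  rw [Real.dist_eq] at ht
  filter_upwards [hM2 t v, hM2 t₀ v, Lp.coeFn_sub (M t v) (M t₀ v)] with x h1 h2 h3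
  rw [sub_apply, h3, Pi.sub_apply, h1, h2, ← sub_apply]
  exact (ContinuousLinearMap.le_opNorm _ _).trans
    (mul_le_mul_of_nonneg_right (h t ht x) (norm_nonneg _))

theorem coeFn_finsum_aux {ι : Type} (s : Finset ι) (f : ι → L2 n) :
    ((∑ i ∈ s, f i : L2 n) : E n → Sp n) =ᵐ[volume] ∑ i ∈ s, (f i : E n → Sp n) := by
  classical
  induction s using Finset.induction_on with
  | empty =>
    rw [Finset.sum_empty, Finset.sum_empty]
    exact Lp.coeFn_zero _ _ _
  | insert a s ha ih =>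
    rw [Finset.sum_insert ha, Finset.sum_insert ha]
    exact (Lp.coeFn_add _ _).trans (Filter.EventuallyEq.rfl.add ih)

/-- the operator on jets -/
theorem exists_jet_path (c : Option (Fin n ⊕ Fin n) → ℝ → E n → Op n) (hc : ∀ o, Adm (c o)) :
    ∃ T : ℝ → HH n →L[ℝ] L2 n, Continuous T ∧ ∀ t (X : HH n),
      (T t X : E n → Sp n) =ᵐ[volume] fun x => ∑ o, c o t x ((X.1 o : L2 n) x) := by
  choose M hM1 hM2 using fun o => exists_mul_path (c o) (hc o)
  let P : Option (Fin n ⊕ Fin n) → HH n →L[ℝ] L2 n := fun o =>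
    (PiLp.proj 2 (fun _ : Option (Fin n ⊕ Fin n) => L2 n) o : XX n →L[ℝ] L2 n).comp
      (HH n).subtypeL
  refine ⟨fun t => ∑ o, (M o t).comp (P o), ?_, fun t X => ?_⟩
  · refine continuous_finsetSum _ fun o _ => ?_
    exact (hM1 o).clm_comp continuous_const
  · have h1 : (∑ o, (M o t).comp (P o)) X = ∑ o, M o t (X.1 o) := by
      rw [sum_apply]
      rfl
    rw [h1]
    have h2 : ∀ᵐ x : E n, ∀ o, (M o t (X.1 o) : E n → Sp n) x = c o t x ((X.1 o : L2 n) x) := by
      rw [ae_all_iff]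
      intro o
      exact hM2 o t _
    filter_upwards [h2, coeFn_finsum_aux Finset.univ (fun o => M o t (X.1 o))] with x h3 h4
    rw [h4, Finset.sum_apply]
    exact Finset.sum_congr rfl fun o _ => h3 o

end Mul

end Pool.Agent.DC
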