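import Pool.Agent.DC.C.Stmt

/-!
# Project DC: the path of metrics, frames, operators

StPa (C14): smoothness.
-/

set_option autoImplicit false

open MeasureTheory Set
open scoped ContDiff BigOperators Matrix

namespace Pool.Agent.DC

theorem posDef_g {n : ℕ} (D : Dat n) (t : ℝ) (x : E n) : (D.g t x).PosDef := by
  have h0 := Real.smoothTransition.nonneg t
  have h1 := Real.smoothTransition.le_one t
  have hC : 0 < D.C := lt_of_lt_of_le one_pos D.hC
  unfold Dat.g
  rcases eq_or_lt_of_le h0 with h | h
  · rw [← h]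
    simp only [sub_zero, one_mul, zero_smul, add_zero]
    exact Matrix.PosDef.one.smul hC
  · have hG := (D.G.pos x).smul h
    have hI : (((1 - Real.smoothTransition t) * D.C) • (1 : Matrix (Fin n) (Fin n) ℝ)).PosSemidef :=
      Matrix.PosSemidef.one.smul (mul_nonneg (by linarith) hC.le)
    rw [add_comm]
    exact hG.add_posSemidef hI

theorem st_pa : StPa := by
  intro n D
  have hg : ∀ i j, ContDiff ℝ ∞ fun p : ℝ × E n => D.g p.1 p.2 i j := by
    intro i j
    have h1 : ContDiff ℝ ∞ fun p : ℝ × E n => Real.smoothTransition p.1 :=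
      Real.smoothTransition.contDiff.comp contDiff_fst
    have h2 : ContDiff ℝ ∞ fun p : ℝ × E n => D.G.m p.2 i j :=
      (D.G.smooth i j).comp contDiff_snd
    have : (fun p : ℝ × E n => D.g p.1 p.2 i j) = fun p : ℝ × E n =>
        ((1 - Real.smoothTransition p.1) * D.C) * (1 : Matrix (Fin n) (Fin n) ℝ) i j +
          Real.smoothTransition p.1 * D.G.m p.2 i j := by
      funext p
      simp [Dat.g, Matrix.add_apply, Matrix.smul_apply]
    rw [this]
    exact ((((contDiff_const.sub h1).mul contDiff_const).mul contDiff_const).add (h1.mul h2))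
  have hp : ∀ t x, (D.g t x).PosDef := posDef_g D
  have hf : ∀ i j, ContDiff ℝ ∞ fun p : ℝ × E n => D.f p.1 p.2 i j := by
    intro i j
    exact D.F.smooth (ℝ × E n) (fun p => D.g p.1 p.2) hg (fun p => hp p.1 p.2) i j
  have hC : 0 < D.C := lt_of_lt_of_le one_pos D.hC
  refine ⟨hg, hf, hp, fun t => ⟨fun i j => ?_, fun x => D.F.on _ (hp t x)⟩, ?_, ?_, ?_⟩
  · exact (hf i j).comp (contDiff_prodMk_right t)
  · intro t x hx
    have h : D.g t x = D.C • 1 := by
      unfold Dat.g
      rw [D.flat x hx, smul_smul, ← add_smul]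
      congr 1
      ring
    refine ⟨h, ?_⟩
    unfold Dat.f
    rw [h]
    exact D.F.flat D.C hC
  · intro x
    unfold Dat.g
    rw [Real.smoothTransition.one]
    simp
  · intro x
    unfold Dat.g
    rw [Real.smoothTransition.zero]
    simp

end Pool.Agent.DC
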