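import Pool.Agent.DC.C.Stmt

/-!
# Project DC (MP_b05a29): C22, positivity implies no kernel
-/

set_option autoImplicit false

open MeasureTheory Set
open scoped ContDiff BigOperators Matrix

namespace Pool.Agent.DC

namespace Po

/-- the square norm of a spinor valued one-form is nonnegative -/
theorem nsq_nonneg {n : ℕ} (g : MF n) (x : E n) (hg : (g x).PosDef) (v : Fin n → Sp n) :
    0 ≤ nsq g x v := by
  have h1 : nsq g x v = ∑ A : Finset (Fin n), ∑ i, ∑ j, v i A * ((g x)⁻¹ i j * v j A) := by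
    unfold nsq
    rw [Finset.sum_comm' (s := (Finset.univ : Finset (Finset (Fin n)))) (t' := Finset.univ)
      (s' := fun _ => Finset.univ) (by simp)]
    refine Finset.sum_congr rfl fun i _ => ?_
    rw [Finset.sum_comm' (s := (Finset.univ : Finset (Finset (Fin n)))) (t' := Finset.univ)
      (s' := fun _ => Finset.univ) (by simp)]
    refine Finset.sum_congr rfl fun j _ => ?_
    rw [PiLp.inner_apply, Finset.mul_sum]
    refine Finset.sum_congr rfl fun A _ => ?_
    simp only [RCLike.inner_apply, conj_trivial]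
    ring
  rw [h1]
  refine Finset.sum_nonneg fun A _ => ?_
  have h2 := hg.inv.posSemidef.dotProduct_mulVec_nonneg (fun i => v i A)
  have h3 : star (fun i => v i A) ⬝ᵥ (g x)⁻¹ *ᵥ (fun i => v i A) =
      ∑ i, ∑ j, v i A * ((g x)⁻¹ i j * v j A) := by
    simp only [dotProduct, Matrix.mulVec, Pi.star_apply, star_trivial, Finset.mul_sum]
  rw [h3] at h2
  exact h2

/-- the norm in `L2` -/
theorem norm_sq {n : ℕ} (v : L2 n) : ‖v‖ ^ 2 = ∫ x, ‖(v : E n → Sp n) x‖ ^ 2 := by
  rw [← real_inner_self_eq_norm_sq, MeasureTheory.L2.inner_def]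
  refine integral_congr_ae (Filter.Eventually.of_forall fun x => ?_)
  exact real_inner_self_eq_norm_sq _

/-- square integrability -/
theorem int_sq {n : ℕ} (v : L2 n) : Integrable fun x => ‖(v : E n → Sp n) x‖ ^ 2 := by
  have := (Lp.memLp v).integrable_norm_pow (by norm_num)
  simpa using this

/-- the volume density is between positive constants -/
theorem vol_bd {n : ℕ} (D : Dat n) (h5 : StSm) :
    ∃ a b : ℝ, 0 < a ∧ ∀ x, a ≤ vol D.G.m x ∧ vol D.G.m x ≤ b := by
  obtain ⟨-, -, -, -, hc, hp, -⟩ := h5 n D.G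
  have hK : IsCompact (Metric.closedBall (0 : E n) D.R) := isCompact_closedBall _ _
  have hout : ∀ x : E n, D.R ≤ ‖x‖ → vol D.G.m x = Real.sqrt (D.C • (1 : Matrix (Fin n) (Fin n) ℝ)).det := by
    intro x hx
    unfold vol
    rw [D.flat x hx]
  have hC : 0 < Real.sqrt (D.C • (1 : Matrix (Fin n) (Fin n) ℝ)).det := by
    rw [Matrix.det_smul, Matrix.det_one, mul_one]
    exact Real.sqrt_pos.2 (pow_pos (lt_of_lt_of_le one_pos D.hC) _)
  by_cases hne : (Metric.closedBall (0 : E n) D.R).Nonempty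
  · obtain ⟨y, hy, hy2⟩ := hK.exists_isMinOn hne hc.continuous.continuousOn
    obtain ⟨z, hz, hz2⟩ := hK.exists_isMaxOn hne hc.continuous.continuousOn
    refine ⟨min (vol D.G.m y) (Real.sqrt (D.C • (1 : Matrix (Fin n) (Fin n) ℝ)).det),
      max (vol D.G.m z) (Real.sqrt (D.C • (1 : Matrix (Fin n) (Fin n) ℝ)).det),
      lt_min (hp y) hC, fun x => ?_⟩
    rcases le_total D.R ‖x‖ with hx | hx
    · rw [hout x hx]
      exact ⟨min_le_right _ _, le_max_right _ _⟩
    · have hx' : x ∈ Metric.closedBall (0 : E n) D.R := by simpa using hx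
      exact ⟨le_trans (min_le_left _ _) (hy2 hx'), le_trans (hz2 hx') (le_max_left _ _)⟩
  · refine ⟨Real.sqrt (D.C • (1 : Matrix (Fin n) (Fin n) ℝ)).det,
      Real.sqrt (D.C • (1 : Matrix (Fin n) (Fin n) ℝ)).det, hC, fun x => ?_⟩
    have hx : D.R ≤ ‖x‖ := by
      by_contra hcon
      exact hne ⟨x, by simpa using (not_le.1 hcon).le⟩
    rw [hout x hx]
    exact ⟨le_rfl, le_rfl⟩

/-- the potential is smooth -/
theorem phi_smooth {n : ℕ} (D : Dat n) (t : ℝ) : ContDiff ℝ ∞ (D.φ t) := by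
  unfold Dat.φ
  exact (contDiff_id.const_smul _).add (D.smooth.const_smul _)

/-- components of a smooth map -/
theorem comp_smooth {n : ℕ} {φ : E n → E n} (h : ContDiff ℝ ∞ φ) (a : Fin n) :
    ContDiff ℝ ∞ fun x => φ x a := by
  exact (contDiff_euclidean.1 h) a

/-- partial derivatives are continuous -/
theorem pd_cont {n : ℕ} {F : Type} [NormedAddCommGroup F] [NormedSpace ℝ F] {h : E n → F}
    (hh : ContDiff ℝ ∞ h) (i : Fin n) : Continuous (pd i h) := by
  unfold pd
  exact (hh.continuous_fderiv (by simp)).clm_apply continuous_const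

/-- the right hand side of the Lichnerowicz identity -/
noncomputable def rhs {n : ℕ} (g f : MF n) (φ : E n → E n) (u : E n → Sp n) (x : E n) : ℝ :=
  (nsq g x (fun i => nab g f i u x) +
      (scal g x / 4 + ‖φ x‖ ^ 2) * ‖u x‖ ^ 2 +
      inner ℝ ((∑ a, ∑ i, pd i (fun y => φ y a) x • (gi f i x * Gm a)) (u x)) (u x)) *
        vol g x

/-- the right hand side of the Lichnerowicz identity is continuous -/
theorem rhs_cont {n : ℕ} (h5 : StSm) (G : Metric n) {f : MF n} (hf : IsFrame G.m f)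
    {φ : E n → E n} (hφ : ContDiff ℝ ∞ φ) {u : E n → Sp n} (hu : ContDiff ℝ ∞ u) :
    Continuous (rhs G.m f φ u) := by
  obtain ⟨hinv, -, -, hscal, hvol, -, h7⟩ := h5 n G
  obtain ⟨-, -, hgi, hn⟩ := h7 f hf
  obtain ⟨hnab, -⟩ := hn u hu
  unfold rhs
  refine Continuous.mul (Continuous.add (Continuous.add ?_ ?_) ?_) hvol.continuous
  · unfold nsq
    refine continuous_finsetSum _ fun i _ => continuous_finsetSum _ fun j _ => ?_
    exact (hinv i j).continuous.mul ((hnab i).continuous.inner (hnab j).continuous)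
  · exact ((hscal.continuous.div_const _).add (hφ.continuous.norm.pow 2)).mul
      (hu.continuous.norm.pow 2)
  · refine Continuous.inner ?_ hu.continuous
    refine Continuous.clm_apply ?_ hu.continuous
    refine continuous_finsetSum _ fun a _ => continuous_finsetSum _ fun i _ => ?_
    exact (pd_cont (comp_smooth hφ a) i).smul ((hgi i).continuous.mul continuous_const)

/-- outside the support of `u` the right hand side of the Lichnerowicz identity vanishes -/
theorem rhs_supp {n : ℕ} (g f : MF n) (φ : E n → E n) {u : E n → Sp n}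
    (hs : HasCompactSupport u) : HasCompactSupport (rhs g f φ u) := by
  refine HasCompactSupport.intro hs fun x hx => ?_
  have h1 : u x = 0 := image_eq_zero_of_notMem_tsupport hx
  have h2 : fderiv ℝ u x = 0 := by
    have := tsupport_fderiv_subset ℝ (f := u)
    exact image_eq_zero_of_notMem_tsupport fun h => hx (this h)
  have h3 : ∀ i, nab g f i u x = 0 := by
    intro i
    unfold nab pd
    rw [h1, h2]
    simp
  unfold rhs nsq
  simp only [h3, h1, inner_zero_left, mul_zero, Finset.sum_const_zero, norm_zero, map_zero]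
  simp

/-- the inequality for test functions -/
theorem test_ineq {n : ℕ} (h5 : StSm) (h12 : StLi) (h13 : StPb) (D : Dat n) (f : MF n)
    (hf : IsFrame D.G.m f) {δ : ℝ} (hδ0 : 0 < δ) (hδ : ∀ x, δ ≤ lowb D x) {a b : ℝ} (ha : 0 < a)
    (hab : ∀ x, a ≤ vol D.G.m x ∧ vol D.G.m x ≤ b) (u : E n → Sp n) (hu : Tst u) (v : L2 n)
    (hv : (v : E n → Sp n) =ᵐ[volume] dB D.G.m f (D.φ 1) u) :
    δ * a * ∫ x, ‖u x‖ ^ 2 ≤ b * ‖v‖ ^ 2 := by
  have hint : Integrable (rhs D.G.m f (D.φ 1) u) :=
    (rhs_cont h5 D.G hf (phi_smooth D 1) hu.smooth).integrable_of_hasCompactSupport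
      (rhs_supp _ _ _ hu.supp)
  have hli := h12 n D.G f hf (D.φ 1) (phi_smooth D 1) u hu
  have h1 : δ * a * ∫ x, ‖u x‖ ^ 2 ≤ ∫ x, rhs D.G.m f (D.φ 1) u x := by
    rw [← integral_const_mul]
    refine integral_mono_of_nonneg (Filter.Eventually.of_forall fun x => ?_) hint
      (Filter.Eventually.of_forall fun x => ?_)
    · positivity
    · have e1 := nsq_nonneg D.G.m x (D.G.pos x) (fun i => nab D.G.m f i u x)
      have e2 := h13 n D.G f hf (D.φ 1) (phi_smooth D 1) x (u x)
      have e3 := (abs_le.1 e2).1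
      have e4 := hδ x
      have e5 : δ * ‖u x‖ ^ 2 ≤ nsq D.G.m x (fun i => nab D.G.m f i u x) +
          (scal D.G.m x / 4 + ‖D.φ 1 x‖ ^ 2) * ‖u x‖ ^ 2 +
          inner ℝ ((∑ a, ∑ i, pd i (fun y => D.φ 1 y a) x • (gi f i x * Gm a)) (u x)) (u x) := by
        have e6 : δ * ‖u x‖ ^ 2 ≤ lowb D x * ‖u x‖ ^ 2 :=
          mul_le_mul_of_nonneg_right e4 (by positivity)
        unfold lowb at e6
        nlinarith [e6, e3, e1]
      show δ * a * ‖u x‖ ^ 2 ≤ rhs D.G.m f (D.φ 1) u x
      unfold rhs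
      calc δ * a * ‖u x‖ ^ 2 = (δ * ‖u x‖ ^ 2) * a := by ring
        _ ≤ (δ * ‖u x‖ ^ 2) * vol D.G.m x :=
            mul_le_mul_of_nonneg_left (hab x).1 (by positivity)
        _ ≤ _ := mul_le_mul_of_nonneg_right e5 (le_trans ha.le (hab x).1)
  have h2 : ∫ x, ‖dB D.G.m f (D.φ 1) u x‖ ^ 2 * vol D.G.m x ≤ b * ‖v‖ ^ 2 := by
    rw [norm_sq, ← integral_const_mul]
    refine integral_mono_of_nonneg (Filter.Eventually.of_forall fun x => ?_)
      ((int_sq v).const_mul b) ?_
    · exact mul_nonneg (by positivity) (le_trans ha.le (hab x).1)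
    · filter_upwards [hv] with x hx
      rw [hx, mul_comm]
      exact mul_le_mul_of_nonneg_right (hab x).2 (by positivity)
  calc δ * a * ∫ x, ‖u x‖ ^ 2 ≤ ∫ x, rhs D.G.m f (D.φ 1) u x := h1
    _ = ∫ x, ‖dB D.G.m f (D.φ 1) u x‖ ^ 2 * vol D.G.m x := by
      rw [hli]
      rfl
    _ ≤ _ := h2

end Po

/-- C22: positivity implies no kernel -/
theorem stPo (h0 : StJe) (h5 : StSm) (h12 : StLi) (h13 : StPb) (h14 : StPa) (h17 : StRe) :
    StPo := by
  intro n D T hT hpos X hX
  obtain ⟨δ, hδ0, hδ⟩ := hpos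
  obtain ⟨a, b, ha, hab⟩ := Po.vol_bd D h5
  obtain ⟨-, -, -, hfr, -, hg1, -⟩ := h14 n D
  have hg : D.g 1 = D.G.m := funext hg1
  have hf : IsFrame D.G.m (D.f 1) := by
    have := hfr 1
    rwa [hg] at this
  obtain ⟨-, -, hdens, -, -, -, hJ⟩ := h0 n
  have key : ∀ X : HH n, δ * a * ‖JJ n X‖ ^ 2 ≤ b * ‖T 1 X‖ ^ 2 := by
    refine hdens _ ?_ ?_
    · exact isClosed_le (continuous_const.mul ((JJ n).continuous.norm.pow 2))
        (continuous_const.mul ((T 1).continuous.norm.pow 2))
    · intro u Y hu hY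
      have hv : (T 1 Y : E n → Sp n) =ᵐ[volume] dB D.G.m (D.f 1) (D.φ 1) u := by
        have := hT.2 1 u Y hu hY
        unfold Dat.B at this
        rwa [hg] at this
      have h1 := Po.test_ineq h5 h12 h13 D (D.f 1) hf hδ0 hδ ha hab u hu (T 1 Y) hv
      have h2 : ‖JJ n Y‖ ^ 2 = ∫ x, ‖u x‖ ^ 2 := by
        rw [Po.norm_sq]
        refine integral_congr_ae ?_
        have h3 : (JJ n Y : E n → Sp n) =ᵐ[volume] u := by
          rw [hJ Y]
          exact hY none
        filter_upwards [h3] with x hx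
        rw [hx]
      rw [h2]
      exact h1
  have h4 := key X
  rw [hX, norm_zero] at h4
  have h5' : ‖JJ n X‖ ^ 2 ≤ 0 := by
    have h6 : 0 < δ * a := mul_pos hδ0 ha
    by_contra hcon
    have h7 := mul_pos h6 (not_le.1 hcon)
    simp at h4
    linarith
  have h8 : JJ n X = 0 := by
    have : ‖JJ n X‖ = 0 := by
      have := le_antisymm h5' (by positivity)
      exact pow_eq_zero_iff (two_ne_zero) |>.1 this
    exact norm_eq_zero.1 this
  exact (h17 n).2 (by rw [h8, map_zero])

end Pool.Agent.DC
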