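import Mathlib

/-!
# Project DC, block C: the one-variable potential

`exists_T`: an odd smooth function with `0 ≤ T' ≤ a ^ 2 + T ^ 2`, constant and `≥ Λ` for
`s ≥ π / (2 a)`. `exists_b`: an odd smooth function, zero on `[-1, 1]`, of linear growth.
-/

set_option autoImplicit false

namespace Pool.Agent.DC.C

open Real MeasureTheory intervalIntegral
open scoped ContDiff

section cut

variable (L : ℝ)

/-- the cut-off `δ`: `0` for `v ≤ L`, `1` for `v ≥ 2 L` -/
noncomputable def cutD (v : ℝ) : ℝ := smoothTransition ((v - L) / L)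

/-- the derivative of `cutG` -/
noncomputable def cutH (v : ℝ) : ℝ := 1 - cutD L v - cutD L (-v)

/-- the bending function -/
noncomputable def cutG (y : ℝ) : ℝ := ∫ v in (0 : ℝ)..y, cutH L v

theorem contDiff_cutD : ContDiff ℝ ∞ (cutD L) :=
  smoothTransition.contDiff.comp ((contDiff_id.sub contDiff_const).div_const _)

theorem contDiff_cutH : ContDiff ℝ ∞ (cutH L) :=
  (contDiff_const.sub (contDiff_cutD L)).sub ((contDiff_cutD L).comp contDiff_neg)

variable {L}

theorem cutD_nonneg (v : ℝ) : 0 ≤ cutD L v := smoothTransition.nonneg _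

theorem cutD_le_one (v : ℝ) : cutD L v ≤ 1 := smoothTransition.le_one _

theorem cutD_mono (hL : 0 < L) : Monotone (cutD L) := by
  intro v w h
  apply smoothTransition.monotone
  have : v - L ≤ w - L := by linarith
  exact div_le_div_of_nonneg_right this hL.le

theorem cutD_zero (hL : 0 < L) {v : ℝ} (h : v ≤ L) : cutD L v = 0 := by
  apply smoothTransition.zero_of_nonpos
  exact div_nonpos_of_nonpos_of_nonneg (by linarith) hL.le

theorem cutD_one (hL : 0 < L) {v : ℝ} (h : 2 * L ≤ v) : cutD L v = 1 := by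
  apply smoothTransition.one_of_one_le
  rw [le_div_iff₀ hL]
  linarith

theorem cutH_even (v : ℝ) : cutH L (-v) = cutH L v := by
  unfold cutH
  rw [neg_neg]
  ring

theorem cutH_of_nonneg (hL : 0 < L) {v : ℝ} (h : 0 ≤ v) : cutH L v = 1 - cutD L v := by
  unfold cutH
  rw [cutD_zero hL (show -v ≤ L by linarith), sub_zero]

theorem cutH_nonneg (hL : 0 < L) (v : ℝ) : 0 ≤ cutH L v := by
  rcases le_total 0 v with h | h
  · rw [cutH_of_nonneg hL h]
    have := cutD_le_one (L := L) v
    linarith
  · rw [← cutH_even, cutH_of_nonneg hL (by linarith)]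
    have := cutD_le_one (L := L) (-v)
    linarith

theorem hasDerivAt_cutG (y : ℝ) : HasDerivAt (cutG L) (cutH L y) y := by
  have hc : Continuous (cutH L) := (contDiff_cutH L).continuous
  exact integral_hasDerivAt_right (hc.intervalIntegrable _ _)
    (hc.stronglyMeasurableAtFilter _ _) hc.continuousAt

theorem deriv_cutG : deriv (cutG L) = cutH L := funext fun y => (hasDerivAt_cutG y).deriv

theorem contDiff_cutG : ContDiff ℝ ∞ (cutG L) := by
  rw [contDiff_infty_iff_deriv]
  exact ⟨fun y => (hasDerivAt_cutG y).differentiableAt, by rw [deriv_cutG]; exact contDiff_cutH L⟩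

theorem cutG_zero : cutG L 0 = 0 := by unfold cutG; simp

theorem cutG_odd (y : ℝ) : cutG L (-y) = -cutG L y := by
  have h : ∀ z, HasDerivAt (fun z => cutG L (-z) + cutG L z) 0 z := by
    intro z
    have h1 := (hasDerivAt_cutG (L := L) (-z)).comp z (hasDerivAt_neg z)
    have h2 := h1.add (hasDerivAt_cutG (L := L) z)
    rw [cutH_even] at h2
    have h3 : cutH L z * -1 + cutH L z = 0 := by ring
    rw [h3] at h2
    exact h2
  have h4 : (fun z => cutG L (-z) + cutG L z) y = (fun z => cutG L (-z) + cutG L z) 0 :=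
    is_const_of_deriv_eq_zero (fun z => (h z).differentiableAt) (fun z => (h z).deriv) y 0
  simp only [neg_zero, cutG_zero] at h4
  linarith

theorem cutG_mono (hL : 0 < L) : Monotone (cutG L) :=
  monotone_of_hasDerivAt_nonneg hasDerivAt_cutG (cutH_nonneg hL)

theorem cutG_le {y : ℝ} (hL : 0 < L) (h : y ≤ L) (h0 : 0 ≤ y) : cutG L y = y := by
  unfold cutG
  have : ∀ v ∈ Set.uIcc 0 y, cutH L v = 1 := by
    intro v hv
    rw [Set.uIcc_of_le h0] at hv
    rw [cutH_of_nonneg hL hv.1, cutD_zero hL (hv.2.trans h), sub_zero]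
  rw [integral_congr this]
  simp

theorem cutG_const {y : ℝ} (hL : 0 < L) (h : 2 * L ≤ y) : cutG L y = cutG L (2 * L) := by
  unfold cutG
  have hc : Continuous (cutH L) := (contDiff_cutH L).continuous
  rw [← integral_add_adjacent_intervals (hc.intervalIntegrable 0 (2 * L))
    (hc.intervalIntegrable (2 * L) y)]
  have : ∀ v ∈ Set.uIcc (2 * L) y, cutH L v = (fun _ => (0 : ℝ)) v := by
    intro v hv
    rw [Set.uIcc_of_le h] at hv
    rw [cutH_of_nonneg hL (by linarith [hv.1]), cutD_one hL hv.1, sub_self]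
  rw [integral_congr this]
  simp

theorem cutG_ge {y : ℝ} (hL : 0 < L) (h : L ≤ y) : y - (y - L) * cutD L y ≤ cutG L y := by
  have hc : Continuous (cutH L) := (contDiff_cutH L).continuous
  have h1 : cutG L y = cutG L L + ∫ v in L..y, cutH L v := by
    unfold cutG
    rw [integral_add_adjacent_intervals (hc.intervalIntegrable _ _) (hc.intervalIntegrable _ _)]
  have h2 : ∫ _ in L..y, (1 - cutD L y) ≤ ∫ v in L..y, cutH L v := by
    apply integral_mono_on h (by simp) (hc.intervalIntegrable _ _)
    intro v hv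
    rw [cutH_of_nonneg hL (by linarith [hv.1])]
    have := cutD_mono hL hv.2
    linarith
  rw [intervalIntegral.integral_const, smul_eq_mul] at h2
  rw [h1, cutG_le hL le_rfl hL.le]
  nlinarith

theorem le_cutG (hL : 0 < L) : L ≤ cutG L (2 * L) := by
  have := cutG_mono hL (show L ≤ 2 * L by linarith)
  rwa [cutG_le hL le_rfl hL.le] at this

theorem abs_cutG_le (hL : 0 < L) (y : ℝ) : |cutG L y| ≤ cutG L (2 * L) := by
  have key : ∀ z, cutG L z ≤ cutG L (2 * L) := by
    intro z
    rcases le_total z (2 * L) with h | h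
    · exact cutG_mono hL h
    · rw [cutG_const hL h]
  rw [abs_le]
  refine ⟨?_, key y⟩
  have := key (-y)
  rw [cutG_odd] at this
  linarith

/-- the differential inequality -/
theorem cut_ineq (hL : 0 < L) (a y : ℝ) : cutH L y * (a ^ 2 + y ^ 2) ≤ a ^ 2 + cutG L y ^ 2 := by
  have key : ∀ z, 0 ≤ z → cutH L z * (a ^ 2 + z ^ 2) ≤ a ^ 2 + cutG L z ^ 2 := by
    intro z hz
    rw [cutH_of_nonneg hL hz]
    rcases le_total z L with h | h
    · rw [cutD_zero hL h, cutG_le hL h hz]
      linarith
    rcases le_total z (2 * L) with h2 | h2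
    · have h3 := cutG_ge hL h
      have h4 := cutD_nonneg (L := L) z
      have h5 := cutD_le_one (L := L) z
      set d := cutD L z
      have h6 : 0 ≤ z - (z - L) * d := by nlinarith
      have h7 : (z - (z - L) * d) ^ 2 ≤ cutG L z ^ 2 := pow_le_pow_left₀ h6 h3 2
      have h8 : 0 ≤ d * (a ^ 2 + z * (2 * L - z)) := by
        have : 0 ≤ z * (2 * L - z) := mul_nonneg hz (by linarith)
        positivity
      nlinarith [sq_nonneg ((z - L) * d)]
    · rw [cutD_one hL h2]
      have : 0 ≤ a ^ 2 + cutG L z ^ 2 := by positivity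
      linarith
  rcases le_total 0 y with h | h
  · exact key y h
  · have := key (-y) (by linarith)
    rw [cutH_even, cutG_odd, neg_sq, neg_sq] at this
    exact this

end cut

/-- **The potential.** -/
theorem exists_T (a L : ℝ) (ha : 0 < a) (hL : 0 < L) : ∃ (T : ℝ → ℝ) (C : ℝ), L ≤ C ∧
    ContDiff ℝ ∞ T ∧ (∀ s, T (-s) = -T s) ∧ (∀ s, 0 ≤ deriv T s) ∧
    (∀ s, deriv T s ≤ a ^ 2 + T s ^ 2) ∧ (∀ s, |T s| ≤ C) ∧
    (∀ s, π / (2 * a) ≤ s → T s = C) ∧ (∀ s, s ≤ -(π / (2 * a)) → T s = -C) ∧
    (∀ s, π / (2 * a) ≤ |s| → deriv T s = 0) := by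
  set S : ℝ := π / (2 * a) with hS
  have hSpos : 0 < S := by positivity
  have haS : a * S = π / 2 := by rw [hS]; field_simp
  set C : ℝ := cutG L (2 * L) with hC
  have hLC : L ≤ C := le_cutG hL
  -- the point where the bending is finished
  set s₁ : ℝ := arctan (2 * L / a) / a with hs₁
  have hs₁pos : 0 < s₁ := div_pos (arctan_pos.2 (by positivity)) ha
  have hs₁S : s₁ < S := by
    have h1 : S * a = π / 2 := by rw [mul_comm]; exact haS
    rw [hs₁, div_lt_iff₀ ha, h1]
    exact arctan_lt_pi_div_two _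
  set T : ℝ → ℝ := fun s => if |s| < S then cutG L (a * tan (a * s)) else
    if 0 < s then C else -C with hT
  have hTin : ∀ s, |s| < S → T s = cutG L (a * tan (a * s)) := fun s h => by
    rw [hT]; simp only [h, if_true]
  have hodd : ∀ s, T (-s) = -T s := by
    intro s
    by_cases h : |s| < S
    · rw [hTin s h, hTin (-s) (by rwa [abs_neg]), mul_neg, tan_neg, mul_neg, cutG_odd]
    · have h' : ¬ |(-s)| < S := by rwa [abs_neg]
      have hs0 : s ≠ 0 := by
        rintro rfl
        simp only [abs_zero, not_lt] at h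
        linarith
      rw [hT]
      simp only [h, h', if_false]
      rcases lt_or_gt_of_ne hs0 with h0 | h0
      · rw [if_pos (by linarith), if_neg (by linarith), neg_neg]
      · rw [if_neg (by linarith), if_pos h0]
  have hright : ∀ s, s₁ ≤ s → T s = C := by
    intro s hs
    by_cases h : |s| < S
    · rw [hTin s h, hC]
      apply cutG_const hL
      have h1 : s < S := (le_abs_self s).trans_lt h
      have h2 : a * s < π / 2 := by rw [← haS]; exact mul_lt_mul_of_pos_left h1 ha
      have h3 : arctan (2 * L / a) ≤ a * s := by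
        rw [hs₁, div_le_iff₀ ha] at hs
        linarith
      have h4 : tan (arctan (2 * L / a)) ≤ tan (a * s) := by
        rcases eq_or_lt_of_le h3 with h5 | h5
        · rw [h5]
        · exact (tan_lt_tan_of_lt_of_lt_pi_div_two (neg_pi_div_two_lt_arctan _) h2 h5).le
      rw [tan_arctan, div_le_iff₀ ha] at h4
      linarith
    · rw [hT]
      simp only [h, if_false]
      rw [if_pos (by linarith)]
  have hleft : ∀ s, s ≤ -s₁ → T s = -C := by
    intro s hs
    have := hright (-s) (by linarith)
    rw [hodd] at this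
    linarith
  -- derivative inside
  have hcos : ∀ s, |s| < S → cos (a * s) ≠ 0 := by
    intro s h
    rw [abs_lt] at h
    refine (cos_pos_of_mem_Ioo ⟨?_, ?_⟩).ne'
    · rw [← haS, ← mul_neg]; exact mul_lt_mul_of_pos_left h.1 ha
    · rw [← haS]; exact mul_lt_mul_of_pos_left h.2 ha
  have hev : ∀ s, |s| < S → T =ᶠ[nhds s] fun s => cutG L (a * tan (a * s)) := by
    intro s h
    have : IsOpen {s : ℝ | |s| < S} := isOpen_lt continuous_abs continuous_const
    filter_upwards [this.mem_nhds h] with r hr using hTin r hr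
  have hevr : ∀ s, s₁ < s → T =ᶠ[nhds s] fun _ => C := by
    intro s h
    filter_upwards [isOpen_Ioi.mem_nhds h] with r hr using hright r (le_of_lt hr)
  have hevl : ∀ s, s < -s₁ → T =ᶠ[nhds s] fun _ => -C := by
    intro s h
    filter_upwards [isOpen_Iio.mem_nhds h] with r hr using hleft r (le_of_lt hr)
  have hder : ∀ s, |s| < S → HasDerivAt T
      (cutH L (a * tan (a * s)) * (a ^ 2 + (a * tan (a * s)) ^ 2)) s := by
    intro s h
    have h1 : HasDerivAt (fun s => a * tan (a * s)) (a * (1 / cos (a * s) ^ 2 * a)) s := by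
      have h2 := (hasDerivAt_tan (hcos s h)).comp s ((hasDerivAt_id s).const_mul a)
      simp only [mul_one] at h2
      exact h2.const_mul a
    have h3 := (hasDerivAt_cutG (L := L) (a * tan (a * s))).comp s h1
    have h4 : a * (1 / cos (a * s) ^ 2 * a) = a ^ 2 + (a * tan (a * s)) ^ 2 := by
      rw [tan_eq_sin_div_cos]
      have := hcos s h
      have h5 := sin_sq_add_cos_sq (a * s)
      field_simp
      linarith
    rw [h4] at h3
    exact h3.congr_of_eventuallyEq (hev s h)
  have hcase : ∀ s : ℝ, |s| < S ∨ s₁ < s ∨ s < -s₁ := by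
    intro s
    by_cases h : |s| < S
    · exact Or.inl h
    · right
      rw [not_lt] at h
      rcases le_total 0 s with h0 | h0
      · rw [abs_of_nonneg h0] at h
        left; linarith
      · rw [abs_of_nonpos h0] at h
        right; linarith
  refine ⟨T, C, hLC, ?_, hodd, ?_, ?_, ?_, ?_, ?_, ?_⟩
  · rw [contDiff_iff_contDiffAt]
    intro s
    rcases hcase s with h | h | h
    · have h1 : ContDiffAt ℝ ∞ (fun s => cutG L (a * tan (a * s))) s := by
        apply contDiff_cutG.contDiffAt.comp
        apply contDiffAt_const.mul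
        have h2 : ContDiffAt ℝ ∞ tan (a * s) := contDiffAt_tan.2 (hcos s h)
        exact h2.comp s (contDiffAt_const.mul contDiffAt_id)
      exact h1.congr_of_eventuallyEq (hev s h)
    · exact contDiffAt_const.congr_of_eventuallyEq (hevr s h)
    · exact contDiffAt_const.congr_of_eventuallyEq (hevl s h)
  · intro s
    rcases hcase s with h | h | h
    · rw [(hder s h).deriv]
      exact mul_nonneg (cutH_nonneg hL _) (by positivity)
    · rw [(hevr s h).deriv_eq]; simp
    · rw [(hevl s h).deriv_eq]; simp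
  · intro s
    rcases hcase s with h | h | h
    · rw [(hder s h).deriv, hTin s h]
      exact cut_ineq hL a _
    · rw [(hevr s h).deriv_eq]; simp; positivity
    · rw [(hevl s h).deriv_eq]; simp; positivity
  · intro s
    rcases hcase s with h | h | h
    · rw [hTin s h]; exact abs_cutG_le hL _
    · rw [hright s h.le, abs_of_nonneg (hL.le.trans hLC)]
    · rw [hleft s h.le, abs_neg, abs_of_nonneg (hL.le.trans hLC)]
  · intro s hs
    exact hright s (by linarith)
  · intro s hs
    exact hleft s (by linarith)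
  · intro s hs
    rcases le_total 0 s with h0 | h0
    · rw [abs_of_nonneg h0] at hs
      rw [(hevr s (by linarith)).deriv_eq]; simp
    · rw [abs_of_nonpos h0] at hs
      rw [(hevl s (by linarith)).deriv_eq]; simp

/-- **The growth function.** -/
theorem exists_b : ∃ (b : ℝ → ℝ) (C : ℝ), 0 ≤ C ∧ ContDiff ℝ ∞ b ∧ (∀ s, b (-s) = -b s) ∧
    (∀ s, 0 ≤ deriv b s) ∧ (∀ s, deriv b s ≤ 1) ∧ (∀ s, |s| ≤ 1 → b s = 0) ∧
    (∀ s, 2 ≤ s → b s = s - C) ∧ (∀ s, s ≤ -2 → b s = s + C) ∧ (∀ s, |b s - s| ≤ C) ∧
    (∀ s, 0 ≤ s → 0 ≤ b s) ∧ (∀ s, 2 ≤ |s| → deriv b s = 1) := by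
  have hL : (0 : ℝ) < 1 := one_pos
  have hd : ∀ s, HasDerivAt (fun s : ℝ => s - cutG 1 s) (1 - cutH 1 s) s := fun s =>
    (hasDerivAt_id s).sub (hasDerivAt_cutG s)
  have hH1 : ∀ s, 0 ≤ s → cutH 1 s ≤ 1 := by
    intro s h
    rw [cutH_of_nonneg hL h]
    have := cutD_nonneg (L := 1) s
    linarith
  have hH : ∀ s, cutH 1 s ≤ 1 := by
    intro s
    rcases le_total 0 s with h | h
    · exact hH1 s h
    · rw [← cutH_even]; exact hH1 _ (by linarith)
  have hH0 : ∀ s : ℝ, 2 ≤ s → cutH 1 s = 0 := by
    intro s h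
    rw [cutH_of_nonneg hL (by linarith), cutD_one hL (by linarith), sub_self]
  have hodd : ∀ s : ℝ, -s - cutG 1 (-s) = -(s - cutG 1 s) := by
    intro s; rw [cutG_odd]; ring
  have hz : ∀ s : ℝ, |s| ≤ 1 → s - cutG 1 s = 0 := by
    intro s h
    rw [abs_le] at h
    rcases le_total 0 s with h0 | h0
    · rw [cutG_le hL h.2 h0, sub_self]
    · have h1 := cutG_le (L := 1) hL (show -s ≤ 1 by linarith) (by linarith)
      rw [cutG_odd] at h1
      linarith
  refine ⟨fun s => s - cutG 1 s, cutG 1 2, ?_, contDiff_id.sub contDiff_cutG, hodd, ?_, ?_, hz,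
    ?_, ?_, ?_, ?_, ?_⟩
  · have := le_cutG hL
    rw [mul_one] at this
    linarith
  · intro s; rw [(hd s).deriv]; linarith [hH s]
  · intro s; rw [(hd s).deriv]; linarith [cutH_nonneg hL s]
  · intro s h
    have := cutG_const (L := 1) hL (show 2 * 1 ≤ s by linarith)
    rw [mul_one] at this
    simp only [this]
  · intro s h
    have := cutG_const (L := 1) hL (show 2 * 1 ≤ -s by linarith)
    rw [mul_one, cutG_odd] at this
    simp only
    linarith
  · intro s
    have := abs_cutG_le hL s
    rw [mul_one] at this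
    simpa using this
  · intro s h
    have hm : Monotone (fun s : ℝ => s - cutG 1 s) :=
      monotone_of_hasDerivAt_nonneg hd fun s => by
        show 0 ≤ 1 - cutH 1 s
        linarith [hH s]
    have := hm h
    simpa [cutG_zero] using this
  · intro s h
    rw [(hd s).deriv]
    rcases le_total 0 s with h0 | h0
    · rw [abs_of_nonneg h0] at h
      rw [hH0 s h, sub_zero]
    · rw [abs_of_nonpos h0] at h
      rw [← cutH_even, hH0 _ h, sub_zero]

end Pool.Agent.DC.C
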