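import Pool.Agent.DC.C.Stmt

/-!
# Project DC (MP_b05a29): symmetries of the curvature
-/

set_option autoImplicit false

open MeasureTheory Set
open scoped ContDiff BigOperators Matrix

namespace Pool.Agent.DC

namespace Rm

/-- partial derivatives commute -/
theorem pd_comm {n : ℕ} {f : E n → ℝ} (hf : ContDiff ℝ ∞ f) (i j : Fin n) (x : E n) :
    pd i (pd j f) x = pd j (pd i f) x := by
  have hd : DifferentiableAt ℝ (fderiv ℝ f) x :=
    ((hf.fderiv_right (m := 1) (by norm_cast)).differentiable (by norm_num)).differentiableAt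
  have h : ∀ i j : Fin n, pd i (pd j f) x = fderiv ℝ (fderiv ℝ f) x (ev i) (ev j) := by
    intro i j
    have : pd j f = fun y => fderiv ℝ f y (ev j) := rfl
    rw [this]
    unfold pd
    rw [fderiv_clm_apply hd (differentiableAt_const _)]
    simp
  rw [h, h]
  exact (hf.contDiffAt.isSymmSndFDerivAt (by simp; norm_cast)) _ _

/-- derivative of a product -/
theorem pd_mul {n : ℕ} {f h : E n → ℝ} (i : Fin n) (x : E n) (hf : DifferentiableAt ℝ f x)
    (hh : DifferentiableAt ℝ h x) :
    pd i (fun y => f y * h y) x = pd i f x * h x + f x * pd i h x := by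
  unfold pd
  rw [fderiv_fun_mul hf hh]
  simp
  ring

/-- derivative of a sum -/
theorem pd_add {n : ℕ} {f h : E n → ℝ} (i : Fin n) (x : E n) (hf : DifferentiableAt ℝ f x)
    (hh : DifferentiableAt ℝ h x) :
    pd i (fun y => f y + h y) x = pd i f x + pd i h x := by
  unfold pd
  rw [fderiv_fun_add hf hh]
  simp

/-- derivative of a finite sum -/
theorem pd_sum {n : ℕ} {ι : Type} [Fintype ι] {f : ι → E n → ℝ} (i : Fin n) (x : E n)
    (hf : ∀ p, DifferentiableAt ℝ (f p) x) :
    pd i (fun y => ∑ p, f p y) x = ∑ p, pd i (f p) x := by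
  unfold pd
  rw [fderiv_fun_sum (fun p _ => hf p)]
  simp

end Rm

/-- symmetries of the curvature -/
theorem stRm (h5 : StSm) (h6 : StLc) : StRm := by
  intro n g i j k l x
  obtain ⟨-, hchr, -⟩ := h5 n g
  have hsym : ∀ a b c : Fin n, chr g.m a b c = chr g.m a c b := fun a b c =>
    funext fun y => (h6 n g b c a y).1
  refine ⟨?_, ?_, ?_⟩
  · unfold riem
    rw [Finset.sum_sub_distrib, Finset.sum_sub_distrib]
    ring
  · unfold riem
    simp only [Finset.sum_sub_distrib]
    rw [hsym k l i, hsym k l j, hsym k j i]
    have h1 : ∀ p : Fin n, chr g.m p l i x = chr g.m p i l x := fun p => by rw [hsym p l i]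
    have h2 : ∀ p : Fin n, chr g.m p j i x = chr g.m p i j x := fun p => by rw [hsym p j i]
    have h3 : ∀ p : Fin n, chr g.m p l j x = chr g.m p j l x := fun p => by rw [hsym p l j]
    simp only [h1, h2, h3]
    ring
  · -- the metric identity
    have hgd : ∀ a b, Differentiable ℝ fun y => g.m y a b := fun a b =>
      (g.smooth a b).differentiable (by norm_num)
    have hcd : ∀ a b c, Differentiable ℝ (chr g.m a b c) := fun a b c =>
      (hchr a b c).differentiable (by norm_num)
    have hgs : ∀ y a b, g.m y a b = g.m y b a := fun y a b => by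
      have := (g.pos y).isHermitian
      have h2 := congrFun (congrFun this b) a
      simpa [Matrix.conjTranspose_apply] using h2
    -- first derivative
    have hfd : ∀ (i a b : Fin n), pd i (fun y => g.m y a b) = fun y =>
        ∑ p, (chr g.m p i a y * g.m y p b + chr g.m p i b y * g.m y a p) := fun i a b =>
      funext fun y => (h6 n g i a b y).2.1
    -- the matrices
    let G : Matrix (Fin n) (Fin n) ℝ := g.m x
    let M : Fin n → Matrix (Fin n) (Fin n) ℝ := fun i p a => chr g.m p i a x
    let D : Fin n → Fin n → Matrix (Fin n) (Fin n) ℝ := fun i j p a => pd i (chr g.m p j a) x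
    have hG1 : ∀ (i a b : Fin n), pd i (fun y => g.m y a b) x = ((M i)ᵀ * G + G * M i) a b := by
      intro i a b
      rw [hfd i a b]
      simp only [Matrix.add_apply, Matrix.mul_apply, Matrix.transpose_apply, M, G,
        Finset.sum_add_distrib]
      congr 1
      exact Finset.sum_congr rfl fun p _ => mul_comm _ _
    have hG2 : ∀ (i j a b : Fin n), pd i (pd j (fun y => g.m y a b)) x =
        ((D i j)ᵀ * G + (M j)ᵀ * ((M i)ᵀ * G + G * M i) + ((M i)ᵀ * G + G * M i) * M j +
          G * D i j) a b := by
      intro i j a b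
      have hA : ∀ a b c d e, DifferentiableAt ℝ (fun y => chr g.m a b c y * g.m y d e) x :=
        fun a b c d e => (hcd a b c x).fun_mul (hgd d e x)
      rw [hfd j a b, Rm.pd_sum i x (fun p => (hA p j a p b).fun_add (hA p j b a p))]
      have : ∀ p, pd i (fun y => chr g.m p j a y * g.m y p b + chr g.m p j b y * g.m y a p) x =
          (D i j)ᵀ a p * G p b + (M j)ᵀ a p * ((M i)ᵀ * G + G * M i) p b +
          ((M i)ᵀ * G + G * M i) a p * M j p b + G a p * D i j p b := by
        intro p
        rw [Rm.pd_add i x (hA p j a p b) (hA p j b a p),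
          Rm.pd_mul i x (hcd p j a x) (hgd p b x), Rm.pd_mul i x (hcd p j b x) (hgd a p x),
          hG1, hG1]
        simp only [D, M, G, Matrix.transpose_apply]
        ring
      rw [Finset.sum_congr rfl fun p _ => this p]
      simp only [Finset.sum_add_distrib]
      rfl
    have hR : (D i j - D j i + (M i * M j - M j * M i))ᵀ * G +
        G * (D i j - D j i + (M i * M j - M j * M i)) = 0 := by
      have h0 : ((D i j)ᵀ * G + (M j)ᵀ * ((M i)ᵀ * G + G * M i) + ((M i)ᵀ * G + G * M i) * M j +
          G * D i j) = ((D j i)ᵀ * G + (M i)ᵀ * ((M j)ᵀ * G + G * M j) +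
          ((M j)ᵀ * G + G * M j) * M i + G * D j i) := by
        ext a b
        rw [← hG2 i j a b, ← hG2 j i a b]
        exact Rm.pd_comm (g.smooth a b) i j x
      rw [Matrix.transpose_add, Matrix.transpose_sub, Matrix.transpose_sub,
        Matrix.transpose_mul, Matrix.transpose_mul]
      have h1 := sub_eq_zero.mpr h0
      rw [← h1]
      noncomm_ring
    have hRr : ∀ p a, (D i j - D j i + (M i * M j - M j * M i)) p a = riem g.m i j p a x := by
      intro p a
      unfold riem
      simp only [Matrix.add_apply, Matrix.sub_apply, Matrix.mul_apply, M, D,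
        Finset.sum_sub_distrib]
    have h2 := congrFun (congrFun hR l) k
    rw [Matrix.add_apply, Matrix.mul_apply, Matrix.mul_apply] at h2
    simp only [Matrix.transpose_apply, hRr, Matrix.zero_apply] at h2
    have h3 : ∑ p, g.m x k p * riem g.m i j p l x = ∑ p, riem g.m i j p l x * G p k := by
      refine Finset.sum_congr rfl fun p _ => ?_
      rw [hgs x k p, mul_comm]
    rw [h3]
    linarith

end Pool.Agent.DC
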