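import Pool.Agent.DC.C.Defs

/-!
# Project DC (MP_b05a29): statements of block C
-/

set_option autoImplicit false

open MeasureTheory Set
open scoped ContDiff BigOperators Matrix

namespace Pool.Agent.DC

/-! ### Algebra of spinors -/

/-- C1: Clifford relations, parity, adjoints -/
def StCl : Prop := ∀ (n : ℕ) (a b : Fin n),
  gm a * gm b + gm b * gm a = (if a = b then (-2 : ℝ) else 0) • (1 : Op n) ∧
  Gm a * Gm b + Gm b * Gm a = (if a = b then (2 : ℝ) else 0) • (1 : Op n) ∧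
  gm a * Gm b + Gm b * gm a = 0 ∧ star (gm a) = -gm a ∧ star (Gm a) = Gm a ∧
  gm a * par n + par n * gm a = 0 ∧ Gm a * par n + par n * Gm a = 0 ∧
  star (par n) = par n ∧ par n * par n = 1

/-- C2: creation and annihilation operators, vacuum -/
def StCar : Prop := ∀ (n : ℕ) (a b : Fin n),
  an a * cr b + cr b * an a = (if a = b then (1 : ℝ) else 0) • (1 : Op n) ∧
  an a * an b + an b * an a = 0 ∧ star (cr a) = an a ∧ an a (vac n) = 0 ∧ par n (vac n) = vac n ∧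
  ∀ v : Sp n, (∀ c : Fin n, an c v = 0) → v = (inner ℝ (vac n) v : ℝ) • vac n

/-- C3: the spin representation -/
def StSo : Prop := ∀ (n : ℕ) (W W' : Matrix (Fin n) (Fin n) ℝ), Wᵀ = -W → W'ᵀ = -W' →
  star (spin W) = -spin W ∧
  (∀ a, spin W * gm a - gm a * spin W = ∑ c, W c a • gm c) ∧
  (∀ a, spin W * Gm a - Gm a * spin W = 0) ∧ spin W * par n = par n * spin W ∧
  spin W * spin W' - spin W' * spin W = spin (W * W' - W' * W)

/-! ### Frames -/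

/-- a smooth map from positive matrices to orthonormal frames -/
structure FrMap (n : ℕ) where
  /-- the map -/
  Φ : Matrix (Fin n) (Fin n) ℝ → Matrix (Fin n) (Fin n) ℝ
  on : ∀ S : Matrix (Fin n) (Fin n) ℝ, S.PosDef → (Φ S)ᵀ * S * Φ S = 1
  flat : ∀ c : ℝ, 0 < c → Φ (c • 1) = (Real.sqrt c)⁻¹ • 1
  smooth : ∀ (F : Type) [NormedAddCommGroup F] [NormedSpace ℝ F]
    (s : F → Matrix (Fin n) (Fin n) ℝ), (∀ i j, ContDiff ℝ ∞ fun x => s x i j) →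
    (∀ x, (s x).PosDef) → ∀ i j, ContDiff ℝ ∞ fun x => Φ (s x) i j

/-- C4: the square root -/
def StFr : Prop := ∀ n : ℕ, Nonempty (FrMap n)

/-! ### The Lichnerowicz identity -/

/-- C5: smoothness of everything -/
def StSm : Prop := ∀ (n : ℕ) (g : Metric n), (∀ i j, ContDiff ℝ ∞ fun x => (g.m x)⁻¹ i j) ∧
  (∀ k i j, ContDiff ℝ ∞ (chr g.m k i j)) ∧ (∀ i j k l, ContDiff ℝ ∞ (riem g.m i j k l)) ∧
  ContDiff ℝ ∞ (scal g.m) ∧ ContDiff ℝ ∞ (vol g.m) ∧ (∀ x, 0 < vol g.m x) ∧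
  ∀ f : MF n, IsFrame g.m f → (∀ i k j, ContDiff ℝ ∞ fun x => conM g.m f i x k j) ∧
    (∀ i, ContDiff ℝ ∞ fun x => spin (conM g.m f i x)) ∧ (∀ i, ContDiff ℝ ∞ (gi f i)) ∧
    ∀ u : E n → Sp n, ContDiff ℝ ∞ u → (∀ i, ContDiff ℝ ∞ (nab g.m f i u)) ∧
      ContDiff ℝ ∞ (dir g.m f u)

/-- C6: the Levi-Civita connection is symmetric and metric -/
def StLc : Prop := ∀ (n : ℕ) (g : Metric n) (i j k : Fin n) (x : E n),
  chr g.m k i j x = chr g.m k j i x ∧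
  pd i (fun y => g.m y j k) x =
    ∑ l, (chr g.m l i j x * g.m x l k + chr g.m l i k x * g.m x j l) ∧
  pd i (fun y => (g.m y)⁻¹ j k) x =
    -∑ l, (chr g.m j i l x * (g.m x)⁻¹ l k + chr g.m k i l x * (g.m x)⁻¹ j l) ∧
  pd i (vol g.m) x = vol g.m x * ∑ l, chr g.m l i l x

/-- C7: symmetries of the curvature -/
def StRm : Prop := ∀ (n : ℕ) (g : Metric n) (i j k l : Fin n) (x : E n),
  riem g.m i j k l x = -riem g.m j i k l x ∧
  riem g.m i j k l x + riem g.m j l k i x + riem g.m l i k j x = 0 ∧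
  ∑ p, g.m x k p * riem g.m i j p l x = -∑ p, g.m x l p * riem g.m i j p k x

/-- C8: the spin connection -/
def StSc : Prop := ∀ (n : ℕ) (g : Metric n) (f : MF n), IsFrame g.m f →
  ∀ (i j : Fin n) (x : E n), (conM g.m f i x)ᵀ = -conM g.m f i x ∧
  gi f i x * gi f j x + gi f j x * gi f i x = (-2 * (g.m x)⁻¹ i j) • (1 : Op n) ∧
  star (gi f i x) = -gi f i x ∧
  pd i (gi f j) x + spin (conM g.m f i x) * gi f j x - gi f j x * spin (conM g.m f i x) =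
    -∑ k, chr g.m j i k x • gi f k x ∧
  pd i (fun y => spin (conM g.m f j y)) x - pd j (fun y => spin (conM g.m f i y)) x +
      spin (conM g.m f i x) * spin (conM g.m f j x) -
      spin (conM g.m f j x) * spin (conM g.m f i x) =
    (1 / 4 : ℝ) • ∑ l, ∑ m, (∑ k, g.m x m k * riem g.m i j k l x) • (gi f l x * gi f m x)

/-- C9: contraction of the curvature -/
def StCo : Prop := ∀ (n : ℕ) (g : Metric n) (f : MF n), IsFrame g.m f →
  ∀ (x : E n) (v : Sp n), inner ℝ ((∑ i, ∑ j, ∑ l, ∑ m,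
    (∑ k, g.m x m k * riem g.m i j k l x) •
      (gi f i x * gi f j x * (gi f l x * gi f m x))) v) v = 2 * scal g.m x * ‖v‖ ^ 2

/-- C10: the square of the Dirac operator -/
def StWz : Prop := ∀ (n : ℕ) (g : Metric n) (f : MF n), IsFrame g.m f →
  ∀ u : E n → Sp n, ContDiff ℝ ∞ u → ∀ x : E n,
  inner ℝ (dir g.m f (dir g.m f u) x) (u x) =
    -∑ i, ∑ j, (g.m x)⁻¹ i j * inner ℝ (nab g.m f i (nab g.m f j u) x -
      ∑ k, chr g.m k i j x • nab g.m f k u x) (u x) + scal g.m x / 4 * ‖u x‖ ^ 2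

/-- C11: the Dirac operator with potential is symmetric -/
def StSy : Prop := ∀ (n : ℕ) (g : Metric n) (f : MF n), IsFrame g.m f →
  ∀ φ : E n → E n, ContDiff ℝ ∞ φ → ∀ u w : E n → Sp n, Tst u → ContDiff ℝ ∞ w →
  ∫ x, inner ℝ (dB g.m f φ u x) (w x) * vol g.m x =
    ∫ x, inner ℝ (u x) (dB g.m f φ w x) * vol g.m x

/-- C12: the Lichnerowicz identity with potential -/
def StLi : Prop := ∀ (n : ℕ) (g : Metric n) (f : MF n), IsFrame g.m f →
  ∀ φ : E n → E n, ContDiff ℝ ∞ φ → ∀ u : E n → Sp n, Tst u →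
  ∫ x, ‖dB g.m f φ u x‖ ^ 2 * vol g.m x =
    ∫ x, (nsq g.m x (fun i => nab g.m f i u x) +
      (scal g.m x / 4 + ‖φ x‖ ^ 2) * ‖u x‖ ^ 2 +
      inner ℝ ((∑ a, ∑ i, pd i (fun y => φ y a) x • (gi f i x * Gm a)) (u x)) (u x)) *
        vol g.m x

/-- C13: the pointwise bound of the last term -/
def StPb : Prop := ∀ (n : ℕ) (g : Metric n) (f : MF n), IsFrame g.m f →
  ∀ φ : E n → E n, ContDiff ℝ ∞ φ → ∀ (x : E n) (v : Sp n),
  |inner ℝ ((∑ a, ∑ i, pd i (fun y => φ y a) x • (gi f i x * Gm a)) v) v| ≤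
    (∑ a, dnm g.m (fun y => φ y a) x) * ‖v‖ ^ 2

/-! ### The path of operators -/

/-- A metric which is constant at infinity and a potential which is linear at infinity. -/
structure Dat (n : ℕ) where
  /-- the metric -/
  G : Metric n
  /-- the constant -/
  C : ℝ
  hC : 1 ≤ C
  /-- the radius -/
  R : ℝ
  flat : ∀ x, R ≤ ‖x‖ → G.m x = C • 1
  /-- the bounded part of the potential -/
  β : E n → E n
  smooth : ContDiff ℝ ∞ β
  /-- the bound -/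
  K : ℝ
  bd : ∀ x, ‖β x‖ ≤ K
  bd1 : ∀ x, ‖fderiv ℝ β x‖ ≤ K
  /-- the frame map -/
  F : FrMap n

namespace Dat

variable {n : ℕ} (D : Dat n)

/-- the metrics of the path, `t = 0` flat, `t = 1` the metric `G` -/
noncomputable def g (t : ℝ) : MF n := fun x =>
  ((1 - Real.smoothTransition t) * D.C) • (1 : Matrix (Fin n) (Fin n) ℝ) +
    Real.smoothTransition t • D.G.m x

/-- the frames of the path -/
noncomputable def f (t : ℝ) : MF n := fun x => D.F.Φ (D.g t x)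

/-- the potentials of the path -/
noncomputable def φ (t : ℝ) (x : E n) : E n :=
  (Real.sqrt D.C)⁻¹ • x + Real.smoothTransition t • D.β x

/-- the operators of the path -/
noncomputable def B (t : ℝ) (u : E n → Sp n) (x : E n) : Sp n := dB (D.g t) (D.f t) (D.φ t) u x

end Dat

/-- square integrable spinors -/
abbrev L2 (n : ℕ) : Type := Lp (Sp n) 2 (volume : Measure (E n))

/-- values, derivatives, products with the coordinates -/
abbrev XX (n : ℕ) : Type := PiLp 2 (fun _ : Option (Fin n ⊕ Fin n) => L2 n)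

/-- the components of the jet of `u` -/
noncomputable def jf {n : ℕ} (u : E n → Sp n) : Option (Fin n ⊕ Fin n) → E n → Sp n
  | none => u
  | some (Sum.inl i) => pd i u
  | some (Sum.inr i) => fun x => x i • u x

/-- `X` is the jet of `u` -/
def IsJet {n : ℕ} (u : E n → Sp n) (X : XX n) : Prop :=
  ∀ o, (X o : E n → Sp n) =ᵐ[volume] jf u o

/-- the weighted Sobolev space -/
noncomputable def HH (n : ℕ) : Submodule ℝ (XX n) :=
  (Submodule.span ℝ {X | ∃ u : E n → Sp n, Tst u ∧ IsJet u X}).topologicalClosure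

/-- the value -/
noncomputable def JJ (n : ℕ) : HH n →L[ℝ] L2 n :=
  (PiLp.proj 2 (fun _ : Option (Fin n ⊕ Fin n) => L2 n) none : XX n →L[ℝ] L2 n).comp
    (HH n).subtypeL

/-- C0: basic facts about the weighted Sobolev space: jets of test functions, density, uniqueness,
weak derivatives, products with the coordinates, norm -/
def StJe : Prop := ∀ n : ℕ,
  (∀ u : E n → Sp n, Tst u → ∃ X : HH n, IsJet u X.1) ∧
  (∀ (u : E n → Sp n) (X Y : HH n), IsJet u X.1 → IsJet u Y.1 → X = Y) ∧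
  (∀ P : HH n → Prop, IsClosed {X | P X} →
    (∀ (u : E n → Sp n) (X : HH n), Tst u → IsJet u X.1 → P X) → ∀ X, P X) ∧
  (∀ (X : HH n) (i : Fin n) (w : E n → Sp n), Tst w →
    ∫ x, inner ℝ ((X.1 (some (Sum.inl i)) : E n → Sp n) x) (w x) =
      -∫ x, inner ℝ ((JJ n X : E n → Sp n) x) (pd i w x)) ∧
  (∀ (X : HH n) (i : Fin n), (X.1 (some (Sum.inr i)) : E n → Sp n) =ᵐ[volume]
    fun x => x i • (JJ n X : E n → Sp n) x) ∧
  (∀ X : HH n, ‖X‖ ^ 2 = ∑ o, ∫ x, ‖(X.1 o : E n → Sp n) x‖ ^ 2) ∧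
  ∀ X : HH n, JJ n X = X.1 none

/-- `T` is the path of operators of `D` -/
def IsT {n : ℕ} (D : Dat n) (T : ℝ → HH n →L[ℝ] L2 n) : Prop :=
  Continuous T ∧ ∀ (t : ℝ) (u : E n → Sp n) (X : HH n), Tst u → IsJet u X.1 →
    (T t X : E n → Sp n) =ᵐ[volume] D.B t u

/-- C14: the metrics and frames of the path are smooth, jointly with `t` -/
def StPa : Prop := ∀ (n : ℕ) (D : Dat n),
  (∀ i j, ContDiff ℝ ∞ fun p : ℝ × E n => D.g p.1 p.2 i j) ∧
  (∀ i j, ContDiff ℝ ∞ fun p : ℝ × E n => D.f p.1 p.2 i j) ∧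
  (∀ t x, (D.g t x).PosDef) ∧ (∀ t, IsFrame (D.g t) (D.f t)) ∧
  (∀ t x, D.R ≤ ‖x‖ → D.g t x = D.C • 1 ∧ D.f t x = (Real.sqrt D.C)⁻¹ • 1) ∧
  (∀ x, D.g 1 x = D.G.m x) ∧ (∀ x, D.g 0 x = D.C • 1)

/-- C15: the path of bounded operators exists and is continuous -/
def StT : Prop := ∀ (n : ℕ) (D : Dat n), ∃ T : ℝ → HH n →L[ℝ] L2 n, IsT D T

/-- C16: Garding's inequality -/
def StGa : Prop := ∀ (n : ℕ) (D : Dat n) (T : ℝ → HH n →L[ℝ] L2 n), IsT D T → ∀ t : ℝ,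
  ∃ C : ℝ, ∀ X : HH n, ‖X‖ ≤ C * (‖T t X‖ + ‖JJ n X‖)

/-- C17: Rellich's theorem, and injectivity -/
def StRe : Prop := ∀ n : ℕ, IsCompactOperator (JJ n) ∧ Function.Injective (JJ n)

/-- C18: weak solutions are strong solutions -/
def StWs : Prop := ∀ (n : ℕ) (D : Dat n) (T : ℝ → HH n →L[ℝ] L2 n), IsT D T →
  ∀ (t : ℝ) (v : L2 n), (∀ u : E n → Sp n, Tst u →
    ∫ x, inner ℝ (v x) (D.B t u x) * vol (D.g t) x = 0) ↔ ∃ X : HH n, JJ n X = v ∧ T t X = 0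

/-- C19: the kernel of the flat operator -/
def StFl : Prop := ∀ (n : ℕ) (D : Dat n) (T : ℝ → HH n →L[ℝ] L2 n), IsT D T →
  (∃ X : HH n, X ≠ 0 ∧ T 0 X = 0) ∧ ∀ X : HH n, T 0 X = 0 →
    ∃ c : ℝ, (JJ n X : E n → Sp n) =ᵐ[volume] fun x => (c * Real.exp (-‖x‖ ^ 2 / 2)) • vac n

/-- C20: parity on the function spaces -/
def StPr : Prop := ∀ n : ℕ, ∃ (eX : HH n →L[ℝ] HH n) (eY : L2 n →L[ℝ] L2 n),
  (∀ v : L2 n, (eY v : E n → Sp n) =ᵐ[volume] fun x => par n (v x)) ∧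
  (∀ X, eX (eX X) = X) ∧ (∀ v, eY (eY v) = v) ∧ (∀ v w, inner ℝ (eY v) (eY w) = inner ℝ v w) ∧
  (∀ X, JJ n (eX X) = eY (JJ n X)) ∧
  ∀ (D : Dat n) (T : ℝ → HH n →L[ℝ] L2 n), IsT D T → ∀ t X, T t (eX X) = -eY (T t X)

/-- C21: every operator of the path has a kernel (index theorem) -/
def StKe : Prop := ∀ (n : ℕ) (D : Dat n) (T : ℝ → HH n →L[ℝ] L2 n), IsT D T →
  ∀ t : ℝ, ∃ X : HH n, X ≠ 0 ∧ T t X = 0

/-- the lower bound of the square of the operator -/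
noncomputable def lowb {n : ℕ} (D : Dat n) (x : E n) : ℝ :=
  scal D.G.m x / 4 + ‖D.φ 1 x‖ ^ 2 - ∑ a, dnm D.G.m (fun y => D.φ 1 y a) x

/-- C22: positivity implies no kernel -/
def StPo : Prop := ∀ (n : ℕ) (D : Dat n) (T : ℝ → HH n →L[ℝ] L2 n), IsT D T →
  (∃ δ : ℝ, 0 < δ ∧ ∀ x, δ ≤ lowb D x) → ∀ X : HH n, T 1 X = 0 → X = 0

/-- C23: there is no potential and metric with positive lower bound -/
def StNo : Prop := ∀ (n : ℕ) (D : Dat n), ¬ ∃ δ : ℝ, 0 < δ ∧ ∀ x, δ ≤ lowb D x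

/-! ### From the box to Euclidean space -/

/-- the closed box -/
def Box {n : ℕ} (a b : Fin n → ℝ) : Set (E n) := {x | ∀ i, x i ∈ Icc (a i) (b i)}

/-- the length of a segment -/
noncomputable def seg {n : ℕ} (g : MF n) (x y : E n) : ℝ :=
  ∫ t in (0 : ℝ)..1, Real.sqrt (∑ i, ∑ j, g (x + t • (y - x)) i j * (y - x) i * (y - x) j)

/-- C24: the functions `F i` are smoothed near the box and extended to the whole space -/
def StMo : Prop := ∀ (n : ℕ) (g : Metric n) (a b : Fin n → ℝ), (∀ i, a i < b i) →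
  ∀ (d : ℝ), 0 < d → ∀ (W : ℝ) (F : Fin n → E n → ℝ),
  (∀ i, ∀ x ∈ Box (fun i => a i - d) (fun i => b i + d),
    ∀ y ∈ Box (fun i => a i - d) (fun i => b i + d), |F i x - F i y| ≤ seg g.m x y) →
  (∀ i, ∀ x ∈ Box a b, x i = a i → F i x ≤ 0) → (∀ i, ∀ x ∈ Box a b, x i = b i → W ≤ F i x) →
  ∃ (δ K : ℝ) (ξ : Fin n → E n → ℝ), 0 < δ ∧ (∀ i, ContDiff ℝ ∞ (ξ i)) ∧
    (∀ i x, ‖fderiv ℝ (ξ i) x‖ ≤ K) ∧ (∀ i x, x i < a i + 2 * δ → ξ i x ≤ 2) ∧
    (∀ i x, b i - 2 * δ < x i → W - 2 ≤ ξ i x) ∧ ∀ i, ∀ x ∈ Box a b, dnm g.m (ξ i) x ≤ 2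

/-- C25: the extension of the metric: unchanged in the inner box, larger in the box, large
outside, constant at infinity -/
def StEx : Prop := ∀ (n : ℕ) (g : Metric n) (a b : Fin n → ℝ), (∀ i, a i < b i) →
  ∀ (δ : ℝ), 0 < δ → ∀ C₀ : ℝ, ∃ (G : Metric n) (C R : ℝ), C₀ ≤ C ∧ 1 ≤ C ∧
    (∀ x, (∀ i, x i ∈ Ioo (a i + δ) (b i - δ)) → G.m x = g.m x) ∧
    (∀ x, R ≤ ‖x‖ → G.m x = C • 1) ∧
    (∀ (h : E n → ℝ), ∀ x ∈ Box a b, dnm G.m h x ≤ dnm g.m h x) ∧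
    (∀ (h : E n → ℝ), ∀ x ∉ Box a b, dnm G.m h x ≤ (Real.sqrt C)⁻¹ * ‖fderiv ℝ h x‖)

/-- C26: the one variable potential -/
def StPs : Prop := ∀ c : ℝ, 0 < c → ∃ W₀ : ℝ, ∀ W : ℝ, W₀ ≤ W → ∀ Λ : ℝ,
  ∃ (ψ : ℝ → ℝ) (Λ' : ℝ), Λ ≤ Λ' ∧ 0 < Λ' ∧ ContDiff ℝ ∞ ψ ∧ (∀ s, |ψ s| ≤ Λ') ∧
    (∀ s ≤ 3, ψ s = -Λ') ∧ (∀ s, W - 3 ≤ s → ψ s = Λ') ∧ (∀ s, 0 ≤ deriv ψ s) ∧
    (∀ s, 2 * deriv ψ s ≤ ψ s ^ 2 + c) ∧ (∃ K, ∀ s, deriv ψ s ≤ K)

/-- the growth at infinity of the potential -/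
def StGr : Prop := ∀ a b : ℝ, a < b → ∃ (β : ℝ → ℝ) (K : ℝ), ContDiff ℝ ∞ β ∧
  (∀ s, 0 ≤ deriv β s) ∧ (∀ s, deriv β s ≤ 1) ∧ (∀ s ∈ Icc a b, β s = 0) ∧
  (∀ s ≤ a, β s ≤ 0) ∧ (∀ s, b ≤ s → 0 ≤ β s) ∧ ∀ s, |β s - s| ≤ K

/-- The box theorem with functions: smooth metric on `ℝ ^ n`, scalar curvature at least `c` on a
box, functions `F i` which are `1`-Lipschitz near the box for the length of segments; the
difference of the values of `F i` on the two `i`-faces is bounded by a constant `W (n, c)`. -/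
def BoxF : Prop := ∀ (n : ℕ) (c : ℝ), 0 < c → ∃ W : ℝ, ∀ (g : Metric n) (a b : Fin n → ℝ),
  (∀ i, a i < b i) → (∀ x ∈ Box a b, c ≤ scal g.m x) → ∀ (d : ℝ), 0 < d →
  ∀ F : Fin n → E n → ℝ,
  (∀ i, ∀ x ∈ Box (fun i => a i - d) (fun i => b i + d),
    ∀ y ∈ Box (fun i => a i - d) (fun i => b i + d), |F i x - F i y| ≤ seg g.m x y) →
  (∀ i, ∀ x ∈ Box a b, x i = a i → F i x ≤ 0) → (∀ i, ∀ x ∈ Box a b, x i = b i → W ≤ F i x) →
  False

/-- C27: assembly of the box theorem -/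
def StBx : Prop := StFr → StSm → StNo → StMo → StEx → StPs → StGr → BoxF

end Pool.Agent.DC
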